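import Pool.Agent.H56.G3.Poi

/-!
# G3 Lift: normalised lifts
-/

set_option autoImplicit false

open Set Metric Filter Topology Real

namespace Pool.Agent.H56.G3

/-- the Herglotz integral: a holomorphic function whose real part is the Poisson integral -/
theorem herglotz {u : ℂ → ℝ} {c : ℂ} {R : ℝ} (hR : 0 < R) (hu : ContinuousOn u (sphere c R)) :
    ∃ φ : ℂ → ℂ, DifferentiableOn ℂ φ (ball c R) ∧ ∀ w ∈ ball c R, (φ w).re = circleAverage (fun z => pk c w z * u z) c R := by
  have hRabs : |R| = R := abs_of_pos hR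
  obtain ⟨g, hg⟩ : ∃ g : ℂ → ℝ, g = fun z => u (z + c) := ⟨_, rfl⟩
  have hgc : CircleIntegrable g 0 R := by
    refine ContinuousOn.circleIntegrable' ?_
    rw [hRabs, hg]
    refine hu.comp (by fun_prop) ?_
    intro z hz
    rw [mem_sphere_iff_norm, sub_zero] at hz
    rw [mem_sphere_iff_norm, add_sub_cancel_right]
    exact hz
  have hgc' : CircleIntegrable (fun z => (g z : ℂ)) 0 R := by
    simp only [CircleIntegrable, intervalIntegrable_iff] at hgc ⊢
    exact Complex.ofRealCLM.integrable_comp hgc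
  have h1 := differentiableOn_circleAverage_herglotzRieszKernel_smul hgc'
  refine ⟨fun w => circleAverage (fun ζ ↦ herglotzRieszKernel 0 (w - c) ζ • (g ζ : ℂ)) 0 R, ?_, ?_⟩
  · refine h1.comp (by fun_prop) ?_
    intro w hw
    rw [mem_ball_iff_norm] at hw
    rw [mem_ball_iff_norm, sub_zero]
    exact hw
  · intro w hw
    have hw' : w - c ∈ ball (0 : ℂ) R := by
      rw [mem_ball_iff_norm] at hw
      rw [mem_ball_iff_norm, sub_zero]
      exact hw
    have h2 := re_circleAverage_herglotzRieszKernel_smul hgc hw'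
    simp only
    rw [h2, ← circleAverage_map_add_const (f := fun z => pk c w z * u z)]
    congr 1
    funext z
    simp [pk, hg, herglotzRieszKernel_def]

theorem pk_self {c z : ℂ} (h : z ≠ c) : pk c c z = 1 := by
  have h1 : z - c ≠ 0 := sub_ne_zero.2 h
  unfold pk
  rw [sub_self, add_zero, sub_zero, div_self h1, Complex.one_re]

/-- Poisson's formula for the real part of a holomorphic function -/
theorem pois_re {ψ : ℂ → ℂ} {c w : ℂ} {R : ℝ} (hR : 0 < R) (hψ : DiffContOnCl ℂ ψ (ball c R)) (hw : w ∈ ball c R) :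
    circleAverage (fun z => pk c w z * (ψ z).re) c R = (ψ w).re := by
  have hRabs : |R| = R := abs_of_pos hR
  have hpk := pk_cont hw
  have hψc : ContinuousOn ψ (sphere c R) := hψ.continuousOn.mono (by rw [closure_ball c hR.ne']; exact sphere_subset_closedBall)
  have h1 := hψ.circleAverage_re_herglotzRieszKernel_smul' (c := c) (R := R) hw
  have h2 : CircleIntegrable (fun z => ((z - c + (w - c)) / ((z - c) - (w - c))).re • ψ z) c R := by
    refine ContinuousOn.circleIntegrable' ?_
    rw [hRabs]
    exact hpk.smul hψc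
  have h3 := Complex.reCLM.circleAverage_comp_comm h2
  rw [h1] at h3
  simp only [Complex.reCLM_apply] at h3
  rw [← h3]
  congr 1
  funext z
  simp [pk]

variable {E : Type*} [NormedAddCommGroup E] [NormedSpace ℂ E]

/-- **Normalised lifts.** -/
theorem norm_lift {C : ℝ} {F : ℂ → E} {z₀ : ℂ} {R : ℝ} (hR : 7 ≤ R) (hF : DifferentiableOn ℂ F (ball z₀ R)) (h0 : ∀ z ∈ ball z₀ R, F z ≠ 0)
    {Gd : Set ℂ} (hG : ∀ z ∈ Gd, ‖z - z₀‖ ≤ 1 → circleAverage (fun w => Real.log ‖F w‖) z 5 ≤ Real.log ‖F z‖ + C ∧
      circleAverage (fun w => Real.log ‖F w‖) z (5 / 2) ≤ Real.log ‖F z‖ + C) :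
    ∃ φ : ℂ → ℂ, DifferentiableOn ℂ φ (ball z₀ 2) ∧ (∀ z ∈ ball z₀ 2, ‖Complex.exp (-φ z) • F z‖ ≤ 1) ∧
      ∀ z ∈ Gd, ‖z - z₀‖ ≤ 1 → Real.exp (-10 * C) ≤ ‖Complex.exp (-φ z) • F z‖ := by
  by_cases hex : ∃ z₁ ∈ Gd, ‖z₁ - z₀‖ ≤ 1
  · obtain ⟨z₁, hz₁, hz₁0⟩ := hex
    have hsub : closedBall z₁ 5 ⊆ ball z₀ R := by
      intro z hz
      rw [mem_closedBall_iff_norm] at hz
      rw [mem_ball_iff_norm]
      calc ‖z - z₀‖ = ‖(z - z₁) + (z₁ - z₀)‖ := by rw [sub_add_sub_cancel]
        _ ≤ ‖z - z₁‖ + ‖z₁ - z₀‖ := norm_add_le _ _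
        _ < R := by linarith
    have hnorm : ∀ z ∈ ball z₀ R, ‖F z‖ ≠ 0 := fun z hz => norm_ne_zero_iff.2 (h0 z hz)
    have huc : ContinuousOn (fun z => Real.log ‖F z‖) (ball z₀ R) := ContinuousOn.log hF.continuousOn.norm hnorm
    obtain ⟨φ, hφ, hre⟩ := herglotz (by norm_num : (0 : ℝ) < 5) (huc.mono ((sphere_subset_closedBall).trans hsub))
    have hdc : ∀ (c : ℂ) (r : ℝ), 0 < r → closedBall c r ⊆ ball z₀ R → DiffContOnCl ℂ F (ball c r) := by
      intro c r hr h
      refine (hF.mono ?_).diffContOnCl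
      rw [closure_ball c hr.ne']
      exact h
    have hvnn : ∀ z ∈ ball z₁ 5, Real.log ‖F z‖ ≤ (φ z).re := by
      intro z hz
      rw [hre z hz]
      exact poisson_jensen (by norm_num) (hdc z₁ 5 (by norm_num) hsub) (fun w hw => h0 w (hsub (sphere_subset_closedBall hw))) hz
        (h0 z (hsub (ball_subset_closedBall hz)))
    have hin : ball z₀ 2 ⊆ ball z₁ 5 := by
      intro z hz
      rw [mem_ball_iff_norm] at hz ⊢
      calc ‖z - z₁‖ = ‖(z - z₀) - (z₁ - z₀)‖ := by rw [sub_sub_sub_cancel_right]
        _ ≤ ‖z - z₀‖ + ‖z₁ - z₀‖ := norm_sub_le _ _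
        _ < 5 := by linarith
    have hnf : ∀ z ∈ ball z₁ 5, ‖Complex.exp (-φ z) • F z‖ = Real.exp (Real.log ‖F z‖ - (φ z).re) := by
      intro z hz
      have h2 : 0 < ‖F z‖ := norm_pos_iff.2 (h0 z (hsub (ball_subset_closedBall hz)))
      rw [norm_smul, Complex.norm_exp, Complex.neg_re, sub_eq_neg_add, Real.exp_add, Real.exp_log h2]
    refine ⟨φ, hφ.mono hin, ?_, ?_⟩
    · intro z hz
      rw [hnf z (hin hz), Real.exp_le_one_iff]
      linarith [hvnn z (hin hz)]
    · intro z hz hz0
      have hzin : z ∈ ball z₁ 5 := by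
        apply hin
        rw [mem_ball_iff_norm]
        linarith
      rw [hnf z hzin]
      apply Real.exp_le_exp.2
      -- the value at `z₁`
      have hv1 : (φ z₁).re - Real.log ‖F z₁‖ ≤ C := by
        have h1 := hre z₁ (mem_ball_self (by norm_num))
        have h2 : circleAverage (fun z => pk z₁ z₁ z * Real.log ‖F z‖) z₁ 5 = circleAverage (fun z => Real.log ‖F z‖) z₁ 5 := by
          refine circleAverage_congr_sphere ?_
          intro w hw
          have hw' : w ≠ z₁ := by
            rintro rfl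
            simp at hw
          simp only [pk_self hw', one_mul]
        rw [h1, h2]
        linarith [(hG z₁ hz₁ hz₁0).1]
      -- the circle about `z`
      have h52 : (0 : ℝ) < 5 / 2 := by norm_num
      have hzz : ‖z₁ - z‖ ≤ 2 := by
        calc ‖z₁ - z‖ = ‖(z₁ - z₀) - (z - z₀)‖ := by rw [sub_sub_sub_cancel_right]
          _ ≤ ‖z₁ - z₀‖ + ‖z - z₀‖ := norm_sub_le _ _
          _ ≤ 2 := by linarith
      have hcb : closedBall z (5 / 2) ⊆ ball z₁ 5 := by
        intro w hw
        rw [mem_closedBall_iff_norm] at hw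
        rw [mem_ball_iff_norm]
        calc ‖w - z₁‖ = ‖(w - z) - (z₁ - z)‖ := by rw [sub_sub_sub_cancel_right]
          _ ≤ ‖w - z‖ + ‖z₁ - z‖ := norm_sub_le _ _
          _ < 5 := by linarith
      have hcb' : closedBall z (5 / 2) ⊆ ball z₀ R := hcb.trans (ball_subset_closedBall.trans hsub)
      have hφd : DiffContOnCl ℂ φ (ball z (5 / 2)) := by
        refine (hφ.mono ?_).diffContOnCl
        rw [closure_ball z h52.ne']
        exact hcb
      have hz₁b : z₁ ∈ ball z (5 / 2) := by rw [mem_ball_iff_norm]; linarith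
      have hsc : |(5 / 2 : ℝ)| = 5 / 2 := abs_of_pos h52
      have hφc : ContinuousOn (fun w => (φ w).re) (sphere z (5 / 2)) :=
        Complex.continuous_re.comp_continuousOn (hφ.continuousOn.mono (sphere_subset_closedBall.trans hcb))
      have huc' : ContinuousOn (fun w => Real.log ‖F w‖) (sphere z (5 / 2)) := huc.mono (sphere_subset_closedBall.trans hcb')
      have hpk := pk_cont hz₁b
      -- mean value of `Re φ`
      have hm : circleAverage (fun w => (φ w).re) z (5 / 2) = (φ z).re := by
        rw [← pois_re h52 hφd (mem_ball_self h52)]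
        refine circleAverage_congr_sphere ?_
        intro w hw
        have hw' : w ≠ z := by
          rintro rfl
          rw [hsc, mem_sphere_iff_norm, sub_self, norm_zero] at hw
          norm_num at hw
        simp only [pk_self hw', one_mul]
      have hk1 := pois_re h52 hφd hz₁b
      have hk2 := poisson_jensen h52 (hdc z (5 / 2) h52 hcb') (fun w hw => h0 w (hcb' (sphere_subset_closedBall hw))) hz₁b
        (h0 z₁ (hsub (mem_closedBall_self (by norm_num))))
      have i1 : CircleIntegrable (fun w => pk z z₁ w * (φ w).re) z (5 / 2) := by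
        refine ContinuousOn.circleIntegrable' ?_
        rw [hsc]
        exact hpk.mul hφc
      have i2 : CircleIntegrable (fun w => pk z z₁ w * Real.log ‖F w‖) z (5 / 2) := by
        refine ContinuousOn.circleIntegrable' ?_
        rw [hsc]
        exact hpk.mul huc'
      have i3 : CircleIntegrable (fun w => (φ w).re) z (5 / 2) := by
        refine ContinuousOn.circleIntegrable' ?_
        rw [hsc]
        exact hφc
      have i4 : CircleIntegrable (fun w => Real.log ‖F w‖) z (5 / 2) := by
        refine ContinuousOn.circleIntegrable' ?_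
        rw [hsc]
        exact huc'
      have hsub1 := circleAverage_fun_sub i1 i2
      have hsub2 := circleAverage_fun_sub i3 i4
      have hle : circleAverage (fun w => (1 / 9 : ℝ) • ((φ w).re - Real.log ‖F w‖)) z (5 / 2) ≤
          circleAverage (fun w => pk z z₁ w * (φ w).re - pk z z₁ w * Real.log ‖F w‖) z (5 / 2) := by
        refine circleAverage_mono ?_ (i1.sub i2) ?_
        · exact (i3.sub i4).const_smul (a := (1 / 9 : ℝ))
        · intro w hw
          rw [hsc] at hw
          have h1 := le_re_herglotzRieszKernel hw hz₁b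
          have h2 : (1 / 9 : ℝ) ≤ pk z z₁ w := by
            refine le_trans ?_ h1
            rw [div_le_div_iff₀ (by norm_num) (by linarith [norm_nonneg (z₁ - z)])]
            linarith
          have h3 := hvnn w (hcb (sphere_subset_closedBall hw))
          rw [smul_eq_mul, ← mul_sub]
          exact mul_le_mul_of_nonneg_right h2 (by linarith)
      rw [circleAverage_fun_smul, hsub2, hsub1, hk1, hm, smul_eq_mul] at hle
      have h5 := (hG z hz hz0).2
      linarith
  · push Not at hex
    -- no good point: any bound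
    have hc : ContinuousOn (fun z => ‖F z‖) (closedBall z₀ 2) := by
      refine hF.continuousOn.norm.mono ?_
      exact closedBall_subset_ball (by linarith)
    obtain ⟨M, hM⟩ := (isCompact_closedBall z₀ 2).exists_bound_of_continuousOn hc
    refine ⟨fun _ => (Real.log (max M 1) : ℂ), differentiableOn_const _, ?_, fun z hz hz0 => absurd hz0 (not_le.2 (hex z hz))⟩
    intro z hz
    have h1 : 0 < max M 1 := lt_max_of_lt_right one_pos
    rw [norm_smul, Complex.norm_exp, Complex.neg_re, Complex.ofReal_re, Real.exp_neg, Real.exp_log h1, inv_mul_le_one₀ h1]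
    have h2 := hM z (ball_subset_closedBall hz)
    rw [norm_norm] at h2
    exact h2.trans (le_max_left _ _)

end Pool.Agent.H56.G3
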