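import Mathlib

/-!
# G3 Poi: the Poisson integral majorises `log ‖F‖`
-/

set_option autoImplicit false

open Set Metric Filter Topology Real

namespace Pool.Agent.H56.G3

/-- continuous real functions on a circle are approximated by real parts of entire functions -/
theorem approx_re {f : ℂ → ℝ} {c : ℂ} {R : ℝ} (hR : 0 < R) (hf : ContinuousOn f (sphere c R)) {ε : ℝ} (hε : 0 < ε) :
    ∃ ψ : ℂ → ℂ, Differentiable ℂ ψ ∧ ∀ z ∈ sphere c R, |(ψ z).re - f z| ≤ ε := by
  have : Fact (0 < 2 * π) := ⟨by positivity⟩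
  -- the function on the circle
  have hmem : ∀ x : AddCircle (2 * π), c + R * (AddCircle.toCircle x : ℂ) ∈ sphere c R := by
    intro x
    rw [mem_sphere_iff_norm, add_sub_cancel_left, norm_mul, Circle.norm_coe, mul_one, Complex.norm_real, Real.norm_eq_abs, abs_of_pos hR]
  have hcont : Continuous fun x : AddCircle (2 * π) => (f (c + R * (AddCircle.toCircle x : ℂ)) : ℂ) := by
    refine Complex.continuous_ofReal.comp ?_
    refine hf.comp_continuous ?_ hmem
    have := AddCircle.continuous_toCircle (T := 2 * π)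
    fun_prop
  obtain ⟨F, hF⟩ : ∃ F : C(AddCircle (2 * π), ℂ), ∀ x, F x = (f (c + R * (AddCircle.toCircle x : ℂ)) : ℂ) := ⟨⟨_, hcont⟩, fun _ => rfl⟩
  have hcl : F ∈ (Submodule.span ℂ (range <| @fourier (2 * π))).topologicalClosure := by
    rw [span_fourier_closure_eq_top]
    exact Submodule.mem_top
  have hcl' : F ∈ closure ((Submodule.span ℂ (range <| @fourier (2 * π)) : Submodule ℂ C(AddCircle (2 * π), ℂ)) : Set C(AddCircle (2 * π), ℂ)) := hcl
  obtain ⟨g, hg, hgF⟩ := Metric.mem_closure_iff.1 hcl' ε hε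
  have key : ∀ g ∈ Submodule.span ℂ (range <| @fourier (2 * π)), ∃ ψ₁ ψ₂ : ℂ → ℂ, Differentiable ℂ ψ₁ ∧ Differentiable ℂ ψ₂ ∧
      ∀ x, g x = ψ₁ (c + R * (AddCircle.toCircle x : ℂ)) + starRingEnd ℂ (ψ₂ (c + R * (AddCircle.toCircle x : ℂ))) := by
    intro g hg
    have hRc : (R : ℂ) ≠ 0 := by exact_mod_cast hR.ne'
    have hzz : ∀ t : ℂ, (c + R * t - c) / R = t := by
      intro t
      rw [add_sub_cancel_left, mul_div_cancel_left₀ _ hRc]
    induction hg using Submodule.span_induction with
    | mem g hg =>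
      obtain ⟨n, rfl⟩ := hg
      rcases Int.eq_nat_or_neg n with ⟨k, hk | hk⟩
      · refine ⟨fun z => ((z - c) / R) ^ k, fun _ => 0, by fun_prop, by fun_prop, fun x => ?_⟩
        simp only [hzz, map_zero, add_zero]
        rw [fourier_apply, AddCircle.toCircle_zsmul, hk]
        simp
      · refine ⟨fun _ => 0, fun z => ((z - c) / R) ^ k, by fun_prop, by fun_prop, fun x => ?_⟩
        simp only [hzz, zero_add]
        rw [hk, fourier_neg, fourier_apply, AddCircle.toCircle_zsmul]
        simp
    | zero => exact ⟨fun _ => 0, fun _ => 0, by fun_prop, by fun_prop, fun x => by simp⟩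
    | add g₁ g₂ _ _ h₁ h₂ =>
      obtain ⟨a, b, ha, hb, h⟩ := h₁
      obtain ⟨a', b', ha', hb', h'⟩ := h₂
      refine ⟨fun z => a z + a' z, fun z => b z + b' z, ha.add ha', hb.add hb', fun x => ?_⟩
      rw [ContinuousMap.add_apply, h, h', map_add]
      ring
    | smul t g _ h =>
      obtain ⟨a, b, ha, hb, h⟩ := h
      refine ⟨fun z => t * a z, fun z => starRingEnd ℂ t * b z, ha.const_mul _, hb.const_mul _, fun x => ?_⟩
      rw [ContinuousMap.smul_apply, h, map_mul, Complex.conj_conj, smul_eq_mul]
      ring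
  obtain ⟨ψ₁, ψ₂, h₁, h₂, h⟩ := key g hg
  refine ⟨fun z => ψ₁ z + ψ₂ z, h₁.add h₂, fun z hz => ?_⟩
  -- every point of the circle is of this form
  obtain ⟨x, hx⟩ : ∃ x : AddCircle (2 * π), z = c + R * (AddCircle.toCircle x : ℂ) := by
    have hz' : ‖(z - c) / R‖ = 1 := by
      rw [norm_div, mem_sphere_iff_norm.1 hz, Complex.norm_real, Real.norm_eq_abs, abs_of_pos hR, div_self hR.ne']
    refine ⟨((Complex.arg ((z - c) / R) : ℝ) : AddCircle (2 * π)), ?_⟩
    rw [AddCircle.toCircle_apply_mk, Circle.coe_exp, div_self (by positivity), one_mul]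
    have h3 := Complex.norm_mul_exp_arg_mul_I ((z - c) / R)
    rw [hz', Complex.ofReal_one, one_mul] at h3
    rw [h3]
    have hRc : (R : ℂ) ≠ 0 := by exact_mod_cast hR.ne'
    field_simp
    ring
  have h4 : ‖F x - g x‖ ≤ ε := by
    have h5 := ContinuousMap.norm_coe_le_norm (F - g) x
    rw [ContinuousMap.sub_apply] at h5
    rw [dist_eq_norm] at hgF
    exact h5.trans hgF.le
  rw [hF, h, ← hx] at h4
  have h6 : ((f z : ℂ) - (ψ₁ z + starRingEnd ℂ (ψ₂ z))).re = -((ψ₁ z + ψ₂ z).re - f z) := by
    simp only [Complex.sub_re, Complex.add_re, Complex.conj_re, Complex.ofReal_re]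
    ring
  have h7 := (Complex.abs_re_le_norm _).trans h4
  rw [h6, abs_neg] at h7
  exact h7

/-- the Poisson kernel of the circle of centre `c` through `z` -/
noncomputable def pk (c w z : ℂ) : ℝ := ((z - c + (w - c)) / ((z - c) - (w - c))).re

theorem pk_cont {c w : ℂ} {R : ℝ} (hw : w ∈ ball c R) : ContinuousOn (pk c w) (sphere c R) := by
  unfold pk
  refine Complex.continuous_re.comp_continuousOn (ContinuousOn.div (by fun_prop) (by fun_prop) ?_)
  intro z hz h
  have h1 : z = w := by linear_combination h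
  rw [h1] at hz
  rw [mem_sphere] at hz
  rw [mem_ball] at hw
  linarith

theorem pk_pos {c w z : ℂ} {R : ℝ} (hw : w ∈ ball c R) (hz : z ∈ sphere c R) : 0 < pk c w z := by
  have h1 := le_re_herglotzRieszKernel hz hw
  refine lt_of_lt_of_le ?_ h1
  have h2 : ‖w - c‖ < R := mem_ball_iff_norm.1 hw
  have h3 := norm_nonneg (w - c)
  exact div_pos (by linarith) (by linarith)

variable {E : Type*} [NormedAddCommGroup E] [NormedSpace ℂ E]

/-- **The Poisson integral majorises `log ‖F‖`.** -/
theorem poisson_jensen {F : ℂ → E} {c : ℂ} {R : ℝ} (hR : 0 < R) (hF : DiffContOnCl ℂ F (ball c R)) (h0 : ∀ z ∈ sphere c R, F z ≠ 0)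
    {w : ℂ} (hw : w ∈ ball c R) (hFw : F w ≠ 0) :
    Real.log ‖F w‖ ≤ circleAverage (fun z => pk c w z * Real.log ‖F z‖) c R := by
  have hcl : closure (ball c R) = closedBall c R := closure_ball c hR.ne'
  have hfr : frontier (ball c R) = sphere c R := frontier_ball c hR.ne'
  have hRabs : |R| = R := abs_of_pos hR
  have hFc : ContinuousOn F (sphere c R) := hF.continuousOn.mono (by rw [hcl]; exact sphere_subset_closedBall)
  have huc : ContinuousOn (fun z => Real.log ‖F z‖) (sphere c R) := ContinuousOn.log hFc.norm fun z hz => norm_ne_zero_iff.2 (h0 z hz)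
  have hpk := pk_cont hw
  refine le_of_forall_pos_le_add fun δ hδ => ?_
  -- the total mass of the kernel
  have hone : circleAverage (fun z => pk c w z * (1 : ℝ)) c R = 1 := by
    have h1 := (diffContOnCl_const (c := (1 : ℂ))).circleAverage_re_herglotzRieszKernel_smul' (E := ℂ) (c := c) (R := R) hw
    have h2 : CircleIntegrable (fun z => ((z - c + (w - c)) / ((z - c) - (w - c))).re • (1 : ℂ)) c R := by
      refine ContinuousOn.circleIntegrable' ?_
      rw [hRabs]
      exact (Complex.continuous_ofReal.comp_continuousOn hpk).congr fun z _ => by simp [pk]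
    have h3 := Complex.reCLM.circleAverage_comp_comm h2
    rw [h1] at h3
    simp only [Complex.reCLM_apply, Complex.one_re] at h3
    refine Eq.trans ?_ h3
    congr 1
    funext z
    simp [pk]
  obtain ⟨ψ, hψ, hψu⟩ := approx_re hR huc (half_pos hδ)
  -- the maximum principle
  have hmax : ‖Complex.exp (-ψ w) • F w‖ ≤ Real.exp (δ / 2) := by
    have hd : DiffContOnCl ℂ (fun z => Complex.exp (-ψ z) • F z) (ball c R) := by
      have h1 : Differentiable ℂ fun z => Complex.exp (-ψ z) := by fun_prop
      exact h1.diffContOnCl.smul hF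
    refine Complex.norm_le_of_forall_mem_frontier_norm_le isBounded_ball hd ?_ (subset_closure hw)
    intro z hz
    rw [hfr] at hz
    have h1 := abs_le.1 (hψu z hz)
    have h2 : 0 < ‖F z‖ := norm_pos_iff.2 (h0 z hz)
    rw [norm_smul, Complex.norm_exp, Complex.neg_re]
    calc Real.exp (-(ψ z).re) * ‖F z‖ = Real.exp (-(ψ z).re) * Real.exp (Real.log ‖F z‖) := by rw [Real.exp_log h2]
      _ = Real.exp (-(ψ z).re + Real.log ‖F z‖) := by rw [← Real.exp_add]
      _ ≤ Real.exp (δ / 2) := Real.exp_le_exp.2 (by linarith [h1.1])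
  have hle : Real.log ‖F w‖ ≤ (ψ w).re + δ / 2 := by
    have h2 : 0 < ‖F w‖ := norm_pos_iff.2 hFw
    rw [norm_smul, Complex.norm_exp, Complex.neg_re] at hmax
    have h3 := Real.log_le_log (by positivity) hmax
    rw [Real.log_mul (by positivity) h2.ne', Real.log_exp, Real.log_exp] at h3
    linarith
  -- the Poisson formula for `ψ`
  have hpois : (ψ w).re = circleAverage (fun z => pk c w z * (ψ z).re) c R := by
    have h1 := hψ.diffContOnCl.circleAverage_re_herglotzRieszKernel_smul' (c := c) (R := R) hw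
    have h2 : CircleIntegrable (fun z => ((z - c + (w - c)) / ((z - c) - (w - c))).re • ψ z) c R := by
      refine ContinuousOn.circleIntegrable' ?_
      rw [hRabs]
      exact hpk.smul hψ.continuous.continuousOn
    have h3 := Complex.reCLM.circleAverage_comp_comm h2
    rw [h1] at h3
    simp only [Complex.reCLM_apply] at h3
    rw [← h3]
    congr 1
    funext z
    simp [pk]
  have hmono : circleAverage (fun z => pk c w z * (ψ z).re) c R ≤ circleAverage (fun z => pk c w z * Real.log ‖F z‖ + δ / 2 * (pk c w z * 1)) c R := by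
    refine circleAverage_mono ?_ ?_ ?_
    · refine ContinuousOn.circleIntegrable' ?_
      rw [hRabs]
      exact hpk.mul (Complex.continuous_re.comp_continuousOn hψ.continuous.continuousOn)
    · refine ContinuousOn.circleIntegrable' ?_
      rw [hRabs]
      exact (hpk.mul huc).add ((hpk.mul continuousOn_const).const_mul _)
    · intro z hz
      rw [hRabs] at hz
      have h1 := abs_le.1 (hψu z hz)
      have h2 := pk_pos hw hz
      nlinarith [h1.2]
  have hadd : circleAverage (fun z => pk c w z * Real.log ‖F z‖ + δ / 2 * (pk c w z * 1)) c R =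
      circleAverage (fun z => pk c w z * Real.log ‖F z‖) c R + δ / 2 * 1 := by
    have h1 : CircleIntegrable (fun z => pk c w z * Real.log ‖F z‖) c R := by
      refine ContinuousOn.circleIntegrable' ?_
      rw [hRabs]
      exact hpk.mul huc
    have h2 : CircleIntegrable (fun z => δ / 2 * (pk c w z * 1)) c R := by
      refine ContinuousOn.circleIntegrable' ?_
      rw [hRabs]
      exact (hpk.mul continuousOn_const).const_mul _
    have h3 := circleAverage_add h1 h2
    have h4 : circleAverage (fun z => δ / 2 * (pk c w z * 1)) c R = δ / 2 * 1 := by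
      have h5 := circleAverage_smul (a := δ / 2) (f := fun z => pk c w z * (1 : ℝ)) (c := c) (R := R)
      rw [hone] at h5
      exact h5
    rw [← h4]
    exact h3
  rw [hpois] at hle
  linarith

end Pool.Agent.H56.G3
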