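import Pool.Agent.H56.G3.Pc6
import Pool.Agent.G3.P.Ahl
import Pool.Agent.G3.R.RDefs
import Pool.Agent.G3.Z.CDefs

/-!
# G3 Pc7: extension over the puncture
-/

set_option autoImplicit false

open Topology Filter Metric

namespace Pool.Agent.H56.G3

open Pool.Agent.H36.BP (EN fs wd Sub Curve)
open Pool.Agent.H14.PP (IsCone CurveAt Tan)
open Pool.Agent.AD (Vd TorusMapV DiscreteSub deriv_eq_of_mem)
open Pool.Agent.TG (TMap Lat Gd)
open Pool.Agent.G3 (Cv PS QD Ok Lam Lq Np pf TT)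

variable {N k : ℕ} {X : Set (EN N)} {Λ : AddSubgroup (Vd (k + 1))} {u : EN N → Vd (k + 1)} {D : Set (Vd (k + 1))} {Q : EN N → ℂ} {d : ℕ}
  {p : EN N → EN N → ℝ} {m : ℕ} {C C₁ : ℝ}

/-- the limit theorem for sequences -/
theorem lct_seq (h : Pool.Agent.G3.LCT X Λ u Q d p m) : LCT X Λ u Q d p m := by
  intro a F hh E ha h1 h2 h3 h4 h5
  have hle : ((Filter.hyperfilter ℕ : Ultrafilter ℕ) : Filter ℕ) ≤ atTop := by
    rw [← Nat.cofinite_eq_atTop]
    exact Filter.hyperfilter_le_cofinite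
  refine h (Filter.hyperfilter ℕ) a F hh E ha (fun r => (h1 r).filter_mono hle) (Eventually.of_forall h2) (fun r ε hε => (h3 r ε hε).filter_mono hle)
    (fun r => (h4 r).filter_mono hle) (fun r ε hε => ?_)
  filter_upwards [(h5 r ε hε).filter_mono hle] with n hn z hz hok
  have := hn z hz hok
  linarith

theorem exp_mem' {w : ℂ} (h : w.re < 0) : Complex.exp w ∈ ball (0 : ℂ) 1 \ {0} := by
  refine ⟨?_, Complex.exp_ne_zero w⟩
  rw [mem_ball_zero_iff, Complex.norm_exp, Real.exp_lt_one_iff]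
  exact h

/-- a curve without good points is constant in the projective space -/
theorem ext_const (hX : IsCone X) (hD : IsClosed D) (hps : PS X Λ u D p m C) (hqd : QD X Λ u D Q d) {F₀ : ℂ → EN N}
    (hF₀ : Curve X (ball 0 1 \ {0}) F₀) {h : ℂ → Vd (k + 1)} (hc : Cv X Λ u {w | w.re < 0} (fun w => F₀ (Complex.exp w)) h)
    (h0 : ∃ z ∈ ball (0 : ℂ) 1 \ {0}, Q (F₀ z) ≠ 0) (hok : ¬ ∃ w ∈ {w : ℂ | w.re < 0}, Ok Q p (fun w => F₀ (Complex.exp w)) w) :
    ∃ A : ℂ → EN N, AnalyticAt ℂ A 0 ∧ A 0 ≠ 0 ∧ ∀ᶠ z in 𝓝[≠] (0 : ℂ), ∃ k : ℂ, k ≠ 0 ∧ A z = k • F₀ z := by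
  have hUo : IsOpen (ball (0 : ℂ) 1 \ {0}) := isOpen_ball.sdiff isClosed_singleton
  have hne : ∀ z ∈ ball (0 : ℂ) 1 \ {0}, F₀ z ≠ 0 := fun z hz h0 => hX.zero_notMem (h0 ▸ hF₀.2 z hz)
  -- good points of the punctured disc
  have hfs0 : ∀ z ∈ ball (0 : ℂ) 1 \ {0}, Q (F₀ z) ≠ 0 → fs (F₀ z) (deriv F₀ z) = 0 := by
    intro z hz hQ
    have hz0 : z ≠ 0 := hz.2
    have hzn : 0 < ‖z‖ := norm_pos_iff.2 hz0
    have hre : (Complex.log z).re < 0 := by
      rw [Complex.log_re]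
      exact Real.log_neg hzn (by simpa using hz.1)
    obtain ⟨U, h₁, hU1, hU2, hU3, hU4, -⟩ := local_cv hF₀ hc hz
    have hy : h₁ z ∉ D := fun hyD => hQ (hqd.zero _ (hF₀.2 z hz) _ hyD (hU4.lift z hU2))
    obtain ⟨δ, hδ, hδ'⟩ : ∃ δ : ℝ, 0 < δ ∧ h₁ z ∈ Gd D δ := by
      have h1 : Dᶜ ∈ 𝓝 (h₁ z) := hD.isOpen_compl.mem_nhds hy
      obtain ⟨δ, hδ, hδ'⟩ := Metric.mem_nhds_iff.1 h1
      refine ⟨δ, hδ, fun b hb => ?_⟩
      by_contra hcon
      push Not at hcon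
      have h2 : b ∈ ball (h₁ z) δ := by
        rw [mem_ball_iff_norm, norm_sub_rev]
        exact hcon
      exact hδ' h2 hb
    obtain ⟨c, hc0, hc1⟩ := hps.ge_fs δ hδ
    have h3 := hc1 (h₁ z) hδ' (F₀ z) (hF₀.2 z hz) (hU4.lift z hU2) (deriv F₀ z) (hU4.tan hU1 hU2)
    have h4 : p (F₀ z) (deriv F₀ z) ≤ 0 := by
      by_contra hcon
      push Not at hcon
      apply hok
      refine ⟨Complex.log z, hre, ?_, ?_⟩
      · simp only [Complex.exp_log hz0]
        exact hQ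
      · have h5 := pf_comp hU1 hU4 hps (φ := Complex.exp) (z := Complex.log z) Complex.differentiableAt_exp (by rw [Complex.exp_log hz0]; exact hU2)
        rw [h5, Complex.deriv_exp, Complex.exp_log hz0]
        exact mul_pos (pow_pos hzn m) hcon
    have h6 : 0 ≤ fs (F₀ z) (deriv F₀ z) := by
      unfold fs wd
      positivity
    by_contra h7
    have h8 : 0 < fs (F₀ z) (deriv F₀ z) ^ m := pow_pos (lt_of_le_of_ne h6 (Ne.symm h7)) m
    nlinarith
  -- all points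
  have hfs : ∀ z ∈ ball (0 : ℂ) 1 \ {0}, fs (F₀ z) (deriv F₀ z) = 0 := by
    intro z hz
    have hq : DifferentiableOn ℂ (fun z => Q (F₀ z)) (ball 0 1 \ {0}) := hqd.diff.comp_differentiableOn hF₀.1
    have ha : AnalyticOnNhd ℂ (fun z => Q (F₀ z)) (ball 0 1 \ {0}) := hq.analyticOnNhd hUo
    obtain ⟨z₁, hz₁, hQ₁⟩ := h0
    have h1 : ∀ᶠ w in 𝓝[≠] z, Q (F₀ w) ≠ 0 := by
      rcases (ha z hz).eventually_eq_zero_or_eventually_ne_zero with h2 | h2
      · exact absurd (ha.eqOn_zero_of_preconnected_of_eventuallyEq_zero Pool.Agent.H36.BP.preconnected_puncturedDisc hz h2 hz₁) hQ₁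
      · exact h2
    have h3 : ∀ᶠ w in 𝓝[≠] z, fs (F₀ w) (deriv F₀ w) = 0 := by
      filter_upwards [h1, mem_nhdsWithin_of_mem_nhds (hUo.mem_nhds hz)] with w hw hw2
      exact hfs0 w hw2 hw
    have hcF : ContinuousAt F₀ z := hF₀.1.continuousOn.continuousAt (hUo.mem_nhds hz)
    have hcF' : ContinuousAt (deriv F₀) z := (hF₀.1.deriv hUo).continuousOn.continuousAt (hUo.mem_nhds hz)
    have h4 : ContinuousAt (fun w => fs (F₀ w) (deriv F₀ w)) z := by
      unfold fs wd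
      refine ContinuousAt.div ?_ (hcF.norm.pow 2) (pow_ne_zero 2 (norm_ne_zero_iff.2 (hne z hz)))
      exact Real.continuous_sqrt.continuousAt.comp (((hcF.norm.pow 2).mul (hcF'.norm.pow 2)).sub ((hcF.inner hcF').norm.pow 2))
    have h5 : Tendsto (fun w => fs (F₀ w) (deriv F₀ w)) (𝓝[≠] z) (𝓝 0) :=
      tendsto_const_nhds.congr' (h3.mono fun w hw => hw.symm)
    exact tendsto_nhds_unique (h4.tendsto.mono_left nhdsWithin_le_nhds) h5
  refine Pool.Agent.AD.F.removable_of_small hF₀.1 hne fun δ hδ => ⟨1, one_pos, fun z hz1 hz2 => ?_⟩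
  rw [hfs z ⟨by simpa using hz2, norm_pos_iff.1 hz1⟩, mul_zero]
  exact hδ.le

/-- **Extension over the puncture.** -/
theorem picard (hX : IsCone X) (hT : TMap X Λ u) (hL : Lat Λ) (hD : IsClosed D) (hps : PS X Λ u D p m C) (hqd : QD X Λ u D Q d)
    (hroot : RootLog X Λ u Q d p m C₁) (hlct : Pool.Agent.G3.LCT X Λ u Q d p m) {F₀ : ℂ → EN N}
    (hF₀ : Curve X (ball 0 1 \ {0}) F₀) (h0 : ∃ z ∈ ball (0 : ℂ) 1 \ {0}, Q (F₀ z) ≠ 0) :
    ∃ A : ℂ → EN N, AnalyticAt ℂ A 0 ∧ A 0 ≠ 0 ∧ ∀ᶠ z in 𝓝[≠] (0 : ℂ), ∃ k : ℂ, k ≠ 0 ∧ A z = k • F₀ z := by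
  -- the constant may be assumed nonnegative
  obtain ⟨C₁', hC₁', hroot'⟩ : ∃ C₁' : ℝ, 0 ≤ C₁' ∧ RootLog X Λ u Q d p m C₁' := by
    refine ⟨max C₁ 0, le_max_right _ _, ?_⟩
    intro w r F h hr hF hok
    obtain ⟨h1, h2⟩ := hroot w r F h hr hF hok
    have h3 := one_le_E (p := p) (m := m) (h := h) hX hqd (hF.mem w (mem_ball_self hr)) hok.1
    have h4 : C₁ * (1 + Lam Q d p m F h w) ≤ max C₁ 0 * (1 + Lam Q d p m F h w) := mul_le_mul_of_nonneg_right (le_max_left _ _) (by linarith)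
    exact ⟨h1.trans h4, h2.trans h4⟩
  obtain ⟨C₂, hC₂, hahl⟩ := Pool.Agent.G3.ahl hps
  have hLd : DiscreteSub Λ := hL.disc
  have hUo := isOpen_half 0
  have hdF : DifferentiableOn ℂ (fun w => F₀ (Complex.exp w)) {w | w.re < 0} :=
    hF₀.1.comp Complex.differentiable_exp.differentiableOn fun w hw => exp_mem' hw
  have hmF : ∀ z ∈ {w : ℂ | w.re < 0}, F₀ (Complex.exp z) ∈ X := fun z hz => hF₀.2 _ (exp_mem' hz)
  have hm1 : (-1 : ℂ) ∈ {w : ℂ | w.re < 0} := by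
    show (-1 : ℂ).re < 0
    rw [Complex.neg_re, Complex.one_re]
    norm_num
  obtain ⟨h, hh, hhu⟩ := lift_conn hX ⟨hT.smul, hT.loc⟩ hLd hUo (convex_half 0).isPreconnected (fun ψ hψ => half_primitive hψ) hdF hmF hm1
  have hc : Cv X Λ u {w | w.re < 0} (fun w => F₀ (Complex.exp w)) h := ⟨hdF, hh, hmF, hhu⟩
  by_cases hok : ∃ w ∈ {w : ℂ | w.re < 0}, Ok Q p (fun w => F₀ (Complex.exp w)) w
  swap
  · exact ext_const hX hD hps hqd hF₀ hc h0 hok
  have hper : ∀ w : ℂ, F₀ (Complex.exp (w + 2 * Real.pi * Complex.I)) = F₀ (Complex.exp w) := fun w => by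
    rw [Complex.exp_periodic w]
  obtain ⟨T, K, q, hT0, -, hK⟩ := growth hX hps hqd hC₁' hroot' hc hper hok
  -- the derivative of the lift is periodic
  have hdper : ∀ w : ℂ, w.re < T → deriv h (w + 2 * Real.pi * Complex.I) = deriv h w := by
    intro w hw
    have hre : ∀ w : ℂ, (w + 2 * Real.pi * Complex.I).re = w.re := by
      intro w
      simp
    have hw0 : w.re < 0 := by linarith
    have hw1 : (w + 2 * Real.pi * Complex.I).re < 0 := by rw [hre]; exact hw0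
    have han : AnalyticAt ℂ h w := hh.analyticAt (hUo.mem_nhds hw0)
    have han2 : AnalyticAt ℂ h (w + 2 * Real.pi * Complex.I) := hh.analyticAt (hUo.mem_nhds hw1)
    have han3 : AnalyticAt ℂ (fun z => h (z + 2 * Real.pi * Complex.I)) w :=
      AnalyticAt.comp (g := h) (f := fun z : ℂ => z + 2 * Real.pi * Complex.I) han2 (by fun_prop)
    have h1 := deriv_eq_of_mem hLd han3 han (by
      filter_upwards [hUo.mem_nhds hw0] with z hz
      have hz0 : z.re < 0 := hz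
      have e1 := hhu z hz
      have e2 := hhu (z + 2 * Real.pi * Complex.I) (by show (z + 2 * Real.pi * Complex.I).re < 0; rw [hre]; exact hz0)
      simp only [hper z] at e2
      have e3 := Λ.sub_mem e1 e2
      have e4 : u (F₀ (Complex.exp z)) - h z - (u (F₀ (Complex.exp z)) - h (z + 2 * Real.pi * Complex.I)) = h (z + 2 * Real.pi * Complex.I) - h z := by abel
      rwa [e4] at e3)
    rw [deriv_comp_add_const] at h1
    exact h1
  have hdd : DifferentiableOn ℂ (deriv h) {w | w.re < T} :=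
    (hh.deriv hUo).mono fun w (hw : w.re < T) => by
      show w.re < 0
      linarith
  obtain ⟨G, hG, hhG⟩ := per_ext hdd hdper hK
  have hGd : DifferentiableAt ℂ G 0 := hG.differentiableAt (ball_mem_nhds _ (Real.exp_pos T))
  have hG0 := limit_zero hX hps hqd hC₁' hroot' (lct_seq hlct) hc hok hGd.continuousAt hhG
  exact ext_of_zero hX hps hqd hC₂ hahl hF₀ hc hok hGd hhG hG0

end Pool.Agent.H56.G3
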