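import Pool.Agent.H56.G3.AreaB
import Pool.Agent.H36.BP.Defs

/-!
# G3 Area: the area of a disc and the characteristic, for curves in the cone
-/

set_option autoImplicit false

open Set MeasureTheory Metric Real
open Pool.Agent.H36.BP (EN fs wd)

namespace Pool.Agent.H56.G3

variable {N : ℕ}

theorem fs_sq (x v : EN N) : fs x v ^ 2 = fsq x v := by
  unfold fs wd fsq
  have h1 := norm_inner_le_norm (𝕜 := ℂ) x v
  have h2 : ‖inner ℂ x v‖ ^ 2 ≤ (‖x‖ * ‖v‖) ^ 2 := pow_le_pow_left₀ (norm_nonneg _) h1 2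
  rw [mul_pow] at h2
  rw [div_pow, Real.sq_sqrt (by linarith), ← pow_mul]

/-- **The area of a disc and the characteristic.** -/
theorem area_fs {F : ℂ → EN N} {R : ℝ} (hF : DifferentiableOn ℂ F (ball 0 R)) (h0 : ∀ z ∈ ball (0 : ℂ) R, F z ≠ 0) {r r' : ℝ} (hr : 0 < r)
    (hr' : r ≤ r') (hR : r' < R) :
    2 * (Real.log r' - Real.log r) * (∫ ρ in (0 : ℝ)..r, ρ * circleAverage (fun z => fs (F z) (deriv F z) ^ 2) 0 ρ) ≤
      circleAverage (fun z => Real.log ‖F z‖) 0 r' - Real.log ‖F 0‖ := by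
  have h := area_le hF h0 hr hr' hR
  simp only [fs_sq]
  exact h

end Pool.Agent.H56.G3
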