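import Mathlib

/-!
# G3 AreaA: the logarithm of the norm of a holomorphic vector, first part
-/

set_option autoImplicit false

open Set MeasureTheory Metric Real

namespace Pool.Agent.H56.G3

variable {V : Type*} [NormedAddCommGroup V] [InnerProductSpace ℂ V]

/-- the square of the Fubini-Study length -/
noncomputable def fsq (x v : V) : ℝ := (‖x‖ ^ 2 * ‖v‖ ^ 2 - ‖inner ℂ x v‖ ^ 2) / ‖x‖ ^ 4

theorem fsq_nonneg (x v : V) : 0 ≤ fsq x v := by
  unfold fsq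
  have h1 := norm_inner_le_norm (𝕜 := ℂ) x v
  have h2 : ‖inner ℂ x v‖ ^ 2 ≤ (‖x‖ * ‖v‖) ^ 2 := pow_le_pow_left₀ (norm_nonneg _) h1 2
  rw [mul_pow] at h2
  exact div_nonneg (by linarith) (by positivity)

theorem fsq_smul (x v : V) (a : ℂ) : fsq x (a • v) = ‖a‖ ^ 2 * fsq x v := by
  unfold fsq
  rw [norm_smul, inner_smul_right, norm_mul]
  ring

/-- the logarithmic derivative of the norm -/
noncomputable def lq (G : ℂ → V) (w : ℂ) : ℂ := inner ℂ (G w) (deriv G w) / inner ℂ (G w) (G w)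

theorem lq_norm_le {G : ℂ → V} {w : ℂ} (h : G w ≠ 0) : ‖lq G w‖ ≤ ‖deriv G w‖ / ‖G w‖ := by
  have h0 : 0 < ‖G w‖ := norm_pos_iff.2 h
  unfold lq
  rw [norm_div, inner_self_eq_norm_sq_to_K, norm_pow, div_le_div_iff₀ (by simp only [Complex.coe_algebraMap, Complex.norm_real, norm_norm]; positivity) h0]
  have h1 := norm_inner_le_norm (𝕜 := ℂ) (G w) (deriv G w)
  have h2 : ‖((‖G w‖ : ℝ) : ℂ)‖ = ‖G w‖ := by simp
  calc ‖inner ℂ (G w) (deriv G w)‖ * ‖G w‖ ≤ ‖G w‖ * ‖deriv G w‖ * ‖G w‖ := mul_le_mul_of_nonneg_right h1 h0.le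
    _ = ‖deriv G w‖ * ‖((‖G w‖ : ℝ) : ℂ)‖ ^ 2 := by rw [h2]; ring

/-- the derivative of `log ‖G‖` in the real direction -/
theorem hasDerivAt_log_norm {G : ℂ → V} {x y : ℝ} (hG : DifferentiableAt ℂ G (x + y * Complex.I)) (h : G (x + y * Complex.I) ≠ 0) :
    HasDerivAt (fun x : ℝ => Real.log ‖G (x + y * Complex.I)‖) (lq G (x + y * Complex.I)).re x := by
  have hc : HasDerivAt (fun x : ℝ => (x : ℂ) + y * Complex.I) 1 x := (Complex.ofRealCLM.hasDerivAt (x := x)).add_const _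
  have h1 : HasDerivAt (fun x : ℝ => G (x + y * Complex.I)) (deriv G (x + y * Complex.I)) x := by
    have := HasDerivAt.scomp x (h := fun x : ℝ => (x : ℂ) + y * Complex.I) hG.hasDerivAt hc
    rwa [one_smul] at this
  obtain ⟨g, hg⟩ : ∃ g : V, g = G (x + y * Complex.I) := ⟨_, rfl⟩
  obtain ⟨g', hg'⟩ : ∃ g' : V, g' = deriv G (x + y * Complex.I) := ⟨_, rfl⟩
  have h2 : HasDerivAt (fun x : ℝ => (inner ℂ (G (x + y * Complex.I)) (G (x + y * Complex.I)) : ℂ))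
      (inner ℂ g g' + inner ℂ g' g) x := by
    have := HasDerivAt.inner ℂ h1 h1
    rwa [← hg, ← hg'] at this
  have h3 : HasDerivAt (fun x : ℝ => ‖G (x + y * Complex.I)‖ ^ 2) (2 * (inner ℂ g g' : ℂ).re) x := by
    have h4 := (Complex.reCLM.hasFDerivAt.comp_hasDerivAt x h2)
    have h5 : (Complex.reCLM (inner ℂ g g' + inner ℂ g' g)) = 2 * (inner ℂ g g' : ℂ).re := by
      rw [Complex.reCLM_apply, Complex.add_re, ← inner_conj_symm g g', Complex.conj_re]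
      ring
    rw [h5] at h4
    refine h4.congr_of_eventuallyEq (Filter.Eventually.of_forall fun t => ?_)
    simp only [Function.comp_apply, Complex.reCLM_apply]
    rw [inner_self_eq_norm_sq_to_K]
    norm_cast
  have hg0 : g ≠ 0 := by rw [hg]; exact h
  have hn : 0 < ‖g‖ := norm_pos_iff.2 hg0
  have h6 := h3.log (by rw [← hg]; positivity)
  have h7 : HasDerivAt (fun x : ℝ => Real.log ‖G (x + y * Complex.I)‖) (1 / 2 * (2 * (inner ℂ g g' : ℂ).re / ‖g‖ ^ 2)) x := by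
    rw [← hg] at h6
    refine (h6.const_mul (1 / 2)).congr_of_eventuallyEq (Filter.Eventually.of_forall fun t => ?_)
    simp only
    rw [Real.log_pow]
    push_cast
    ring
  have h8 : (lq G (x + y * Complex.I)).re = 1 / 2 * (2 * (inner ℂ g g' : ℂ).re / ‖g‖ ^ 2) := by
    unfold lq
    rw [← hg, ← hg', inner_self_eq_norm_sq_to_K]
    have h9 : ((‖g‖ : ℂ)) ^ 2 = ((‖g‖ ^ 2 : ℝ) : ℂ) := by push_cast; rfl
    show (inner ℂ g g' / ((‖g‖ : ℂ)) ^ 2 : ℂ).re = _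
    rw [h9, Complex.div_ofReal_re]
    ring
  rw [h8]
  exact h7

private lemma line_deriv {G : ℂ → V} {w : ℂ} (hG : DifferentiableAt ℂ G w) (hG' : DifferentiableAt ℂ (deriv G) w) (h : G w ≠ 0) (v : ℂ) :
    HasDerivAt (fun t : ℝ => lq G (w + t * v))
      (((inner ℂ (G w) (v • deriv (deriv G) w) + inner ℂ (v • deriv G w) (deriv G w)) * inner ℂ (G w) (G w) -
        inner ℂ (G w) (deriv G w) * (inner ℂ (G w) (v • deriv G w) + inner ℂ (v • deriv G w) (G w))) / (inner ℂ (G w) (G w) : ℂ) ^ 2) 0 := by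
  have hc : HasDerivAt (fun t : ℝ => w + (t : ℂ) * v) v (0 : ℝ) := by
    have := ((Complex.ofRealCLM.hasDerivAt (x := (0 : ℝ))).mul_const v).const_add w
    simpa using this
  have h0 : w + ((0 : ℝ) : ℂ) * v = w := by simp
  have h1 : HasDerivAt (fun t : ℝ => G (w + t * v)) (v • deriv G w) (0 : ℝ) := by
    have h2 : HasDerivAt G (deriv G w) (w + ((0 : ℝ) : ℂ) * v) := by rw [h0]; exact hG.hasDerivAt
    exact HasDerivAt.scomp (0 : ℝ) h2 hc
  have h2 : HasDerivAt (fun t : ℝ => deriv G (w + t * v)) (v • deriv (deriv G) w) (0 : ℝ) := by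
    have h2 : HasDerivAt (deriv G) (deriv (deriv G) w) (w + ((0 : ℝ) : ℂ) * v) := by rw [h0]; exact hG'.hasDerivAt
    exact HasDerivAt.scomp (0 : ℝ) h2 hc
  have h3 := HasDerivAt.inner ℂ h1 h2
  have h4 := HasDerivAt.inner ℂ h1 h1
  rw [h0] at h3 h4
  have hne : (inner ℂ (G (w + ((0 : ℝ) : ℂ) * v)) (G (w + ((0 : ℝ) : ℂ) * v)) : ℂ) ≠ 0 := by
    rw [h0, Ne, inner_self_eq_zero]
    exact h
  have h5 := h3.div h4 hne
  rw [h0] at h5
  exact h5

/-- the real derivative of `lq G` and its antiholomorphic part -/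
theorem lq_hasFDerivAt {G : ℂ → V} {w : ℂ} (hG : DifferentiableAt ℂ G w) (hG' : DifferentiableAt ℂ (deriv G) w) (h : G w ≠ 0) :
    DifferentiableAt ℝ (lq G) w ∧ Complex.I • (fderiv ℝ (lq G) w) 1 - (fderiv ℝ (lq G) w) Complex.I =
      Complex.I * ((2 * fsq (G w) (deriv G w) : ℝ) : ℂ) := by
  have hne : (inner ℂ (G w) (G w) : ℂ) ≠ 0 := by
    rw [Ne, inner_self_eq_zero]
    exact h
  have hd : DifferentiableAt ℝ (lq G) w := by
    unfold lq
    have h1 : DifferentiableAt ℝ G w := hG.restrictScalars ℝ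
    have h2 : DifferentiableAt ℝ (deriv G) w := hG'.restrictScalars ℝ
    have h3 : DifferentiableAt ℝ (fun w => (inner ℂ (G w) (deriv G w) : ℂ)) w := h1.inner ℂ h2
    have h4 : DifferentiableAt ℝ (fun w => (inner ℂ (G w) (G w) : ℂ)) w := h1.inner ℂ h1
    have h5 : DifferentiableAt ℝ (fun w => (inner ℂ (G w) (G w) : ℂ)⁻¹) w := (differentiableAt_inv hne).comp w h4
    simp only [div_eq_mul_inv]
    exact h3.mul h5
  refine ⟨hd, ?_⟩
  have hline : ∀ v : ℂ, fderiv ℝ (lq G) w v =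
      (((inner ℂ (G w) (v • deriv (deriv G) w) + inner ℂ (v • deriv G w) (deriv G w)) * inner ℂ (G w) (G w) -
        inner ℂ (G w) (deriv G w) * (inner ℂ (G w) (v • deriv G w) + inner ℂ (v • deriv G w) (G w))) / (inner ℂ (G w) (G w) : ℂ) ^ 2) := by
    intro v
    have hc : HasDerivAt (fun t : ℝ => w + (t : ℂ) * v) v (0 : ℝ) := by
      have := ((Complex.ofRealCLM.hasDerivAt (x := (0 : ℝ))).mul_const v).const_add w
      simpa using this
    have h0 : w + ((0 : ℝ) : ℂ) * v = w := by simp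
    have h1 : HasDerivAt (fun t : ℝ => lq G (w + t * v)) (fderiv ℝ (lq G) w v) (0 : ℝ) := by
      have h2 : HasFDerivAt (lq G) (fderiv ℝ (lq G) w) (w + ((0 : ℝ) : ℂ) * v) := by rw [h0]; exact hd.hasFDerivAt
      exact h2.comp_hasDerivAt (0 : ℝ) hc
    exact h1.unique (line_deriv hG hG' h v)
  rw [hline, hline]
  obtain ⟨g, hg⟩ : ∃ g : V, g = G w := ⟨_, rfl⟩
  obtain ⟨a, ha⟩ : ∃ a : V, a = deriv G w := ⟨_, rfl⟩
  obtain ⟨b, hb⟩ : ∃ b : V, b = deriv (deriv G) w := ⟨_, rfl⟩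
  rw [← hg] at h
  rw [← hg, ← ha, ← hb]
  have hn : 0 < ‖g‖ := norm_pos_iff.2 h
  have e1 : (inner ℂ g g : ℂ) = ((‖g‖ ^ 2 : ℝ) : ℂ) := by rw [inner_self_eq_norm_sq_to_K]; norm_cast
  have e2 : (inner ℂ a a : ℂ) = ((‖a‖ ^ 2 : ℝ) : ℂ) := by rw [inner_self_eq_norm_sq_to_K]; norm_cast
  have e3 : (inner ℂ g a : ℂ) * inner ℂ a g = ((‖(inner ℂ g a : ℂ)‖ ^ 2 : ℝ) : ℂ) := by
    rw [← inner_conj_symm a g, Complex.mul_conj, Complex.normSq_eq_norm_sq]
  simp only [inner_smul_left, inner_smul_right, one_smul, Complex.conj_I, smul_eq_mul]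
  have hn2 : ((‖g‖ ^ 2 : ℝ) : ℂ) ≠ 0 := by
    rw [Ne, Complex.ofReal_eq_zero]
    positivity
  have e4 : ((2 * fsq g a : ℝ) : ℂ) = 2 * (((‖a‖ ^ 2 : ℝ) : ℂ) * ((‖g‖ ^ 2 : ℝ) : ℂ) - (inner ℂ g a : ℂ) * inner ℂ a g) / ((‖g‖ ^ 2 : ℝ) : ℂ) ^ 2 := by
    rw [e3]
    unfold fsq
    push_cast
    ring
  rw [e4, e1, e2]
  field_simp
  ring_nf

end Pool.Agent.H56.G3
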