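import Pool.Agent.H56.G3.AreaA

/-!
# G3 AreaB: the mean of `log ‖F‖` over circles and the Fubini-Study length of `F'`
-/

set_option autoImplicit false
set_option linter.unusedSectionVars false

open Set MeasureTheory Metric Real Filter Topology
open scoped Interval

namespace Pool.Agent.H56.G3

variable {V : Type*} [NormedAddCommGroup V] [InnerProductSpace ℂ V] [CompleteSpace V]

/-- the half plane `re w < x₀` -/
private def HL (x₀ : ℝ) : Set ℂ := {w | w.re < x₀}

private lemma isOpen_HL (x₀ : ℝ) : IsOpen (HL x₀) := isOpen_lt Complex.continuous_re continuous_const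

section plane

variable {G : ℂ → V} {x₀ : ℝ}

private lemma G'_diff (hG : DifferentiableOn ℂ G (HL x₀)) : DifferentiableOn ℂ (deriv G) (HL x₀) := hG.deriv (isOpen_HL x₀)

private lemma lq_cont (hG : DifferentiableOn ℂ G (HL x₀)) (h0 : ∀ w ∈ HL x₀, G w ≠ 0) : ContinuousOn (lq G) (HL x₀) := by
  intro w hw
  exact ((lq_hasFDerivAt (hG.differentiableAt ((isOpen_HL x₀).mem_nhds hw)) ((G'_diff hG).differentiableAt ((isOpen_HL x₀).mem_nhds hw))
    (h0 w hw)).1.continuousAt).continuousWithinAt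

private lemma fsq_cont (hG : DifferentiableOn ℂ G (HL x₀)) (h0 : ∀ w ∈ HL x₀, G w ≠ 0) :
    ContinuousOn (fun w => fsq (G w) (deriv G w)) (HL x₀) := by
  have h1 : ContinuousOn G (HL x₀) := hG.continuousOn
  have h2 : ContinuousOn (deriv G) (HL x₀) := (G'_diff hG).continuousOn
  unfold fsq
  refine ContinuousOn.div ?_ (h1.norm.pow 4) fun w hw => ?_
  · exact ((h1.norm.pow 2).mul (h2.norm.pow 2)).sub ((h1.inner h2).norm.pow 2)
  · have := norm_pos_iff.2 (h0 w hw)
    positivity

private lemma mem_HL {x y : ℝ} (h : x < x₀) : (x : ℂ) + y * Complex.I ∈ HL x₀ := by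
  show ((x : ℂ) + y * Complex.I).re < x₀
  simpa using h

private lemma line_cont {E : Type*} [TopologicalSpace E] {f : ℂ → E} (hf : ContinuousOn f (HL x₀)) {x : ℝ} (h : x < x₀) :
    Continuous fun y : ℝ => f (x + y * Complex.I) := by
  refine hf.comp_continuous (by fun_prop) fun y => mem_HL h

/-- first integration -/
private lemma int_one (hG : DifferentiableOn ℂ G (HL x₀)) (h0 : ∀ w ∈ HL x₀, G w ≠ 0)
    (hper : ∀ w : ℂ, lq G (w + 2 * π * Complex.I) = lq G w) {x₁ x₂ : ℝ} (h12 : x₁ ≤ x₂) (h2 : x₂ < x₀) :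
    (∫ y in (0 : ℝ)..2 * π, (lq G (x₂ + y * Complex.I)).re) - (∫ y in (0 : ℝ)..2 * π, (lq G (x₁ + y * Complex.I)).re) =
      ∫ x in x₁..x₂, ∫ y in (0 : ℝ)..2 * π, 2 * fsq (G (x + y * Complex.I)) (deriv G (x + y * Complex.I)) := by
  obtain ⟨z, hz⟩ : ∃ z : ℂ, z = (x₁ : ℂ) + (0 : ℝ) * Complex.I := ⟨_, rfl⟩
  obtain ⟨w, hw⟩ : ∃ w : ℂ, w = (x₂ : ℂ) + (2 * π : ℝ) * Complex.I := ⟨_, rfl⟩
  have hzre : z.re = x₁ := by rw [hz]; simp
  have hzim : z.im = 0 := by rw [hz]; simp
  have hwre : w.re = x₂ := by rw [hw, Complex.add_re, Complex.re_ofReal_mul, Complex.I_re, mul_zero, add_zero, Complex.ofReal_re]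
  have hwim : w.im = 2 * π := by rw [hw, Complex.add_im, Complex.im_ofReal_mul, Complex.I_im, mul_one, Complex.ofReal_im, zero_add]
  have hsub : ([[z.re, w.re]] ×ℂ [[z.im, w.im]]) ⊆ HL x₀ := by
    intro p hp
    rw [Complex.mem_reProdIm, hzre, hwre, uIcc_of_le h12] at hp
    exact hp.1.2.trans_lt h2
  have hmem : ∀ p ∈ HL x₀, DifferentiableAt ℝ (lq G) p ∧ Complex.I • (fderiv ℝ (lq G) p) 1 - (fderiv ℝ (lq G) p) Complex.I =
      Complex.I * ((2 * fsq (G p) (deriv G p) : ℝ) : ℂ) := fun p hp =>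
    lq_hasFDerivAt (hG.differentiableAt ((isOpen_HL x₀).mem_nhds hp)) ((G'_diff hG).differentiableAt ((isOpen_HL x₀).mem_nhds hp)) (h0 p hp)
  have hcont : ContinuousOn (fun p => Complex.I • (fderiv ℝ (lq G) p) 1 - (fderiv ℝ (lq G) p) Complex.I) (HL x₀) := by
    have h3 : ContinuousOn (fun p => Complex.I * ((2 * fsq (G p) (deriv G p) : ℝ) : ℂ)) (HL x₀) :=
      continuousOn_const.mul (Complex.continuous_ofReal.comp_continuousOn (continuousOn_const.mul (fsq_cont hG h0)))
    exact h3.congr fun p hp => (hmem p hp).2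
  have hcomp : IsCompact ([[z.re, w.re]] ×ℂ [[z.im, w.im]]) := by
    exact isCompact_uIcc.reProdIm isCompact_uIcc
  have hmain := Complex.integral_boundary_rect_of_differentiableOn_real (lq G) z w
    (fun p hp => ((hmem p (hsub hp)).1).differentiableWithinAt) ((hcont.mono hsub).integrableOn_compact hcomp)
  rw [hzre, hzim, hwre, hwim] at hmain
  have hbt : ∀ x : ℝ, lq G (x + ((2 * π : ℝ) : ℂ) * Complex.I) = lq G (x + ((0 : ℝ) : ℂ) * Complex.I) := by
    intro x
    have h3 := hper (x + ((0 : ℝ) : ℂ) * Complex.I)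
    rw [← h3]
    congr 1
    push_cast
    ring
  simp only [hbt, sub_self, zero_add] at hmain
  rw [← smul_sub] at hmain
  -- the right side
  have hR : ∫ x in x₁..x₂, ∫ y in (0 : ℝ)..2 * π, Complex.I • (fderiv ℝ (lq G) (x + y * Complex.I)) 1 - (fderiv ℝ (lq G) (x + y * Complex.I)) Complex.I =
      Complex.I • ((∫ x in x₁..x₂, ∫ y in (0 : ℝ)..2 * π, 2 * fsq (G (x + y * Complex.I)) (deriv G (x + y * Complex.I)) : ℝ) : ℂ) := by
    rw [← intervalIntegral.integral_ofReal, ← intervalIntegral.integral_smul]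
    refine intervalIntegral.integral_congr fun x hx => ?_
    rw [uIcc_of_le h12] at hx
    have hx0 : x < x₀ := hx.2.trans_lt h2
    rw [← intervalIntegral.integral_ofReal, ← intervalIntegral.integral_smul]
    refine intervalIntegral.integral_congr fun y _ => ?_
    rw [(hmem _ (mem_HL hx0)).2, smul_eq_mul]
  rw [hR] at hmain
  have hq := smul_right_injective ℂ Complex.I_ne_zero hmain
  have hre := congrArg Complex.re hq
  rw [Complex.ofReal_re, Complex.sub_re] at hre
  have hri : ∀ x : ℝ, x < x₀ → (∫ y in (0 : ℝ)..2 * π, lq G (x + y * Complex.I)).re = ∫ y in (0 : ℝ)..2 * π, (lq G (x + y * Complex.I)).re := by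
    intro x hx
    have h3 : IntervalIntegrable (fun y : ℝ => lq G (x + y * Complex.I)) volume 0 (2 * π) := (line_cont (lq_cont hG h0) hx).intervalIntegrable _ _
    have h4 := Complex.reCLM.intervalIntegral_comp_comm h3
    exact h4.symm
  rw [hri _ h2, hri _ (h12.trans_lt h2)] at hre
  exact hre

/-- second integration -/
private lemma int_two (hG : DifferentiableOn ℂ G (HL x₀)) (h0 : ∀ w ∈ HL x₀, G w ≠ 0) {x₁ x₂ : ℝ} (h12 : x₁ ≤ x₂) (h2 : x₂ < x₀) :
    (∫ y in (0 : ℝ)..2 * π, Real.log ‖G (x₂ + y * Complex.I)‖) - (∫ y in (0 : ℝ)..2 * π, Real.log ‖G (x₁ + y * Complex.I)‖) =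
      ∫ x in x₁..x₂, ∫ y in (0 : ℝ)..2 * π, (lq G (x + y * Complex.I)).re := by
  have hlc : ContinuousOn (fun w => Real.log ‖G w‖) (HL x₀) :=
    ContinuousOn.log hG.continuousOn.norm fun w hw => norm_ne_zero_iff.2 (h0 w hw)
  have hrc : ContinuousOn (fun w => (lq G w).re) (HL x₀) := Complex.continuous_re.comp_continuousOn (lq_cont hG h0)
  have h1 : x₁ < x₀ := h12.trans_lt h2
  rw [← intervalIntegral.integral_sub ((line_cont hlc h2).intervalIntegrable _ _) ((line_cont hlc h1).intervalIntegrable _ _)]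
  have hcu : ContinuousOn (Function.uncurry fun x y : ℝ => (lq G (x + y * Complex.I)).re) (Icc x₁ x₂ ×ˢ Icc 0 (2 * π)) := by
    refine hrc.comp (f := fun p : ℝ × ℝ => (p.1 : ℂ) + p.2 * Complex.I) (by fun_prop) fun p hp => mem_HL (hp.1.2.trans_lt h2)
  have hpi : (0 : ℝ) ≤ 2 * π := by positivity
  rw [intervalIntegral_intervalIntegral_swap]
  · refine intervalIntegral.integral_congr fun y _ => ?_
    symm
    refine intervalIntegral.integral_eq_sub_of_hasDerivAt (f := fun x : ℝ => Real.log ‖G (x + y * Complex.I)‖) (fun x hx => ?_) ?_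
    · rw [uIcc_of_le h12] at hx
      have hx0 : x < x₀ := hx.2.trans_lt h2
      exact hasDerivAt_log_norm (hG.differentiableAt ((isOpen_HL x₀).mem_nhds (mem_HL hx0))) (h0 _ (mem_HL hx0))
    · apply ContinuousOn.intervalIntegrable
      rw [uIcc_of_le h12]
      refine hrc.comp (f := fun x : ℝ => (x : ℂ) + y * Complex.I) (by fun_prop) fun x hx => mem_HL (hx.2.trans_lt h2)
  · refine (hcu.integrableOn_compact (isCompact_Icc.prod isCompact_Icc)).mono_set ?_
    rw [uIoc_of_le h12, uIoc_of_le hpi]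
    exact prod_mono Ioc_subset_Icc_self Ioc_subset_Icc_self

/-- the inequality in the half plane -/
private lemma plane_ineq (hG : DifferentiableOn ℂ G (HL x₀)) (h0 : ∀ w ∈ HL x₀, G w ≠ 0)
    (hper : ∀ w : ℂ, lq G (w + 2 * π * Complex.I) = lq G w) {x₁ x x' K : ℝ} (h1 : x₁ ≤ x) (h2 : x ≤ x') (h3 : x' < x₀)
    (hK : -K ≤ ∫ y in (0 : ℝ)..2 * π, (lq G (x₁ + y * Complex.I)).re) :
    (x' - x) * (∫ t in x₁..x, ∫ y in (0 : ℝ)..2 * π, 2 * fsq (G (t + y * Complex.I)) (deriv G (t + y * Complex.I))) - K * (x' - x₁) ≤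
      (∫ y in (0 : ℝ)..2 * π, Real.log ‖G (x' + y * Complex.I)‖) - (∫ y in (0 : ℝ)..2 * π, Real.log ‖G (x₁ + y * Complex.I)‖) := by
  rw [int_two hG h0 (h1.trans h2) h3]
  obtain ⟨B, hB⟩ : ∃ B : ℝ → ℝ, B = fun x : ℝ => ∫ y in (0 : ℝ)..2 * π, (lq G (x + y * Complex.I)).re := ⟨_, rfl⟩
  obtain ⟨S, hS⟩ : ∃ S : ℝ → ℝ, S = fun t : ℝ => ∫ y in (0 : ℝ)..2 * π, 2 * fsq (G (t + y * Complex.I)) (deriv G (t + y * Complex.I)) := ⟨_, rfl⟩
  have hSe : ∀ t : ℝ, ∫ y in (0 : ℝ)..2 * π, 2 * fsq (G (t + y * Complex.I)) (deriv G (t + y * Complex.I)) = S t := fun t => by rw [hS]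
  have hBe : ∀ t : ℝ, ∫ y in (0 : ℝ)..2 * π, (lq G (t + y * Complex.I)).re = B t := fun t => by rw [hB]
  simp only [hSe, hBe] at hK ⊢
  have hpi : (0 : ℝ) ≤ 2 * π := by positivity
  have hS0 : ∀ t, 0 ≤ S t := by
    intro t
    rw [hS]
    exact intervalIntegral.integral_nonneg hpi fun y _ => mul_nonneg zero_le_two (fsq_nonneg _ _)
  have hBS : ∀ a b : ℝ, a ≤ b → b < x₀ → B b - B a = ∫ t in a..b, S t := by
    intro a b hab hb
    rw [hB, hS]
    exact int_one hG h0 hper hab hb
  have hBm : ∀ a b : ℝ, a ≤ b → b < x₀ → B a ≤ B b := by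
    intro a b hab hb
    have h5 := hBS a b hab hb
    have h6 : 0 ≤ ∫ t in a..b, S t := intervalIntegral.integral_nonneg hab fun t _ => hS0 t
    linarith
  have hBmono : ∀ a b : ℝ, a ≤ b → b < x₀ → IntervalIntegrable B volume a b := by
    intro a b hab hb
    apply MonotoneOn.intervalIntegrable
    rw [uIcc_of_le hab]
    intro s hs t ht hst
    exact hBm s t hst (ht.2.trans_lt hb)
  rw [← intervalIntegral.integral_add_adjacent_intervals (hBmono x₁ x h1 (h2.trans_lt h3)) (hBmono x x' h2 h3)]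
  have h4 : (x - x₁) * -K ≤ ∫ t in x₁..x, B t := by
    have h5 := intervalIntegral.integral_mono_on h1 (intervalIntegrable_const (c := -K)) (hBmono x₁ x h1 (h2.trans_lt h3))
      fun t ht => hK.trans (hBm x₁ t ht.1 (ht.2.trans_lt (h2.trans_lt h3)))
    rwa [intervalIntegral.integral_const, smul_eq_mul] at h5
  have h6 : (x' - x) * (-K + ∫ t in x₁..x, S t) ≤ ∫ t in x..x', B t := by
    have h7 : ∀ t ∈ Icc x x', -K + ∫ t in x₁..x, S t ≤ B t := by
      intro t ht
      have h8 := hBm x t ht.1 (ht.2.trans_lt h3)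
      have h9 := hBS x₁ x h1 (h2.trans_lt h3)
      linarith
    have h5 := intervalIntegral.integral_mono_on h2 (intervalIntegrable_const (c := -K + ∫ t in x₁..x, S t)) (hBmono x x' h2 h3) h7
    rwa [intervalIntegral.integral_const, smul_eq_mul] at h5
  linarith

end plane

variable {F : ℂ → V} {R : ℝ}

private lemma exp_mem_ball {x₀ : ℝ} {w : ℂ} (hw : w ∈ HL x₀) : Complex.exp w ∈ ball (0 : ℂ) (Real.exp x₀) := by
  rw [mem_ball_zero_iff, Complex.norm_exp, Real.exp_lt_exp]
  exact hw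

private lemma deriv_exp_comp {x₀ : ℝ} (hF : DifferentiableOn ℂ F (ball 0 (Real.exp x₀))) {w : ℂ} (hw : w ∈ HL x₀) :
    deriv (fun w => F (Complex.exp w)) w = Complex.exp w • deriv F (Complex.exp w) := by
  have h1 : HasDerivAt F (deriv F (Complex.exp w)) (Complex.exp w) :=
    (hF.differentiableAt (isOpen_ball.mem_nhds (exp_mem_ball hw))).hasDerivAt
  exact (h1.scomp w (Complex.hasDerivAt_exp w)).deriv

private lemma circ_eq (f : ℂ → ℝ) (t : ℝ) : ∫ y in (0 : ℝ)..2 * π, f (Complex.exp (t + y * Complex.I)) = 2 * π * circleAverage f 0 (Real.exp t) := by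
  rw [circleAverage_def, smul_eq_mul, ← mul_assoc, mul_inv_cancel₀ (by positivity), one_mul]
  refine intervalIntegral.integral_congr fun y _ => ?_
  rw [circleMap_zero, Complex.exp_add, Complex.ofReal_exp]

/-- the inequality for a circle of positive radius -/
private lemma disc_ineq (hF : DifferentiableOn ℂ F (ball 0 R)) (h0 : ∀ z ∈ ball (0 : ℂ) R, F z ≠ 0) {r r' C e : ℝ} (he : 0 < e) (her : e ≤ r)
    (hr' : r ≤ r') (hR : r' < R) (hC : ∀ z : ℂ, ‖z‖ ≤ r' → ‖deriv F z‖ / ‖F z‖ ≤ C) :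
    2 * (Real.log r' - Real.log r) * (∫ ρ in e..r, ρ * circleAverage (fun z => fsq (F z) (deriv F z)) 0 ρ) - C * (e * (Real.log r' - Real.log e)) ≤
      circleAverage (fun z => Real.log ‖F z‖) 0 r' - circleAverage (fun z => Real.log ‖F z‖) 0 e := by
  have hr : 0 < r := he.trans_le her
  have hr'0 : 0 < r' := hr.trans_le hr'
  have hR0 : 0 < R := hr'0.trans hR
  obtain ⟨x₀, hx₀⟩ : ∃ x₀ : ℝ, x₀ = Real.log R := ⟨_, rfl⟩
  have hex₀ : Real.exp x₀ = R := by rw [hx₀, Real.exp_log hR0]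
  rw [← hex₀] at hF h0
  obtain ⟨G, hG⟩ : ∃ G : ℂ → V, G = fun w => F (Complex.exp w) := ⟨_, rfl⟩
  have hGe : ∀ w, G w = F (Complex.exp w) := fun w => by rw [hG]
  have hGd : DifferentiableOn ℂ G (HL x₀) := by
    rw [hG]
    exact hF.comp Complex.differentiable_exp.differentiableOn fun w hw => exp_mem_ball hw
  have hG0 : ∀ w ∈ HL x₀, G w ≠ 0 := fun w hw => by rw [hGe]; exact h0 _ (exp_mem_ball hw)
  have hGper : ∀ w : ℂ, G (w + 2 * π * Complex.I) = G w := fun w => by rw [hGe, hGe, Complex.exp_periodic w]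
  have hper : ∀ w : ℂ, lq G (w + 2 * π * Complex.I) = lq G w := by
    intro w
    have h1 : deriv G (w + 2 * π * Complex.I) = deriv G w := by
      have h2 : (fun w => G (w + 2 * π * Complex.I)) = G := funext hGper
      have h3 := deriv_comp_add_const G (2 * π * Complex.I) w
      rw [h2] at h3
      exact h3.symm
    unfold lq
    rw [h1, hGper]
  have hGder : ∀ w ∈ HL x₀, deriv G w = Complex.exp w • deriv F (Complex.exp w) := by
    intro w hw
    rw [hG]
    exact deriv_exp_comp hF hw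
  have hlx : ∀ t : ℝ, 0 < t → t < R → Real.log t < x₀ := fun t ht htR => by rw [hx₀]; exact Real.log_lt_log ht htR
  have he0 : Real.log e < x₀ := hlx e he ((her.trans hr').trans_lt hR)
  have hπ : (0 : ℝ) < 2 * π := by positivity
  -- the lower bound at the small circle
  have hC0 : 0 ≤ C := by
    refine le_trans ?_ (hC 0 (by rw [norm_zero]; exact hr'0.le))
    positivity
  have hlow : -(2 * π * (C * e)) ≤ ∫ y in (0 : ℝ)..2 * π, (lq G ((Real.log e : ℝ) + y * Complex.I)).re := by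
    have h1 : ∀ y ∈ Icc (0 : ℝ) (2 * π), -(C * e) ≤ (lq G ((Real.log e : ℝ) + y * Complex.I)).re := by
      intro y _
      have hw : ((Real.log e : ℝ) : ℂ) + y * Complex.I ∈ HL x₀ := mem_HL he0
      have hn : ‖Complex.exp ((Real.log e : ℝ) + y * Complex.I)‖ = e := by
        rw [Complex.norm_exp]
        simp [Real.exp_log he]
      have h2 : ‖lq G ((Real.log e : ℝ) + y * Complex.I)‖ ≤ C * e := by
        refine (lq_norm_le (hG0 _ hw)).trans ?_
        rw [hGder _ hw, hGe, norm_smul, hn, mul_div_assoc, mul_comm]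
        exact mul_le_mul_of_nonneg_right (hC _ (by rw [hn]; exact her.trans hr')) he.le
      have h3 := Complex.abs_re_le_norm (lq G ((Real.log e : ℝ) + y * Complex.I))
      have h4 := (abs_le.1 (h3.trans h2)).1
      exact h4
    have hint : IntervalIntegrable (fun y : ℝ => (lq G ((Real.log e : ℝ) + y * Complex.I)).re) volume 0 (2 * π) :=
      (line_cont (Complex.continuous_re.comp_continuousOn (lq_cont hGd hG0)) he0).intervalIntegrable _ _
    have h5 := intervalIntegral.integral_mono_on hπ.le (intervalIntegrable_const (c := -(C * e))) hint h1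
    rw [intervalIntegral.integral_const, smul_eq_mul, sub_zero] at h5
    linarith
  have hmain := plane_ineq hGd hG0 hper (Real.log_le_log he her) (Real.log_le_log hr hr') (hlx r' hr'0 hR) hlow
  -- the logarithmic means
  have hM : ∀ t : ℝ, 0 < t → ∫ y in (0 : ℝ)..2 * π, Real.log ‖G ((Real.log t : ℝ) + y * Complex.I)‖ = 2 * π * circleAverage (fun z => Real.log ‖F z‖) 0 t := by
    intro t ht
    have h1 := circ_eq (fun z => Real.log ‖F z‖) (Real.log t)
    rw [Real.exp_log ht] at h1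
    rw [← h1]
    simp only [hGe]
  rw [hM r' hr'0, hM e he] at hmain
  -- the area
  have hS : ∀ t : ℝ, t < x₀ → ∫ y in (0 : ℝ)..2 * π, 2 * fsq (G (t + y * Complex.I)) (deriv G (t + y * Complex.I)) =
      4 * π * (Real.exp t * circleAverage (fun z => fsq (F z) (deriv F z)) 0 (Real.exp t)) * Real.exp t := by
    intro t ht
    have h1 : ∀ y : ℝ, 2 * fsq (G (t + y * Complex.I)) (deriv G (t + y * Complex.I)) =
        2 * Real.exp t ^ 2 * fsq (F (Complex.exp (t + y * Complex.I))) (deriv F (Complex.exp (t + y * Complex.I))) := by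
      intro y
      have hw : (t : ℂ) + y * Complex.I ∈ HL x₀ := mem_HL ht
      rw [hGder _ hw, hGe, fsq_smul, Complex.norm_exp]
      simp only [Complex.add_re, Complex.ofReal_re, Complex.mul_re, Complex.I_re, mul_zero, Complex.ofReal_im, Complex.I_im, mul_one, sub_self, add_zero]
      ring
    simp only [h1]
    rw [intervalIntegral.integral_const_mul, circ_eq (fun z => fsq (F z) (deriv F z))]
    ring
  have hA : ∫ t in Real.log e..Real.log r, ∫ y in (0 : ℝ)..2 * π, 2 * fsq (G (t + y * Complex.I)) (deriv G (t + y * Complex.I)) =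
      4 * π * ∫ ρ in e..r, ρ * circleAverage (fun z => fsq (F z) (deriv F z)) 0 ρ := by
    have hc : ContinuousOn (fun z => fsq (F z) (deriv F z)) (ball 0 R) := by
      have hF' : DifferentiableOn ℂ (deriv F) (ball 0 (Real.exp x₀)) := hF.deriv isOpen_ball
      rw [hex₀] at hF hF' h0
      unfold fsq
      refine ContinuousOn.div ?_ (hF.continuousOn.norm.pow 4) fun w hw => ?_
      · exact ((hF.continuousOn.norm.pow 2).mul (hF'.continuousOn.norm.pow 2)).sub ((hF.continuousOn.inner hF'.continuousOn).norm.pow 2)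
      · have := norm_pos_iff.2 (h0 w hw)
        positivity
    have hcc : ContinuousOn (circleAverage (fun z => fsq (F z) (deriv F z)) 0) (Icc 0 r) := by
      refine ContinuousOn.circleAverage (hc.mono ?_) fun t ht => ht.1
      intro z hz
      simp only [mem_ofPred_eq, sub_zero, mem_Icc] at hz
      rw [mem_ball_zero_iff]
      exact (hz.2.trans hr').trans_lt hR
    have h1 : ∫ t in Real.log e..Real.log r, ∫ y in (0 : ℝ)..2 * π, 2 * fsq (G (t + y * Complex.I)) (deriv G (t + y * Complex.I)) =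
        ∫ t in Real.log e..Real.log r, ((fun ρ => 4 * π * (ρ * circleAverage (fun z => fsq (F z) (deriv F z)) 0 ρ)) ∘ Real.exp) t * Real.exp t := by
      refine intervalIntegral.integral_congr fun t ht => ?_
      rw [uIcc_of_le (Real.log_le_log he her)] at ht
      exact hS t (ht.2.trans_lt (hlx r hr (hr'.trans_lt hR)))
    have h2 := intervalIntegral.integral_comp_mul_deriv' (a := Real.log e) (b := Real.log r) (f := Real.exp) (f' := Real.exp)
      (g := fun ρ => 4 * π * (ρ * circleAverage (fun z => fsq (F z) (deriv F z)) 0 ρ)) (fun t _ => Real.hasDerivAt_exp t)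
      Real.continuous_exp.continuousOn (by
        refine continuousOn_const.mul (continuousOn_id.mul (hcc.mono ?_))
        rintro _ ⟨t, ht, rfl⟩
        rw [uIcc_of_le (Real.log_le_log he her)] at ht
        refine ⟨(Real.exp_pos t).le, ?_⟩
        rw [← Real.exp_log hr, Real.exp_le_exp]
        exact ht.2)
    rw [h1, h2, Real.exp_log he, Real.exp_log hr, intervalIntegral.integral_const_mul]
  rw [hA] at hmain
  have h5 : 0 < 2 * π := hπ
  have h6 : 2 * π * (2 * (Real.log r' - Real.log r) * (∫ ρ in e..r, ρ * circleAverage (fun z => fsq (F z) (deriv F z)) 0 ρ) -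
      C * (e * (Real.log r' - Real.log e))) ≤ 2 * π * (circleAverage (fun z => Real.log ‖F z‖) 0 r' - circleAverage (fun z => Real.log ‖F z‖) 0 e) := by
    linarith
  exact le_of_mul_le_mul_left h6 h5

/-- **The area of a disc and the characteristic.**  For a holomorphic vector `F` without zeros,
`2 log (r' / r) ∫_0^r ρ (mean of |F'|_FS² on the circle of radius ρ) dρ ≤ (mean of log ‖F‖ on the circle of radius r') - log ‖F 0‖`. -/
theorem area_le (hF : DifferentiableOn ℂ F (ball 0 R)) (h0 : ∀ z ∈ ball (0 : ℂ) R, F z ≠ 0) {r r' : ℝ} (hr : 0 < r) (hr' : r ≤ r') (hR : r' < R) :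
    2 * (Real.log r' - Real.log r) * (∫ ρ in (0 : ℝ)..r, ρ * circleAverage (fun z => fsq (F z) (deriv F z)) 0 ρ) ≤
      circleAverage (fun z => Real.log ‖F z‖) 0 r' - Real.log ‖F 0‖ := by
  have hr'0 : 0 < r' := hr.trans_le hr'
  have hF' : DifferentiableOn ℂ (deriv F) (ball 0 R) := hF.deriv isOpen_ball
  have hsub : closedBall (0 : ℂ) r' ⊆ ball 0 R := closedBall_subset_ball hR
  -- a bound for the logarithmic derivative
  obtain ⟨C, hC⟩ : ∃ C : ℝ, ∀ z : ℂ, ‖z‖ ≤ r' → ‖deriv F z‖ / ‖F z‖ ≤ C := by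
    have h1 : ContinuousOn (fun z => ‖deriv F z‖ / ‖F z‖) (closedBall 0 r') :=
      (hF'.continuousOn.mono hsub).norm.div (hF.continuousOn.mono hsub).norm fun z hz => norm_ne_zero_iff.2 (h0 z (hsub hz))
    obtain ⟨C, hC⟩ := (isCompact_closedBall (0 : ℂ) r').exists_bound_of_continuousOn h1
    refine ⟨C, fun z hz => ?_⟩
    have := hC z (by rwa [mem_closedBall_zero_iff])
    exact (le_abs_self _).trans this
  have hc : ContinuousOn (fun z => fsq (F z) (deriv F z)) (ball 0 R) := by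
    unfold fsq
    refine ContinuousOn.div ?_ (hF.continuousOn.norm.pow 4) fun w hw => ?_
    · exact ((hF.continuousOn.norm.pow 2).mul (hF'.continuousOn.norm.pow 2)).sub ((hF.continuousOn.inner hF'.continuousOn).norm.pow 2)
    · have := norm_pos_iff.2 (h0 w hw)
      positivity
  have hmemb : ∀ z : ℂ, z ∈ {z : ℂ | ‖z - 0‖ ∈ Icc 0 r'} → z ∈ ball (0 : ℂ) R := by
    intro z hz
    simp only [mem_ofPred_eq, sub_zero, mem_Icc] at hz
    rw [mem_ball_zero_iff]
    exact hz.2.trans_lt hR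
  have hcc : ContinuousOn (circleAverage (fun z => fsq (F z) (deriv F z)) 0) (Icc 0 r') :=
    ContinuousOn.circleAverage (hc.mono fun z hz => hmemb z hz) fun t ht => ht.1
  have hlc : ContinuousOn (circleAverage (fun z => Real.log ‖F z‖) 0) (Icc 0 r') :=
    ContinuousOn.circleAverage ((ContinuousOn.log hF.continuousOn.norm fun w hw => norm_ne_zero_iff.2 (h0 w hw)).mono fun z hz => hmemb z hz) fun t ht => ht.1
  obtain ⟨g, hg⟩ : ∃ g : ℝ → ℝ, g = fun ρ => ρ * circleAverage (fun z => fsq (F z) (deriv F z)) 0 ρ := ⟨_, rfl⟩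
  have hge : ∀ ρ, ρ * circleAverage (fun z => fsq (F z) (deriv F z)) 0 ρ = g ρ := fun ρ => by rw [hg]
  have hgc : ContinuousOn g (Icc 0 r) := by
    rw [hg]
    exact continuousOn_id.mul (hcc.mono (Icc_subset_Icc le_rfl hr'))
  have hl : (𝓝[>] (0 : ℝ)).NeBot := inferInstance
  -- the limits
  have hlim1 : Tendsto (fun e : ℝ => ∫ ρ in e..r, g ρ) (𝓝[>] 0) (𝓝 (∫ ρ in (0 : ℝ)..r, g ρ)) := by
    have h1 : ContinuousOn (fun e : ℝ => ∫ ρ in e..r, g ρ) (uIcc 0 r) := by
      apply intervalIntegral.continuousOn_primitive_interval_left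
      rw [uIcc_of_le hr.le]
      exact hgc.integrableOn_compact isCompact_Icc
    have h2 := h1 0 left_mem_uIcc
    refine h2.mono_left ?_
    rw [uIcc_of_le hr.le]
    refine nhdsWithin_le_of_mem ?_
    exact mem_of_superset (Ioo_mem_nhdsGT hr) fun x hx => ⟨hx.1.le, hx.2.le⟩
  have hlim2 : Tendsto (fun e : ℝ => e * (Real.log r' - Real.log e)) (𝓝[>] 0) (𝓝 0) := by
    have h1 : Tendsto (fun e : ℝ => Real.log e * e) (𝓝[>] 0) (𝓝 0) := by
      simpa only [rpow_one] using tendsto_log_mul_rpow_nhdsGT_zero zero_lt_one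
    have h2 : Tendsto (fun e : ℝ => e * Real.log r') (𝓝[>] 0) (𝓝 (0 * Real.log r')) :=
      (tendsto_id.mono_left nhdsWithin_le_nhds).mul_const _
    have h3 := h2.sub h1
    rw [zero_mul, sub_zero] at h3
    refine h3.congr fun e => ?_
    ring
  have hlim3 : Tendsto (fun e : ℝ => circleAverage (fun z => Real.log ‖F z‖) 0 e) (𝓝[>] 0) (𝓝 (Real.log ‖F 0‖)) := by
    have h2 := hlc 0 ⟨le_rfl, hr'0.le⟩
    have h3 : circleAverage (fun z => Real.log ‖F z‖) 0 0 = Real.log ‖F 0‖ := circleAverage_zero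
    rw [ContinuousWithinAt, h3] at h2
    refine h2.mono_left ?_
    refine nhdsWithin_le_of_mem ?_
    exact mem_of_superset (Ioo_mem_nhdsGT hr'0) fun x hx => ⟨hx.1.le, hx.2.le⟩
  have hL : Tendsto (fun e : ℝ => 2 * (Real.log r' - Real.log r) * (∫ ρ in e..r, g ρ) - C * (e * (Real.log r' - Real.log e))) (𝓝[>] 0)
      (𝓝 (2 * (Real.log r' - Real.log r) * (∫ ρ in (0 : ℝ)..r, g ρ) - C * 0)) := (hlim1.const_mul _).sub (hlim2.const_mul _)
  have hRt : Tendsto (fun e : ℝ => circleAverage (fun z => Real.log ‖F z‖) 0 r' - circleAverage (fun z => Real.log ‖F z‖) 0 e) (𝓝[>] 0)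
      (𝓝 (circleAverage (fun z => Real.log ‖F z‖) 0 r' - Real.log ‖F 0‖)) := tendsto_const_nhds.sub hlim3
  have hev : ∀ᶠ e in 𝓝[>] (0 : ℝ), 2 * (Real.log r' - Real.log r) * (∫ ρ in e..r, g ρ) - C * (e * (Real.log r' - Real.log e)) ≤
      circleAverage (fun z => Real.log ‖F z‖) 0 r' - circleAverage (fun z => Real.log ‖F z‖) 0 e := by
    filter_upwards [Ioo_mem_nhdsGT hr] with e he
    have := disc_ineq hF h0 he.1 he.2.le hr' hR hC
    simp only [hge] at this
    exact this
  have hfin := le_of_tendsto_of_tendsto hL hRt hev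
  simp only [hge]
  rw [mul_zero, sub_zero] at hfin
  exact hfin

end Pool.Agent.H56.G3
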