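import Mathlib

/-!
# G3 Chain: a Harnack chain in the half plane gives polynomial growth
-/

set_option autoImplicit false

open Set Metric Real

namespace Pool.Agent.H56.G3

/-- the imaginary part can be moved by a multiple of `2 π` -/
private lemma shift_im (x y : ℝ) : ∃ k : ℤ, |x - (y + k * (2 * π))| ≤ π := by
  have hπ : (0 : ℝ) < 2 * π := by positivity
  refine ⟨round ((x - y) / (2 * π)), ?_⟩
  have h1 := abs_sub_round ((x - y) / (2 * π))
  have h2 : x - (y + round ((x - y) / (2 * π)) * (2 * π)) = ((x - y) / (2 * π) - round ((x - y) / (2 * π))) * (2 * π) := by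
    field_simp
    ring
  rw [h2, abs_mul, abs_of_pos hπ]
  nlinarith

private lemma norm_le_abs (w : ℂ) : ‖w‖ ≤ |w.re| + |w.im| := Complex.norm_le_abs_re_add_abs_im w

/-- **Harnack chain.** -/
theorem chain {G : ℂ → Prop} {E : ℂ → ℝ} {C t₀ : ℝ} (hC : 1 ≤ C) (hE : ∀ w, G w → 1 ≤ E w)
    (hper : ∀ (w : ℂ) (k : ℤ), G w → G (w + k * (2 * π * Complex.I)) ∧ E (w + k * (2 * π * Complex.I)) = E w)
    (hstep : ∀ w, G w → t₀ ≤ -w.re → ∀ w' : ℂ, ‖w' - w‖ ≤ -w.re / 8 →
      ∃ w₁ ∈ ball w' (-w.re / 32), G w₁ ∧ E w₁ ≤ C * (E w + Real.log (-w.re)))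
    {w₀ : ℂ} (hG₀ : G w₀) (ht₀ : 2 * t₀ ≤ -w₀.re) (h116 : 116 ≤ -w₀.re) :
    ∃ (p : ℕ) (K : ℝ), 0 < K ∧ ∀ w : ℂ, -w₀.re ≤ -w.re → ∃ w₁, G w₁ ∧ ‖w - w₁‖ ≤ -w₁.re / 8 ∧ t₀ ≤ -w₁.re ∧ -w₁.re ≤ 2 * -w.re ∧
      E w₁ ≤ K * (-w.re) ^ p := by
  obtain ⟨s₀, hs₀⟩ : ∃ s₀ : ℝ, s₀ = -w₀.re := ⟨_, rfl⟩
  rw [← hs₀] at ht₀ h116 ⊢
  have hs₀0 : 0 < s₀ := by linarith
  obtain ⟨s, hs⟩ : ∃ s : ℕ → ℝ, s = fun j => s₀ * (17 / 16) ^ j := ⟨_, rfl⟩
  have hse : ∀ j, s j = s₀ * (17 / 16) ^ j := fun j => by rw [hs]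
  have hss : ∀ j, s (j + 1) = 17 / 16 * s j := fun j => by rw [hse, hse, pow_succ]; ring
  have hsge : ∀ j, s₀ ≤ s j := by
    intro j
    rw [hse]
    exact le_mul_of_one_le_right hs₀0.le (one_le_pow₀ (by norm_num))
  -- the constants
  obtain ⟨D, hD⟩ : ∃ D : ℝ, D = 2 * C + 2 := ⟨_, rfl⟩
  have hD0 : 0 < D := by linarith
  obtain ⟨K, hK⟩ : ∃ K : ℝ, K = E w₀ + (Real.log (2 * s₀) + 1) := ⟨_, rfl⟩
  have hlog0 : 0 ≤ Real.log (2 * s₀) := Real.log_nonneg (by linarith)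
  have hK0 : 0 < K := by
    have := hE w₀ hG₀
    linarith
  -- the chain
  have key : ∀ j : ℕ, ∃ w, G w ∧ |-w.re - s j| ≤ s j / 32 ∧ E w ≤ K * D ^ j := by
    intro j
    induction j with
    | zero =>
      refine ⟨w₀, hG₀, ?_, ?_⟩
      · rw [hse, ← hs₀]
        simp only [pow_zero, mul_one, sub_self, abs_zero]
        positivity
      · rw [pow_zero, mul_one, hK]
        linarith
    | succ j ih =>
      obtain ⟨w, hGw, hw1, hw2⟩ := ih
      have hsj : s₀ ≤ s j := hsge j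
      have hsj0 : 0 < s j := by linarith
      obtain ⟨h1, h2⟩ := abs_le.1 hw1
      obtain ⟨t, ht⟩ : ∃ t : ℝ, t = -w.re := ⟨_, rfl⟩
      rw [← ht] at h1 h2
      obtain ⟨w', hw'⟩ : ∃ w' : ℂ, w' = ((-s (j + 1) : ℝ) : ℂ) + (w.im : ℂ) * Complex.I := ⟨_, rfl⟩
      have hw're : w'.re = -s (j + 1) := by rw [hw']; simp
      have hw'im : w'.im = w.im := by rw [hw']; simp
      have hdist : ‖w' - w‖ ≤ -w.re / 8 := by
        refine (norm_le_abs _).trans ?_
        rw [Complex.sub_re, Complex.sub_im, hw're, hw'im, sub_self, abs_zero, add_zero, ← ht, hss]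
        have h3 : w.re = -t := by rw [ht, neg_neg]
        rw [h3, abs_le]
        constructor <;> linarith
      obtain ⟨w₁, hw₁, hG₁, hE₁⟩ := hstep w hGw (by rw [← ht]; linarith) w' hdist
      refine ⟨w₁, hG₁, ?_, ?_⟩
      · rw [mem_ball_iff_norm, ← ht] at hw₁
        have h3 := Complex.abs_re_le_norm (w₁ - w')
        rw [Complex.sub_re, hw're] at h3
        have h4 : |-w₁.re - s (j + 1)| = |w₁.re - -s (j + 1)| := by
          rw [← abs_neg]
          congr 1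
          ring
        rw [h4]
        refine (h3.trans hw₁.le).trans ?_
        rw [hss]
        linarith
      · have h5 : Real.log t ≤ (Real.log (2 * s₀) + 1) * 2 ^ j := by
          have h6 : t ≤ (2 * s₀) * (17 / 16) ^ j := by
            have : t ≤ 2 * s j := by linarith
            rw [hse] at this
            linarith
          have ht0 : 0 < t := by linarith
          have h7 := Real.log_le_log ht0 h6
          rw [Real.log_mul (by linarith) (by positivity), Real.log_pow] at h7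
          have h8 : Real.log (17 / 16) ≤ 1 := by
            have := Real.log_le_sub_one_of_pos (show (0 : ℝ) < 17 / 16 by norm_num)
            linarith
          have h9 : (j : ℝ) ≤ 2 ^ j := by
            have := Nat.lt_two_pow_self (n := j)
            exact_mod_cast this.le
          have h10 : (1 : ℝ) ≤ 2 ^ j := one_le_pow₀ (by norm_num)
          have h11 : (j : ℝ) * Real.log (17 / 16) ≤ j * 1 := mul_le_mul_of_nonneg_left h8 (Nat.cast_nonneg j)
          nlinarith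
        have h12 : (2 : ℝ) ^ j ≤ D ^ j := pow_le_pow_left₀ (by norm_num) (by linarith) j
        have h13 : Real.log (2 * s₀) + 1 ≤ K := by
          have := hE w₀ hG₀
          linarith
        have h14 : Real.log t ≤ K * D ^ j := h5.trans (mul_le_mul h13 h12 (by positivity) hK0.le)
        have h15 : C * (E w + Real.log t) ≤ C * (K * D ^ j + K * D ^ j) := mul_le_mul_of_nonneg_left (add_le_add hw2 h14) (by linarith)
        have h16 : 0 ≤ K * D ^ j := by positivity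
        rw [← ht] at hE₁
        rw [pow_succ]
        have h17 : K * (D ^ j * D) = C * (K * D ^ j + K * D ^ j) + 2 * (K * D ^ j) := by
          rw [hD]
          ring
        rw [h17]
        linarith
  -- the exponent
  obtain ⟨p, hp⟩ : ∃ p : ℕ, D < (17 / 16 : ℝ) ^ p := pow_unbounded_of_one_lt D (by norm_num)
  refine ⟨p, K, hK0, ?_⟩
  intro w hw
  obtain ⟨t, ht⟩ : ∃ t : ℝ, t = -w.re := ⟨_, rfl⟩
  rw [← ht] at hw ⊢
  -- the index
  obtain ⟨j, hj1, hj2⟩ : ∃ j : ℕ, s j ≤ t ∧ t < s (j + 1) := by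
    have h1 : (1 : ℝ) ≤ t / s₀ := by rw [le_div_iff₀ hs₀0]; linarith
    obtain ⟨j, hj1, hj2⟩ := exists_nat_pow_near h1 (show (1 : ℝ) < 17 / 16 by norm_num)
    refine ⟨j, ?_, ?_⟩
    · rw [hse, mul_comm, ← le_div_iff₀ hs₀0]
      exact hj1
    · rw [hse, mul_comm, ← div_lt_iff₀ hs₀0]
      exact hj2
  obtain ⟨w₁, hG₁, hw₁, hE₁⟩ := key j
  have hsj : s₀ ≤ s j := hsge j
  obtain ⟨k, hk⟩ := shift_im w.im w₁.im
  obtain ⟨h1, h2⟩ := abs_le.1 hw₁
  have hre : (w₁ + k * (2 * π * Complex.I)).re = w₁.re := by simp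
  have him : (w₁ + k * (2 * π * Complex.I)).im = w₁.im + k * (2 * π) := by simp
  obtain ⟨hG₂, hE₂⟩ := hper w₁ k hG₁
  refine ⟨w₁ + k * (2 * π * Complex.I), hG₂, ?_, ?_, ?_, ?_⟩
  · refine (norm_le_abs _).trans ?_
    rw [Complex.sub_re, Complex.sub_im, hre, him]
    have h3 : w.re = -t := by rw [ht, neg_neg]
    have h4 : |w.re - w₁.re| ≤ 3 / 32 * s j := by
      rw [h3, abs_le]
      rw [hss] at hj2
      constructor <;> linarith
    have h5 := pi_lt_d2
    linarith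
  · rw [hre]
    linarith
  · rw [hre]
    linarith
  · rw [hE₂]
    refine hE₁.trans (mul_le_mul_of_nonneg_left ?_ hK0.le)
    have h3 : D ^ j ≤ ((17 / 16 : ℝ) ^ j) ^ p := by
      rw [← pow_mul, mul_comm, pow_mul]
      exact pow_le_pow_left₀ hD0.le hp.le j
    refine h3.trans (pow_le_pow_left₀ (by positivity) ?_ p)
    have h4 : s j = s₀ * (17 / 16) ^ j := hse j
    have h5 : (0 : ℝ) < (17 / 16) ^ j := by positivity
    nlinarith

end Pool.Agent.H56.G3
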