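import Mathlib

/-!
# G3 Desc: a nonnegative function on the half plane with period `2 π i` does not satisfy `mean over the large circle ≤ mean over the small circle - 1`
-/

set_option autoImplicit false

open Set MeasureTheory Metric Real Function
open scoped ENNReal

namespace Pool.Agent.H56.G3

/-- the period integral -/
private lemma per_int {g : ℝ → ℝ≥0∞} (hg : ∀ y, g (y + 2 * π) = g y) (s : ℝ) :
    ∫⁻ y in Ioc 0 (2 * π), g (y + s) = ∫⁻ y in Ioc 0 (2 * π), g y := by
  have hT : (0 : ℝ) < 2 * π := by positivity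
  have : VAddInvariantMeasure (AddSubgroup.zmultiples (2 * π)) ℝ volume :=
    ⟨fun c s _ => measure_preimage_add _ _ _⟩
  have hper : Periodic g (2 * π) := hg
  have h1 : ∫⁻ y in Ioc s (s + 2 * π), g y = ∫⁻ y in Ioc 0 (0 + 2 * π), g y := by
    apply IsAddFundamentalDomain.setLIntegral_eq (G := AddSubgroup.zmultiples (2 * π))
    exacts [isAddFundamentalDomain_Ioc hT s, isAddFundamentalDomain_Ioc hT 0, hper.map_vadd_zmultiples]
  rw [zero_add] at h1
  rw [← h1]
  have h2 : (fun y => y + s) ⁻¹' Ioc s (s + 2 * π) = Ioc 0 (2 * π) := by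
    ext y
    simp only [mem_preimage, mem_Ioc]
    constructor
    · rintro ⟨h3, h4⟩
      exact ⟨by linarith, by linarith⟩
    · rintro ⟨h3, h4⟩
      exact ⟨by linarith, by linarith⟩
  rw [← h2]
  exact (measurePreserving_add_right volume s).setLIntegral_comp_preimage_emb (measurableEmbedding_addRight s) g _

/-- the mean over the circle, in the variable `α` -/
private noncomputable def av (g : ℝ → ℝ≥0∞) : ℝ≥0∞ := (ENNReal.ofReal (2 * π))⁻¹ * ∫⁻ α in Ioc 0 (2 * π), g α

private lemma pi_ne : ENNReal.ofReal (2 * π) ≠ 0 := by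
  rw [Ne, ENNReal.ofReal_eq_zero, not_le]
  positivity

private lemma av_le {f g : ℝ → ℝ≥0∞} (h : ∀ α, f α ≤ g α) : av f ≤ av g := by
  unfold av
  gcongr with α
  exact h α

private lemma av_le_const {f : ℝ → ℝ≥0∞} {c : ℝ≥0∞} (h : ∀ α, f α ≤ c) : av f ≤ c := by
  refine (av_le h).trans ?_
  unfold av
  rw [setLIntegral_const, Real.volume_Ioc, sub_zero, mul_comm c, ← mul_assoc, ENNReal.inv_mul_cancel pi_ne ENNReal.ofReal_ne_top, one_mul]

private lemma conv {y u U : ℝ} (hu : 0 ≤ u) (hU : u ≤ U) : max (y - u) 0 + max (y + u) 0 ≤ max (y - U) 0 + max (y + U) 0 := by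
  rcases le_total 0 (y - U) with h1 | h1
  · rw [max_eq_left h1, max_eq_left (by linarith : 0 ≤ y - u), max_eq_left (by linarith : 0 ≤ y + u), max_eq_left (by linarith : 0 ≤ y + U)]
    linarith
  · rw [max_eq_right h1]
    rcases le_total 0 (y + U) with h2 | h2
    · rw [max_eq_left h2]
      rcases le_total 0 (y - u) with h3 | h3
      · rw [max_eq_left h3, max_eq_left (by linarith : 0 ≤ y + u)]
        linarith
      · rw [max_eq_right h3]
        rcases le_total 0 (y + u) with h4 | h4
        · rw [max_eq_left h4]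
          linarith
        · rw [max_eq_right h4]
          linarith
    · rw [max_eq_right h2, max_eq_right (by linarith : y - u ≤ 0), max_eq_right (by linarith : y + u ≤ 0)]

private lemma conv' {y s S c : ℝ} (hs : 0 ≤ s) (hS : s ≤ S) :
    ENNReal.ofReal (y - s * c) + ENNReal.ofReal (y + s * c) ≤ ENNReal.ofReal (y - S * c) + ENNReal.ofReal (y + S * c) := by
  have key : ∀ c : ℝ, 0 ≤ c → ENNReal.ofReal (y - s * c) + ENNReal.ofReal (y + s * c) ≤ ENNReal.ofReal (y - S * c) + ENNReal.ofReal (y + S * c) := by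
    intro c hc
    have h1 : ∀ x : ℝ, ENNReal.ofReal x = ENNReal.ofReal (max x 0) := by
      intro x
      rcases le_total x 0 with h | h
      · rw [max_eq_right h, ENNReal.ofReal_of_nonpos h, ENNReal.ofReal_zero]
      · rw [max_eq_left h]
    rw [h1 (y - s * c), h1 (y + s * c), h1 (y - S * c), h1 (y + S * c), ← ENNReal.ofReal_add (le_max_right _ _) (le_max_right _ _),
      ← ENNReal.ofReal_add (le_max_right _ _) (le_max_right _ _)]
    exact ENNReal.ofReal_le_ofReal (conv (mul_nonneg hs hc) (mul_le_mul_of_nonneg_right hS hc))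
  rcases le_total 0 c with hc | hc
  · exact key c hc
  · have := key (-c) (by linarith)
    have e1 : y - s * -c = y + s * c := by ring
    have e2 : y + s * -c = y - s * c := by ring
    have e3 : y - S * -c = y + S * c := by ring
    have e4 : y + S * -c = y - S * c := by ring
    rw [e1, e2, e3, e4] at this
    rw [add_comm (ENNReal.ofReal (y - s * c)), add_comm (ENNReal.ofReal (y - S * c))]
    exact this

/-- the mean of `(x - s cos α)₊` increases with `s` -/
private lemma av_cos {s S : ℝ} (x : ℝ) (hs : 0 ≤ s) (hS : s ≤ S) :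
    (av fun α => ENNReal.ofReal (x - s * cos α)) ≤ av fun α => ENNReal.ofReal (x - S * cos α) := by
  have h1 : ∀ s : ℝ, ∫⁻ α in Ioc 0 (2 * π), ENNReal.ofReal (x + s * cos α) = ∫⁻ α in Ioc 0 (2 * π), ENNReal.ofReal (x - s * cos α) := by
    intro s
    have h2 := per_int (g := fun α => ENNReal.ofReal (x - s * cos α)) (fun α => by simp only [cos_add_two_pi]) π
    rw [← h2]
    refine lintegral_congr fun α => ?_
    rw [cos_add_pi]
    congr 1
    ring
  have h3 : ∀ s : ℝ, 2 * ∫⁻ α in Ioc 0 (2 * π), ENNReal.ofReal (x - s * cos α) =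
      ∫⁻ α in Ioc 0 (2 * π), (ENNReal.ofReal (x - s * cos α) + ENNReal.ofReal (x + s * cos α)) := by
    intro s
    have hm : Measurable fun α : ℝ => ENNReal.ofReal (x - s * cos α) := by fun_prop
    rw [lintegral_add_left hm, h1, two_mul]
  have h4 : 2 * ∫⁻ α in Ioc 0 (2 * π), ENNReal.ofReal (x - s * cos α) ≤ 2 * ∫⁻ α in Ioc 0 (2 * π), ENNReal.ofReal (x - S * cos α) := by
    rw [h3, h3]
    exact lintegral_mono fun α => conv' hs hS
  have h5 : ∫⁻ α in Ioc 0 (2 * π), ENNReal.ofReal (x - s * cos α) ≤ ∫⁻ α in Ioc 0 (2 * π), ENNReal.ofReal (x - S * cos α) :=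
    (ENNReal.mul_le_mul_iff_right two_ne_zero ENNReal.ofNat_ne_top).1 h4
  unfold av
  gcongr

/-- the test function -/
private noncomputable def ph (a b x : ℝ) : ℝ≥0∞ := (Iic a).indicator (fun x => ENNReal.ofReal (x - b)) x

private lemma ph_meas (a b : ℝ) : Measurable (ph a b) := by
  unfold ph
  exact (ENNReal.measurable_ofReal.comp (measurable_id.sub_const b)).indicator measurableSet_Iic

private lemma ph_le {a b x : ℝ} : ph a b x ≤ ENNReal.ofReal (a - b) := by
  unfold ph
  by_cases h : x ∈ Iic a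
  · rw [indicator_of_mem h]
    exact ENNReal.ofReal_le_ofReal (by linarith [mem_Iic.1 h])
  · rw [indicator_of_notMem h]
    exact zero_le

private lemma ph_zero {a b x : ℝ} (h : a < x) : ph a b x = 0 := by
  unfold ph
  rw [indicator_of_notMem (by simpa using h)]

private lemma ph_zero' {a b x : ℝ} (h : x ≤ b) : ph a b x = 0 := by
  by_cases hx : x ≤ a
  · unfold ph
    rw [indicator_of_mem (mem_Iic.2 hx), ENNReal.ofReal_eq_zero]
    linarith
  · exact ph_zero (not_le.1 hx)

private lemma ph_av {a b s R : ℝ} (hs : 0 ≤ s) (hR : s ≤ R) (x : ℝ) :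
    (av fun α => ph a b (x - s * cos α)) ≤ (av fun α => ph a b (x - R * cos α)) + (Ioc (a - R) (a + s)).indicator (fun _ => ENNReal.ofReal (a - b)) x := by
  by_cases h1 : x ≤ a - R
  · have h2 : ∀ t : ℝ, 0 ≤ t → t ≤ R → ∀ α, ph a b (x - t * cos α) = ENNReal.ofReal ((x - b) - t * cos α) := by
      intro t ht htR α
      have h3 : x - t * cos α ≤ a := by
        have h4 := neg_one_le_cos α
        nlinarith
      unfold ph
      rw [indicator_of_mem (mem_Iic.2 h3)]
      congr 1
      ring
    simp only [h2 s hs hR, h2 R (hs.trans hR) le_rfl]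
    exact (av_cos (x - b) hs hR).trans le_self_add
  · by_cases h2 : x ≤ a + s
    · have h3 : x ∈ Ioc (a - R) (a + s) := ⟨not_le.1 h1, h2⟩
      rw [indicator_of_mem h3]
      exact (av_le_const fun α => ph_le).trans le_add_self
    · have h3 : ∀ α, ph a b (x - s * cos α) ≤ 0 := by
        intro α
        have h4 := cos_le_one α
        rw [ph_zero (by nlinarith)]
      exact (av_le_const h3).trans zero_le

/-- A nonnegative function with period `2 π i` on the half plane does not satisfy `mean over the circle of radius R ≤ mean over the circle of radius s - 1` far out. -/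
theorem no_descent_lintegral {Λ : ℝ → ℝ → ℝ≥0∞} (hΛ : Measurable (uncurry Λ)) (hper : ∀ x < 0, ∀ y, Λ x (y + 2 * π) = Λ x y)
    (hfin : ∀ a b : ℝ, b < 0 → ∫⁻ x in Icc a b, ∫⁻ y in Ioc 0 (2 * π), Λ x y < ∞) {s R T : ℝ} (hs : 0 ≤ s) (hsR : s ≤ R) (hR : 0 < R) (hRT : R < T)
    (h : ∀ᵐ p : ℝ × ℝ, p.1 ≤ -T →
      (ENNReal.ofReal (2 * π))⁻¹ * (∫⁻ α in Ioc 0 (2 * π), Λ (p.1 + R * cos α) (p.2 + R * sin α)) + 1 ≤
        (ENNReal.ofReal (2 * π))⁻¹ * (∫⁻ α in Ioc 0 (2 * π), Λ (p.1 + s * cos α) (p.2 + s * sin α))) : False := by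
  obtain ⟨ℓ, hℓ⟩ : ∃ ℓ : ℝ → ℝ≥0∞, ℓ = fun x => ∫⁻ y in Ioc 0 (2 * π), Λ x y := ⟨_, rfl⟩
  have hℓm : Measurable ℓ := by
    rw [hℓ]
    exact hΛ.lintegral_prod_right
  have hπ : (0 : ℝ) < 2 * π := by positivity
  have hπ' : volume (Ioc (0 : ℝ) (2 * π)) = ENNReal.ofReal (2 * π) := by rw [Real.volume_Ioc, sub_zero]
  have hxm : ∀ x t : ℝ, Measurable (uncurry fun y α : ℝ => Λ (x + t * cos α) (y + t * sin α)) := by
    intro x t
    have h9 : Measurable fun p : ℝ × ℝ => ((x + t * cos p.2, p.1 + t * sin p.2) : ℝ × ℝ) := by fun_prop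
    exact hΛ.comp h9
  have hint : ∀ x t : ℝ, 0 ≤ t → t ≤ R → x ≤ -T →
      ∫⁻ y in Ioc 0 (2 * π), (ENNReal.ofReal (2 * π))⁻¹ * (∫⁻ α in Ioc 0 (2 * π), Λ (x + t * cos α) (y + t * sin α)) = av fun α => ℓ (x + t * cos α) := by
    intro x t ht htR hxT
    rw [lintegral_const_mul _ (hxm x t).lintegral_prod_right, lintegral_lintegral_swap (hxm x t).aemeasurable]
    unfold av
    congr 1
    refine lintegral_congr fun α => ?_
    rw [hℓ]
    have hneg : x + t * cos α < 0 := by
      have h5 := cos_le_one α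
      nlinarith
    exact per_int (hper _ hneg) _
  -- the inequality for `ℓ`
  have hav : ∀ᵐ x : ℝ, x ≤ -T → (av fun α => ℓ (x + R * cos α)) + ENNReal.ofReal (2 * π) ≤ av fun α => ℓ (x + s * cos α) := by
    have h1 : ∀ᵐ x : ℝ, ∀ᵐ y : ℝ, x ≤ -T →
        (ENNReal.ofReal (2 * π))⁻¹ * (∫⁻ α in Ioc 0 (2 * π), Λ (x + R * cos α) (y + R * sin α)) + 1 ≤
          (ENNReal.ofReal (2 * π))⁻¹ * (∫⁻ α in Ioc 0 (2 * π), Λ (x + s * cos α) (y + s * sin α)) := by
      have h2 := Measure.ae_ae_of_ae_prod (μ := (volume : Measure ℝ)) (ν := (volume : Measure ℝ)) h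
      exact h2
    filter_upwards [h1] with x hx hxT
    have h3 : ∫⁻ y in Ioc 0 (2 * π), ((ENNReal.ofReal (2 * π))⁻¹ * (∫⁻ α in Ioc 0 (2 * π), Λ (x + R * cos α) (y + R * sin α)) + 1) ≤
        ∫⁻ y in Ioc 0 (2 * π), (ENNReal.ofReal (2 * π))⁻¹ * (∫⁻ α in Ioc 0 (2 * π), Λ (x + s * cos α) (y + s * sin α)) := by
      refine lintegral_mono_ae (ae_restrict_of_ae ?_)
      filter_upwards [hx] with y hy using hy hxT
    rw [lintegral_add_right _ measurable_const, hint x R hR.le le_rfl hxT, hint x s hs hsR hxT, setLIntegral_one, hπ'] at h3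
    exact h3
  -- a bound which does not depend on `b`
  have key : ∀ b : ℝ, b < -T → ENNReal.ofReal (2 * π) * ENNReal.ofReal ((-T - b) ^ 2 / 2) ≤
      ENNReal.ofReal (-T - b) * ∫⁻ x in Ioc (-T - R) (-T + s), ℓ x := by
    intro b hb
    have hphi := ph_meas (-T) b
    have h1 : ∫⁻ x, ph (-T) b x * ((av fun α => ℓ (x + R * cos α)) + ENNReal.ofReal (2 * π)) ≤ ∫⁻ x, ph (-T) b x * av fun α => ℓ (x + s * cos α) := by
      refine lintegral_mono_ae ?_
      filter_upwards [hav] with x hx
      by_cases hxT : x ≤ -T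
      · gcongr
        exact hx hxT
      · rw [ph_zero (not_le.1 hxT), zero_mul, zero_mul]
    have hm2 : ∀ t : ℝ, Measurable (uncurry fun x α : ℝ => ℓ (x + t * cos α)) := by
      intro t
      have h9 : Measurable fun p : ℝ × ℝ => p.1 + t * cos p.2 := by fun_prop
      exact hℓm.comp h9
    have hm3 : ∀ t : ℝ, Measurable fun x : ℝ => av fun α => ℓ (x + t * cos α) := by
      intro t
      unfold av
      exact (hm2 t).lintegral_prod_right.const_mul _
    have h2 : ∫⁻ x, ph (-T) b x * ((av fun α => ℓ (x + R * cos α)) + ENNReal.ofReal (2 * π)) =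
        (∫⁻ x, ph (-T) b x * av fun α => ℓ (x + R * cos α)) + ENNReal.ofReal (2 * π) * ∫⁻ x, ph (-T) b x := by
      simp only [mul_add]
      have hm4 : Measurable fun x : ℝ => ph (-T) b x * av fun α => ℓ (x + R * cos α) := hphi.mul (hm3 R)
      rw [lintegral_add_left hm4, lintegral_mul_const _ hphi, mul_comm (ENNReal.ofReal (2 * π))]
    -- the average of the test function
    have hm5 : ∀ t : ℝ, Measurable (uncurry fun x α : ℝ => ph (-T) b (x - t * cos α)) := by
      intro t
      have h9 : Measurable fun p : ℝ × ℝ => p.1 - t * cos p.2 := by fun_prop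
      exact hphi.comp h9
    have h3 : ∀ t : ℝ, (∫⁻ x, ph (-T) b x * av fun α => ℓ (x + t * cos α)) = ∫⁻ x, (av fun α => ph (-T) b (x - t * cos α)) * ℓ x := by
      intro t
      have h4 : ∀ x, (ph (-T) b x * av fun α => ℓ (x + t * cos α)) =
          (ENNReal.ofReal (2 * π))⁻¹ * ∫⁻ α in Ioc 0 (2 * π), ph (-T) b x * ℓ (x + t * cos α) := by
        intro x
        have hm4 : Measurable fun α : ℝ => ℓ (x + t * cos α) := hℓm.comp (by fun_prop)
        unfold av
        rw [lintegral_const_mul _ hm4, mul_left_comm]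
      have h5 : ∀ x, ((av fun α => ph (-T) b (x - t * cos α)) * ℓ x) =
          (ENNReal.ofReal (2 * π))⁻¹ * ∫⁻ α in Ioc 0 (2 * π), ph (-T) b (x - t * cos α) * ℓ x := by
        intro x
        have hm4 : Measurable fun α : ℝ => ph (-T) b (x - t * cos α) := hphi.comp (by fun_prop)
        unfold av
        rw [lintegral_mul_const _ hm4, mul_assoc]
      simp only [h4, h5]
      have hm6 : Measurable (uncurry fun x α : ℝ => ph (-T) b x * ℓ (x + t * cos α)) := (hphi.comp measurable_fst).mul (hm2 t)
      have hm7 : Measurable (uncurry fun x α : ℝ => ph (-T) b (x - t * cos α) * ℓ x) :=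
        (hm5 t).mul (hℓm.comp measurable_fst)
      rw [lintegral_const_mul _ hm6.lintegral_prod_right, lintegral_const_mul _ hm7.lintegral_prod_right,
        lintegral_lintegral_swap hm6.aemeasurable, lintegral_lintegral_swap hm7.aemeasurable]
      congr 1
      refine lintegral_congr fun α => ?_
      have h8 := (measurePreserving_add_right (volume : Measure ℝ) (-(t * cos α))).lintegral_comp
        (f := fun x => ph (-T) b x * ℓ (x + t * cos α)) ((hphi.mul (hℓm.comp (by fun_prop))))
      rw [← h8]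
      refine lintegral_congr fun x => ?_
      rw [neg_add_cancel_right, ← sub_eq_add_neg]
    have hm8 : ∀ t : ℝ, Measurable fun x : ℝ => (av fun α => ph (-T) b (x - t * cos α)) * ℓ x := by
      intro t
      unfold av
      exact ((hm5 t).lintegral_prod_right.const_mul _).mul hℓm
    have h4 : (∫⁻ x, (av fun α => ph (-T) b (x - s * cos α)) * ℓ x) ≤ (∫⁻ x, (av fun α => ph (-T) b (x - R * cos α)) * ℓ x) +
        ENNReal.ofReal (-T - b) * ∫⁻ x in Ioc (-T - R) (-T + s), ℓ x := by
      rw [← lintegral_const_mul _ hℓm, ← lintegral_indicator measurableSet_Ioc, ← lintegral_add_left (hm8 R)]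
      refine lintegral_mono fun x => ?_
      refine (mul_le_mul_left (ph_av hs hsR x) (ℓ x)).trans ?_
      rw [add_mul]
      gcongr
      by_cases hx : x ∈ Ioc (-T - R) (-T + s)
      · rw [indicator_of_mem hx, indicator_of_mem hx]
      · rw [indicator_of_notMem hx, zero_mul]
        exact zero_le
    have h5 : ∫⁻ x, (av fun α => ph (-T) b (x - R * cos α)) * ℓ x < ∞ := by
      have h6 : ∫⁻ x, (av fun α => ph (-T) b (x - R * cos α)) * ℓ x ≤ ENNReal.ofReal (-T - b) * ∫⁻ x in Icc (b - R) (-T + R), ℓ x := by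
        rw [← lintegral_const_mul _ hℓm, ← lintegral_indicator measurableSet_Icc]
        refine lintegral_mono fun x => ?_
        by_cases hx : x ∈ Icc (b - R) (-T + R)
        · rw [indicator_of_mem hx]
          gcongr
          exact av_le_const fun α => ph_le
        · have : (av fun α => ph (-T) b (x - R * cos α)) ≤ 0 := by
            refine av_le_const fun α => ?_
            have e1 := cos_le_one α
            have e2 := neg_one_le_cos α
            rw [mem_Icc, not_and_or, not_le, not_le] at hx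
            rcases hx with hx | hx
            · rw [ph_zero' (by nlinarith)]
            · rw [ph_zero (by nlinarith)]
          rw [le_zero_iff.1 this, zero_mul]
          exact zero_le
      refine h6.trans_lt (ENNReal.mul_lt_top ENNReal.ofReal_lt_top ?_)
      rw [hℓ]
      exact hfin _ _ (by linarith)
    have h7 : ∫⁻ x, ph (-T) b x = ENNReal.ofReal ((-T - b) ^ 2 / 2) := by
      have h8 : ∫⁻ x, ph (-T) b x = ∫⁻ x in Icc b (-T), ENNReal.ofReal (x - b) := by
        rw [← lintegral_indicator measurableSet_Icc]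
        refine lintegral_congr fun x => ?_
        by_cases hx : x ∈ Icc b (-T)
        · rw [indicator_of_mem hx]
          unfold ph
          rw [indicator_of_mem (mem_Iic.2 hx.2)]
        · rw [indicator_of_notMem hx]
          rw [mem_Icc, not_and_or, not_le, not_le] at hx
          rcases hx with hx | hx
          · exact ph_zero' hx.le
          · exact ph_zero hx
      have h9 : IntegrableOn (fun x : ℝ => x - b) (Icc b (-T)) :=
        (Continuous.continuousOn (by fun_prop)).integrableOn_compact isCompact_Icc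
      rw [h8, ← ofReal_integral_eq_lintegral_ofReal h9 ((ae_restrict_iff' measurableSet_Icc).2
        (Filter.Eventually.of_forall fun x hx => by simpa using hx.1)), integral_Icc_eq_integral_Ioc,
        ← intervalIntegral.integral_of_le (by linarith), intervalIntegral.integral_sub
          (Continuous.intervalIntegrable (by fun_prop) _ _) intervalIntegrable_const, integral_id, intervalIntegral.integral_const]
      congr 1
      rw [smul_eq_mul]
      ring
    rw [h2, h3, h3, h7] at h1
    have h9 := h1.trans h4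
    exact (ENNReal.add_le_add_iff_left h5.ne).1 h9
  -- contradiction for large `-b`
  obtain ⟨I, hI⟩ : ∃ I : ℝ≥0∞, I = ∫⁻ x in Ioc (-T - R) (-T + s), ℓ x := ⟨_, rfl⟩
  have hIfin : I < ∞ := by
    rw [hI]
    refine (lintegral_mono_set Ioc_subset_Icc_self).trans_lt ?_
    rw [hℓ]
    exact hfin _ _ (by linarith)
  obtain ⟨u, hu⟩ : ∃ u : ℝ, u = I.toReal + 1 := ⟨_, rfl⟩
  have hu0 : 0 < u := by
    rw [hu]
    positivity
  have h1 := key (-T - u) (by linarith)
  rw [← hI, ← ENNReal.ofReal_toReal hIfin.ne] at h1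
  have h2 : -T - (-T - u) = u := by ring
  rw [h2, ← ENNReal.ofReal_mul (by positivity), ← ENNReal.ofReal_mul hu0.le, ENNReal.ofReal_le_ofReal_iff (by positivity)] at h1
  have h3 : π * u ^ 2 ≤ u * I.toReal := by linarith
  have h4 : π * u ≤ I.toReal := by
    have : u * (π * u) ≤ u * I.toReal := by linarith
    exact le_of_mul_le_mul_left this hu0
  have h5 := pi_gt_three
  have h6 : 0 ≤ I.toReal := ENNReal.toReal_nonneg
  nlinarith

private lemma cm_eq (x y R θ : ℝ) : circleMap ((x : ℂ) + y * Complex.I) R θ = ((x + R * cos θ : ℝ) : ℂ) + ((y + R * sin θ : ℝ) : ℂ) * Complex.I := by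
  rw [circleMap, Complex.exp_mul_I, ← Complex.ofReal_cos, ← Complex.ofReal_sin]
  push_cast
  ring

/-- A nonnegative function with period `2 π i` on the half plane `re w < 0` does not satisfy `mean over the circle of radius R ≤ mean over the circle of
radius s - 1` far out. -/
theorem no_descent {L : ℂ → ℝ} (hm : Measurable L) (h0 : ∀ w, 0 ≤ L w) (hper : ∀ w : ℂ, w.re < 0 → L (w + 2 * π * Complex.I) = L w)
    (hloc : LocallyIntegrableOn L {w | w.re < 0}) {s R T : ℝ} (hs : 0 ≤ s) (hsR : s ≤ R) (hR : 0 < R) (hRT : R < T)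
    (hci : ∀ w : ℂ, w.re ≤ -T → ∀ t, 0 ≤ t → t ≤ R → CircleIntegrable L w t)
    (h : ∀ᵐ w : ℂ, w.re ≤ -T → circleAverage L w R ≤ circleAverage L w s - 1) : False := by
  have hmk : Measurable fun p : ℝ × ℝ => ((p.1 : ℂ) + p.2 * Complex.I) := by fun_prop
  have hπ : (0 : ℝ) ≤ 2 * π := by positivity
  refine no_descent_lintegral (Λ := fun x y => ENNReal.ofReal (L (x + y * Complex.I))) ?_ ?_ ?_ hs hsR hR hRT ?_
  · exact ENNReal.measurable_ofReal.comp (hm.comp hmk)
  · intro x hx y
    have h1 := hper (x + y * Complex.I) (by simpa using hx)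
    rw [← h1]
    congr 2
    push_cast
    ring
  · intro a b hb
    have hK : IsCompact (Complex.equivRealProdCLM.symm '' (Icc a b ×ˢ Icc 0 (2 * π))) :=
      (isCompact_Icc.prod isCompact_Icc).image Complex.equivRealProdCLM.symm.continuous
    have hsub : Complex.equivRealProdCLM.symm '' (Icc a b ×ˢ Icc 0 (2 * π)) ⊆ {w | w.re < 0} := by
      rintro _ ⟨p, hp, rfl⟩
      have h1 : (Complex.equivRealProdCLM.symm p).re = p.1 := by simp [Complex.equivRealProdCLM_symm_apply_re]
      show (Complex.equivRealProdCLM.symm p).re < 0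
      rw [h1]
      exact hp.1.2.trans_lt hb
    have hint := hloc.integrableOn_compact_subset hsub hK
    have h2 : IntegrableOn (fun p : ℝ × ℝ => L (p.1 + p.2 * Complex.I)) (Icc a b ×ˢ Icc 0 (2 * π)) := by
      have h3 := (Complex.volume_preserving_equiv_real_prod.symm).integrableOn_image
        (Complex.measurableEquivRealProd.symm.measurableEmbedding) (f := L) (s := Icc a b ×ˢ Icc 0 (2 * π))
      have h4 : (fun p : ℝ × ℝ => L (p.1 + p.2 * Complex.I)) = L ∘ Complex.measurableEquivRealProd.symm := by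
        funext p
        simp only [comp_apply]
        congr 1
        apply Complex.ext <;> simp [Complex.measurableEquivRealProd]
      rw [h4]
      exact h3.1 hint
    have h5 : IntegrableOn (fun p : ℝ × ℝ => L (p.1 + p.2 * Complex.I)) (Icc a b ×ˢ Ioc 0 (2 * π)) :=
      h2.mono_set (prod_mono le_rfl Ioc_subset_Icc_self)
    have h6 : ∫⁻ p in Icc a b ×ˢ Ioc 0 (2 * π), ENNReal.ofReal (L (p.1 + p.2 * Complex.I)) < ∞ := by
      have h7 := h5.2
      rw [hasFiniteIntegral_iff_ofReal (Filter.Eventually.of_forall fun p => h0 _)] at h7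
      exact h7
    have hmm : Measurable fun p : ℝ × ℝ => ENNReal.ofReal (L (p.1 + p.2 * Complex.I)) := ENNReal.measurable_ofReal.comp (hm.comp hmk)
    rw [Measure.volume_eq_prod, ← Measure.prod_restrict, lintegral_prod _ hmm.aemeasurable] at h6
    exact h6
  · have h1 : ∀ᵐ p : ℝ × ℝ, (Complex.measurableEquivRealProd.symm p).re ≤ -T →
        circleAverage L (Complex.measurableEquivRealProd.symm p) R ≤ circleAverage L (Complex.measurableEquivRealProd.symm p) s - 1 :=
      (Complex.volume_preserving_equiv_real_prod.symm).quasiMeasurePreserving.ae h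
    filter_upwards [h1] with p hp hpT
    have h2 : Complex.measurableEquivRealProd.symm p = (p.1 : ℂ) + p.2 * Complex.I := by
      apply Complex.ext <;> simp [Complex.measurableEquivRealProd]
    rw [h2] at hp
    have hre : ((p.1 : ℂ) + p.2 * Complex.I).re = p.1 := by simp
    rw [hre] at hp
    have h3 := hp hpT
    have h4 : ∀ t, 0 ≤ t → t ≤ R → ENNReal.ofReal (circleAverage L ((p.1 : ℂ) + p.2 * Complex.I) t) =
        (ENNReal.ofReal (2 * π))⁻¹ * ∫⁻ α in Ioc 0 (2 * π), ENNReal.ofReal (L ((p.1 + t * cos α : ℝ) + (p.2 + t * sin α : ℝ) * Complex.I)) := by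
      intro t ht htR
      have hci' := hci ((p.1 : ℂ) + p.2 * Complex.I) (by rw [hre]; exact hpT) t ht htR
      have hci2 : IntegrableOn (fun θ => L (circleMap ((p.1 : ℂ) + p.2 * Complex.I) t θ)) (Ioc 0 (2 * π)) := by
        have h5 : IntervalIntegrable (fun θ => L (circleMap ((p.1 : ℂ) + p.2 * Complex.I) t θ)) volume 0 (2 * π) := hci'
        rwa [intervalIntegrable_iff_integrableOn_Ioc_of_le hπ] at h5
      rw [circleAverage_def, smul_eq_mul, ENNReal.ofReal_mul (by positivity), ENNReal.ofReal_inv_of_pos (by positivity),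
        intervalIntegral.integral_of_le hπ, ofReal_integral_eq_lintegral_ofReal hci2 (Filter.Eventually.of_forall fun θ => h0 _)]
      simp only [cm_eq]
    have h5 : 0 ≤ circleAverage L ((p.1 : ℂ) + p.2 * Complex.I) R := circleAverage_nonneg_of_nonneg fun z _ => h0 z
    have h6 : ENNReal.ofReal (circleAverage L ((p.1 : ℂ) + p.2 * Complex.I) R) + 1 ≤ ENNReal.ofReal (circleAverage L ((p.1 : ℂ) + p.2 * Complex.I) s) := by
      rw [← ENNReal.ofReal_one, ← ENNReal.ofReal_add h5 zero_le_one]
      exact ENNReal.ofReal_le_ofReal (by linarith)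
    rw [h4 R hR.le le_rfl, h4 s hs hsR] at h6
    exact h6

end Pool.Agent.H56.G3
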