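import Pool.Agent.H56.G3.Rad

/-!
# G3 HL: a Harnack inequality from a root-log estimate and two Jensen inequalities (linear Gronwall)
-/

set_option autoImplicit false

open Set MeasureTheory Metric Real

namespace Pool.Agent.H56.G3

/-- Gronwall -/
private lemma gron {a : ℝ → ℝ} {E K r₀ : ℝ} (ha : ContinuousOn a (Icc 0 r₀)) (hK : 0 ≤ K) (hE : 0 ≤ E)
    (h : ∀ r ∈ Icc 0 r₀, a r ≤ K * (E + ∫ ρ in (0 : ℝ)..r, a ρ)) {r : ℝ} (hr : r ∈ Icc 0 r₀) :
    E + ∫ ρ in (0 : ℝ)..r, a ρ ≤ E * Real.exp (K * r) := by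
  have hr₀ : 0 ≤ r₀ := hr.1.trans hr.2
  have hAc : ContinuousOn (fun r => ∫ ρ in (0 : ℝ)..r, a ρ) (Icc 0 r₀) := by
    have h1 := intervalIntegral.continuousOn_primitive_interval (a := 0) (b := r₀) (f := a) (μ := volume)
      (by rw [uIcc_of_le hr₀]; exact ha.integrableOn_compact isCompact_Icc)
    rwa [uIcc_of_le hr₀] at h1
  have hAd : ∀ x ∈ Ioo 0 r₀, HasDerivAt (fun r => ∫ ρ in (0 : ℝ)..r, a ρ) (a x) x := by
    intro x hx
    refine intervalIntegral.integral_hasDerivAt_right ?_ ?_ ?_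
    · apply ContinuousOn.intervalIntegrable
      rw [uIcc_of_le hx.1.le]
      exact ha.mono (Icc_subset_Icc le_rfl hx.2.le)
    · exact ContinuousOn.stronglyMeasurableAtFilter_nhdsWithin (ha.mono Ioo_subset_Icc_self) measurableSet_Ioo x |>.filter_mono
        (by rw [isOpen_Ioo.nhdsWithin_eq hx])
    · exact ha.continuousAt (Icc_mem_nhds hx.1 hx.2)
  obtain ⟨g, hg⟩ : ∃ g : ℝ → ℝ, g = fun r => (E + ∫ ρ in (0 : ℝ)..r, a ρ) * Real.exp (-(K * r)) := ⟨_, rfl⟩
  have hgd : ∀ x ∈ Ioo 0 r₀, HasDerivAt g (a x * Real.exp (-(K * x)) + (E + ∫ ρ in (0 : ℝ)..x, a ρ) * (Real.exp (-(K * x)) * -K)) x := by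
    intro x hx
    rw [hg]
    have h1 : HasDerivAt (fun r => Real.exp (-(K * r))) (Real.exp (-(K * x)) * -K) x := by
      have h2 : HasDerivAt (fun r => -(K * r)) (-K) x := by
        have h3 : HasDerivAt (fun r : ℝ => -K * r) (-K) x := by simpa using (hasDerivAt_id x).const_mul (-K)
        refine h3.congr_of_eventuallyEq (Filter.Eventually.of_forall fun y => ?_)
        simp only
        ring
      exact h2.exp
    exact ((hAd x hx).const_add E).mul h1
  have hanti : AntitoneOn g (Icc 0 r₀) := by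
    refine antitoneOn_of_deriv_nonpos (convex_Icc 0 r₀) ?_ ?_ ?_
    · rw [hg]
      exact (continuousOn_const.add hAc).mul (by fun_prop)
    · rw [interior_Icc]
      exact fun x hx => (hgd x hx).differentiableAt.differentiableWithinAt
    · rw [interior_Icc]
      intro x hx
      rw [(hgd x hx).deriv]
      have h1 := h x ⟨hx.1.le, hx.2.le⟩
      have h2 := Real.exp_pos (-(K * x))
      nlinarith
  have h1 := hanti ⟨le_rfl, hr₀⟩ hr hr.1
  rw [hg] at h1
  simp only [intervalIntegral.integral_same, mul_zero, neg_zero, Real.exp_zero, mul_one, add_zero] at h1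
  have h2 := Real.exp_pos (K * r)
  have h3 : Real.exp (-(K * r)) * Real.exp (K * r) = 1 := by rw [← Real.exp_add, neg_add_cancel, Real.exp_zero]
  calc E + ∫ ρ in (0 : ℝ)..r, a ρ = ((E + ∫ ρ in (0 : ℝ)..r, a ρ) * Real.exp (-(K * r))) * Real.exp (K * r) := by rw [mul_assoc, h3, mul_one]
    _ ≤ E * Real.exp (K * r) := mul_le_mul_of_nonneg_right h1 h2.le

/-- the positive part of `P` -/
private lemma pos_le {P v C m ε : ℝ} (hm : 0 < m) (hC : 0 < C) (hε : 0 < ε) (hv : 1 ≤ v) (h : Real.exp (2 * P / m) ≤ C * v) :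
    max P 0 ≤ m / 2 * (ε * (C * v)) + m / 2 * |Real.log ε| := by
  have h0 : 0 < C * v := by positivity
  refine max_le ?_ (by positivity)
  have h1 : 2 * P / m ≤ Real.log (C * v) := by rwa [Real.le_log_iff_exp_le h0]
  have h2 : Real.log (ε * (C * v)) ≤ ε * (C * v) - 1 := Real.log_le_sub_one_of_pos (by positivity)
  rw [Real.log_mul hε.ne' h0.ne'] at h2
  have h3 := neg_abs_le (Real.log ε)
  have h4 : 2 * P / m ≤ ε * (C * v) + |Real.log ε| := by linarith
  rw [div_le_iff₀ hm] at h4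
  linarith

private lemma ca_mono_ae {f g : ℂ → ℝ} {r : ℝ} (hf : CircleIntegrable f 0 r) (hg : CircleIntegrable g 0 r)
    (h : ∀ᵐ θ : ℝ, f (circleMap 0 r θ) ≤ g (circleMap 0 r θ)) : circleAverage f 0 r ≤ circleAverage g 0 r := by
  rw [circleAverage_def, circleAverage_def, smul_eq_mul, smul_eq_mul]
  refine mul_le_mul_of_nonneg_left ?_ (by positivity)
  exact intervalIntegral.integral_mono_ae (by positivity) hf hg h

/-- **Harnack inequality.**  `L ≥ 0` and `P` are functions on the unit disc, `T ≥ 0` and `h` is holomorphic.  If `‖h'‖ ^ 2` and `exp (2 P / m)` are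
at most `C (1 + L + P⁻)` on the disc of radius `1/2`, and if `L`, `P` satisfy the Jensen inequalities with the characteristic `T`, then the means of `‖h'‖ ^ 2`, `L`, `P⁻` over the
circles of radius at most `1/2` are bounded by a constant times `1 + L 0 + P⁻ 0`. -/
theorem harnack (m c C : ℝ) (hm : 0 < m) (hc : 0 < c) (hC : 0 < C) : ∃ C' : ℝ, 0 < C' ∧
    ∀ (W : Type) [NormedAddCommGroup W] [NormedSpace ℂ W] [CompleteSpace W] (h : ℂ → W) (L P : ℂ → ℝ) (T : ℝ → ℝ),
      DifferentiableOn ℂ h (ball 0 1) → (∀ z, 0 ≤ L z) → (∀ r, 0 < r → r ≤ 1 / 2 → CircleIntegrable L 0 r) →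
      (∀ r, 0 < r → r ≤ 1 / 2 → CircleIntegrable P 0 r) → (∀ r, 0 < r → r ≤ 1 / 2 → 0 ≤ T r) →
      (∀ r, 0 < r → r ≤ 1 / 2 → ∀ᵐ θ : ℝ, ‖deriv h (circleMap 0 r θ)‖ ^ 2 ≤ C * (1 + L (circleMap 0 r θ) + max (-P (circleMap 0 r θ)) 0) ∧
        Real.exp (2 * P (circleMap 0 r θ) / m) ≤ C * (1 + L (circleMap 0 r θ) + max (-P (circleMap 0 r θ)) 0)) →
      (∀ r, 0 < r → r ≤ 1 / 2 → circleAverage L 0 r ≤ L 0 + C * T r) →
      (∀ r, 0 < r → r ≤ 1 / 2 → P 0 + c * T r - C * circleAverage (fun z => ‖h z - h 0‖ ^ 2) 0 r ≤ circleAverage P 0 r) →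
      ∀ r, 0 < r → r ≤ 1 / 2 → circleAverage (fun z => ‖deriv h z‖ ^ 2) 0 r ≤ C' * (1 + L 0 + max (-P 0) 0) ∧
        circleAverage L 0 r ≤ C' * (1 + L 0 + max (-P 0) 0) ∧ circleAverage (fun z => max (-P z) 0) 0 r ≤ C' * (1 + L 0 + max (-P 0) 0) := by
  -- constants
  obtain ⟨D, hD⟩ : ∃ D : ℝ, D = 1 + C / c := ⟨_, rfl⟩
  have hD1 : 1 ≤ D := by
    rw [hD]
    have : 0 < C / c := by positivity
    linarith
  have hD0 : 0 < D := by linarith
  obtain ⟨ε, hε⟩ : ∃ ε : ℝ, ε = 1 / (m * C * D) := ⟨_, rfl⟩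
  have hε0 : 0 < ε := by rw [hε]; positivity
  obtain ⟨K₀, hK₀⟩ : ∃ K₀ : ℝ, K₀ = m / 2 * |Real.log ε| := ⟨_, rfl⟩
  have hK₀0 : 0 ≤ K₀ := by rw [hK₀]; positivity
  obtain ⟨K₁, hK₁⟩ : ∃ K₁ : ℝ, K₁ = 2 * (1 + D * (K₀ + 1 + C)) := ⟨_, rfl⟩
  have hK₁0 : 0 < K₁ := by rw [hK₁]; positivity
  obtain ⟨K₂, hK₂⟩ : ∃ K₂ : ℝ, K₂ = C * K₁ := ⟨_, rfl⟩
  have hK₂0 : 0 < K₂ := by rw [hK₂]; positivity
  refine ⟨(K₁ + K₂) * Real.exp K₂, by positivity, ?_⟩
  intro W _ _ _ h L P T hh hL0 hLi hPi hT0 hroot hJL hJP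
  obtain ⟨E, hE⟩ : ∃ E : ℝ, E = 1 + L 0 + max (-P 0) 0 := ⟨_, rfl⟩
  have hP0 : 0 ≤ max (-P 0) 0 := le_max_right _ _
  have hE1 : 1 ≤ E := by
    rw [hE]
    have := hL0 0
    linarith
  rw [← hE]
  obtain ⟨a, ha⟩ : ∃ a : ℝ → ℝ, a = circleAverage (fun z => ‖deriv h z‖ ^ 2) 0 := ⟨_, rfl⟩
  have hdc : ContinuousOn (deriv h) (ball 0 1) := (hh.deriv isOpen_ball).continuousOn
  have hac : ContinuousOn a (Icc 0 (1 / 2)) := by
    rw [ha]
    refine ContinuousOn.circleAverage ((hdc.norm.pow 2).mono ?_) fun t ht => ht.1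
    intro z hz
    simp only [mem_ofPred_eq, sub_zero, mem_Icc] at hz
    rw [mem_ball_zero_iff]
    linarith [hz.2]
  have ha0 : ∀ r, 0 ≤ a r := by
    intro r
    rw [ha]
    exact circleAverage_nonneg_of_nonneg fun z _ => sq_nonneg _
  -- the main estimate
  have hmain : ∀ r, 0 < r → r ≤ 1 / 2 → circleAverage L 0 r ≤ K₁ * (E + ∫ ρ in (0 : ℝ)..r, a ρ) ∧
      circleAverage (fun z => max (-P z) 0) 0 r ≤ K₁ * (E + ∫ ρ in (0 : ℝ)..r, a ρ) ∧ a r ≤ K₂ * (E + ∫ ρ in (0 : ℝ)..r, a ρ) := by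
    intro r hr hr1
    have hLr := hLi r hr hr1
    have hPr := hPi r hr hr1
    have hPn : CircleIntegrable (fun z => max (-P z) 0) 0 r := by
      have h1 : CircleIntegrable (fun z => -P z) 0 r := hPr.neg
      have h2 : IntervalIntegrable (fun θ => -P (circleMap 0 r θ)) volume 0 (2 * π) := h1
      have h3 : IntegrableOn (fun θ => -P (circleMap 0 r θ)) (Ioc 0 (2 * π)) := by
        rwa [intervalIntegrable_iff_integrableOn_Ioc_of_le (by positivity)] at h2
      show IntervalIntegrable (fun θ => max (-P (circleMap 0 r θ)) 0) volume 0 (2 * π)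
      rw [intervalIntegrable_iff_integrableOn_Ioc_of_le (by positivity)]
      exact Integrable.pos_part h3
    have hPp : CircleIntegrable (fun z => max (P z) 0) 0 r := by
      have h2 : IntervalIntegrable (fun θ => P (circleMap 0 r θ)) volume 0 (2 * π) := hPr
      have h3 : IntegrableOn (fun θ => P (circleMap 0 r θ)) (Ioc 0 (2 * π)) := by
        rwa [intervalIntegrable_iff_integrableOn_Ioc_of_le (by positivity)] at h2
      show IntervalIntegrable (fun θ => max (P (circleMap 0 r θ)) 0) volume 0 (2 * π)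
      rw [intervalIntegrable_iff_integrableOn_Ioc_of_le (by positivity)]
      exact Integrable.pos_part h3
    have h1i : CircleIntegrable (fun _ : ℂ => (1 : ℝ)) 0 r := circleIntegrable_const _ _ _
    obtain ⟨ℓ, hℓ⟩ : ∃ ℓ : ℝ, ℓ = circleAverage L 0 r := ⟨_, rfl⟩
    obtain ⟨q, hq⟩ : ∃ q : ℝ, q = circleAverage (fun z => max (-P z) 0) 0 r := ⟨_, rfl⟩
    obtain ⟨p, hp⟩ : ∃ p : ℝ, p = circleAverage (fun z => max (P z) 0) 0 r := ⟨_, rfl⟩
    have hℓ0 : 0 ≤ ℓ := by rw [hℓ]; exact circleAverage_nonneg_of_nonneg fun z _ => hL0 z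
    have hq0 : 0 ≤ q := by rw [hq]; exact circleAverage_nonneg_of_nonneg fun z _ => le_max_right _ _
    have hpq : circleAverage P 0 r = p - q := by
      rw [hp, hq, ← circleAverage_fun_sub hPp hPn]
      congr 1
      funext z
      rcases le_total (P z) 0 with h3 | h3
      · rw [max_eq_right h3, max_eq_left (by linarith)]
        ring
      · rw [max_eq_left h3, max_eq_right (by linarith)]
        ring
    have hvi : CircleIntegrable (fun z => 1 + L z + max (-P z) 0) 0 r := (h1i.add hLr).add hPn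
    have hv : circleAverage (fun z => 1 + L z + max (-P z) 0) 0 r = 1 + ℓ + q := by
      rw [circleAverage_fun_add (f₁ := fun z => 1 + L z) (h1i.add hLr) hPn, circleAverage_fun_add h1i hLr, circleAverage_const, hℓ, hq]
    -- the three comparisons
    have hsm : ContinuousOn (fun z => ‖deriv h z‖ ^ 2) (sphere 0 r) := by
      refine (hdc.norm.pow 2).mono fun z hz => ?_
      rw [mem_sphere_zero_iff_norm] at hz
      rw [mem_ball_zero_iff]
      linarith
    have hai : CircleIntegrable (fun z => ‖deriv h z‖ ^ 2) 0 r := hsm.circleIntegrable hr.le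
    have hcv : ∀ b : ℝ, CircleIntegrable (fun z => b * (1 + L z + max (-P z) 0)) 0 r := fun b => by
      have := hvi.const_mul b
      exact this
    have hca : ∀ b : ℝ, circleAverage (fun z => b * (1 + L z + max (-P z) 0)) 0 r = b * (1 + ℓ + q) := fun b => by
      rw [← hv]
      exact circleAverage_fun_smul (a := b) (f := fun z => 1 + L z + max (-P z) 0)
    have har : a r ≤ C * (1 + ℓ + q) := by
      rw [ha, ← hca C]
      refine ca_mono_ae hai (hcv C) ?_
      filter_upwards [hroot r hr hr1] with θ hθ using hθ.1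
    have hpr : p ≤ 1 / (2 * D) * (1 + ℓ + q) + K₀ := by
      have h2 : circleAverage (fun z => 1 / (2 * D) * (1 + L z + max (-P z) 0) + K₀) 0 r = 1 / (2 * D) * (1 + ℓ + q) + K₀ := by
        rw [circleAverage_fun_add (f₁ := fun z => 1 / (2 * D) * (1 + L z + max (-P z) 0)) (hcv _) (circleIntegrable_const _ _ _), hca, circleAverage_const]
      rw [hp, ← h2]
      refine ca_mono_ae hPp ((hcv _).add (circleIntegrable_const _ _ _)) ?_
      filter_upwards [hroot r hr hr1] with θ hθ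
      have h3 : 1 ≤ 1 + L (circleMap 0 r θ) + max (-P (circleMap 0 r θ)) 0 := by
        have h4 := hL0 (circleMap 0 r θ)
        have h5 : 0 ≤ max (-P (circleMap 0 r θ)) 0 := le_max_right _ _
        linarith
      have h4 := pos_le hm hC hε0 h3 hθ.2
      rw [← hK₀] at h4
      refine h4.trans (le_of_eq ?_)
      rw [hε]
      field_simp
    -- the Jensen inequalities
    have hH : circleAverage (fun z => ‖h z - h 0‖ ^ 2) 0 r ≤ ∫ ρ in (0 : ℝ)..r, a ρ := by
      have h2 := mean_sq_le hh hr.le (by linarith : r < 1)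
      rw [← ha] at h2
      have h3 : 0 ≤ ∫ ρ in (0 : ℝ)..r, a ρ := intervalIntegral.integral_nonneg hr.le fun ρ _ => ha0 ρ
      nlinarith
    have hj1 := hJL r hr hr1
    have hj2 := hJP r hr hr1
    have hT := hT0 r hr hr1
    obtain ⟨I, hI⟩ : ∃ I : ℝ, I = ∫ ρ in (0 : ℝ)..r, a ρ := ⟨_, rfl⟩
    have hI0 : 0 ≤ I := by rw [hI]; exact intervalIntegral.integral_nonneg hr.le fun ρ _ => ha0 ρ
    rw [← hI] at hH ⊢
    rw [← hℓ] at hj1 ⊢
    rw [← hq]
    rw [hpq] at hj2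
    have hnP : -P 0 ≤ max (-P 0) 0 := le_max_left _ _
    have hCH : C * circleAverage (fun z => ‖h z - h 0‖ ^ 2) 0 r ≤ C * I := mul_le_mul_of_nonneg_left hH hC.le
    have h5 : c * T r + q ≤ p + max (-P 0) 0 + C * I := by linarith
    have h6 : ℓ + q ≤ L 0 + D * (p + max (-P 0) 0 + C * I) := by
      have h7 : C * T r ≤ C / c * (p + max (-P 0) 0 + C * I - q) := by
        have h8 : T r ≤ (p + max (-P 0) 0 + C * I - q) / c := by
          rw [le_div_iff₀ hc]
          linarith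
        have h9 := mul_le_mul_of_nonneg_left h8 hC.le
        calc C * T r ≤ _ := h9
          _ = _ := by ring
      have h10 : q ≤ p + max (-P 0) 0 + C * I := by
        have : 0 ≤ c * T r := by positivity
        linarith
      have h11 : 0 ≤ C / c * q := by positivity
      rw [hD]
      linarith
    have h7 : D * p ≤ 1 / 2 * (1 + ℓ + q) + D * K₀ := by
      have h8 := mul_le_mul_of_nonneg_left hpr hD0.le
      have h9 : D * (1 / (2 * D) * (1 + ℓ + q) + K₀) = 1 / 2 * (1 + ℓ + q) + D * K₀ := by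
        field_simp
      linarith
    have hyE : 1 + ℓ + q ≤ K₁ * (E + I) := by
      have h8 : 1 / 2 * (1 + ℓ + q) ≤ 1 + L 0 + D * (K₀ + max (-P 0) 0 + C * I) := by linarith
      have h9 : L 0 ≤ E := by rw [hE]; linarith
      have h10 : max (-P 0) 0 ≤ E := by rw [hE]; linarith [hL0 0]
      have h11 : K₀ + max (-P 0) 0 + C * I ≤ (K₀ + 1 + C) * (E + I) := by
        have e1 : K₀ ≤ K₀ * (E + I) := le_mul_of_one_le_right hK₀0 (by linarith)
        have e2 : C * I ≤ C * (E + I) := mul_le_mul_of_nonneg_left (by linarith) hC.le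
        linarith
      have h12 := mul_le_mul_of_nonneg_left h11 hD0.le
      have h13 : 1 + L 0 ≤ E + I := by rw [hE]; linarith
      rw [hK₁]
      linarith
    refine ⟨by linarith, by linarith, ?_⟩
    rw [hK₂, mul_assoc]
    exact har.trans (mul_le_mul_of_nonneg_left hyE hC.le)
  -- Gronwall
  have ha00 : a 0 ≤ K₂ * (E + ∫ ρ in (0 : ℝ)..0, a ρ) := by
    have h1 : Filter.Tendsto a (nhdsWithin 0 (Ioi 0)) (nhds (a 0)) := by
      refine (hac 0 ⟨le_rfl, by norm_num⟩).mono_left (nhdsWithin_le_of_mem ?_)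
      exact Filter.mem_of_superset (Ioo_mem_nhdsGT (show (0 : ℝ) < 1 / 2 by norm_num)) fun x hx => ⟨hx.1.le, hx.2.le⟩
    have h2 : Filter.Tendsto (fun r => K₂ * (E + ∫ ρ in (0 : ℝ)..r, a ρ)) (nhdsWithin 0 (Ioi 0)) (nhds (K₂ * (E + ∫ ρ in (0 : ℝ)..0, a ρ))) := by
      have h3 := intervalIntegral.continuousOn_primitive_interval (a := 0) (b := 1 / 2) (f := a) (μ := volume)
        (by rw [uIcc_of_le (by norm_num : (0 : ℝ) ≤ 1 / 2)]; exact hac.integrableOn_compact isCompact_Icc)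
      rw [uIcc_of_le (by norm_num : (0 : ℝ) ≤ 1 / 2)] at h3
      have h4 : Filter.Tendsto (fun r => ∫ ρ in (0 : ℝ)..r, a ρ) (nhdsWithin 0 (Ioi 0)) (nhds (∫ ρ in (0 : ℝ)..0, a ρ)) := by
        refine (h3 0 ⟨le_rfl, by norm_num⟩).mono_left (nhdsWithin_le_of_mem ?_)
        exact Filter.mem_of_superset (Ioo_mem_nhdsGT (show (0 : ℝ) < 1 / 2 by norm_num)) fun x hx => ⟨hx.1.le, hx.2.le⟩
      exact (h4.const_add E).const_mul K₂
    refine le_of_tendsto_of_tendsto h1 h2 ?_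
    filter_upwards [Ioo_mem_nhdsGT (show (0 : ℝ) < 1 / 2 by norm_num)] with x hx
    exact (hmain x hx.1 hx.2.le).2.2
  have hgr : ∀ r, 0 < r → r ≤ 1 / 2 → E + ∫ ρ in (0 : ℝ)..r, a ρ ≤ E * Real.exp K₂ := by
    intro r hr hr1
    have h1 := gron hac hK₂0.le (by linarith : 0 ≤ E) (fun s hs => by
      rcases hs.1.eq_or_lt with h2 | h2
      · rw [← h2]
        exact ha00
      · exact (hmain s h2 hs.2).2.2) (⟨hr.le, hr1⟩ : r ∈ Icc 0 (1 / 2))
    refine h1.trans (mul_le_mul_of_nonneg_left (Real.exp_le_exp.2 ?_) (by linarith))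
    nlinarith
  intro r hr hr1
  obtain ⟨h1, h2, h3⟩ := hmain r hr hr1
  have h4 := hgr r hr hr1
  have hex : 0 < Real.exp K₂ := Real.exp_pos _
  have h5 : K₁ * (E + ∫ ρ in (0 : ℝ)..r, a ρ) ≤ (K₁ + K₂) * Real.exp K₂ * E := by
    have h6 := mul_le_mul_of_nonneg_left h4 hK₁0.le
    have h7 : 0 ≤ K₂ * (E * Real.exp K₂) := by positivity
    nlinarith
  have h6 : K₂ * (E + ∫ ρ in (0 : ℝ)..r, a ρ) ≤ (K₁ + K₂) * Real.exp K₂ * E := by
    have h6 := mul_le_mul_of_nonneg_left h4 hK₂0.le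
    have h7 : 0 ≤ K₁ * (E * Real.exp K₂) := by positivity
    nlinarith
  have har : circleAverage (fun z => ‖deriv h z‖ ^ 2) 0 r = a r := by rw [ha]
  rw [har]
  exact ⟨h3.trans h6, h1.trans h5, h2.trans h5⟩

end Pool.Agent.H56.G3
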