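import Mathlib

/-!
# H56 G3 LogInt: integrability of `log ‖q‖` for a holomorphic function `q`

* `locInt_log`: `log ‖q‖` is locally integrable on `U` (Lebesgue measure of `ℂ`);
* `circ_log`: it is integrable on circles;
* `zeros_ae`: the zeros of `q` have measure `0` on circles and in `U`.
-/

set_option autoImplicit false

open Topology Filter Metric MeasureTheory Set

namespace Pool.Agent.H56.G3

/-- `log ‖w‖` is integrable on discs -/
theorem log_norm_int (r : ℝ) : IntegrableOn (fun w : ℂ => Real.log ‖w‖) (ball 0 r) := by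
  have h1 : IntegrableOn (fun y : ℝ => y ^ (Module.finrank ℝ ℂ - 1) • Real.log y) (Ioo 0 r) := by
    have h2 : Continuous fun y : ℝ => y * Real.log y := Real.continuous_mul_log
    have h3 : IntegrableOn (fun y : ℝ => y * Real.log y) (Icc 0 r) := h2.continuousOn.integrableOn_compact isCompact_Icc
    refine (h3.mono_set Ioo_subset_Icc_self).congr_fun (fun y _ => ?_) measurableSet_Ioo
    simp [Complex.finrank_real_complex]
  exact integrableOn_fun_norm_addHaar (volume : Measure ℂ) |>.2 h1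

theorem log_sub_int (x : ℂ) (r : ℝ) : IntegrableOn (fun w : ℂ => Real.log ‖w - x‖) (ball x r) := by
  have h1 := (measurePreserving_sub_right (volume : Measure ℂ) x).integrableOn_comp_preimage (MeasurableEquiv.subRight x).measurableEmbedding
    (f := fun w : ℂ => Real.log ‖w‖) (s := ball 0 r)
  have h2 := h1.2 (log_norm_int r)
  have h3 : (fun w : ℂ => w - x) ⁻¹' ball 0 r = ball x r := by
    ext w
    simp [dist_eq_norm]
  rw [h3] at h2
  exact h2

/-- the zeros are countable -/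
theorem zeros_countable {q : ℂ → ℂ} {U : Set ℂ} (hU : IsOpen U) (hc : IsPreconnected U) (hq : DifferentiableOn ℂ q U)
    (h0 : ∃ w ∈ U, q w ≠ 0) : {w ∈ U | q w = 0}.Countable := by
  obtain ⟨w, hw, hqw⟩ := h0
  have ha : AnalyticOnNhd ℂ q U := hq.analyticOnNhd hU
  have hs : q ⁻¹' {0}ᶜ ∈ codiscreteWithin U := ha.preimage_zero_mem_codiscreteWithin hqw hw ⟨⟨w, hw⟩, hc⟩
  have : DiscreteTopology ↑((q ⁻¹' {0}ᶜ)ᶜ ∩ U) := isDiscrete_iff_discreteTopology.mp
    <| isDiscrete_of_codiscreteWithin ((compl_compl (q ⁻¹' {0}ᶜ)).symm ▸ hs)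
  have h1 : ((q ⁻¹' {0}ᶜ)ᶜ ∩ U).Countable := TopologicalSpace.separableSpace_iff_countable.1 inferInstance
  refine h1.mono ?_
  rintro z ⟨hz, hqz⟩
  exact ⟨fun h => h hqz, hz⟩

theorem locInt_log {q : ℂ → ℂ} {U : Set ℂ} (hU : IsOpen U) (hc : IsPreconnected U) (hq : DifferentiableOn ℂ q U)
    (h0 : ∃ w ∈ U, q w ≠ 0) : LocallyIntegrableOn (fun w => Real.log ‖q w‖) U := by
  intro x hx
  have ha : AnalyticOnNhd ℂ q U := hq.analyticOnNhd hU
  have hne : ¬ ∀ᶠ z in 𝓝 x, q z = 0 := by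
    intro h
    obtain ⟨w, hw, hqw⟩ := h0
    exact hqw (ha.eqOn_zero_of_preconnected_of_eventuallyEq_zero hc hx h hw)
  obtain ⟨n, g, hg, hg0, hgq⟩ := (ha x hx).exists_eventuallyEq_pow_smul_nonzero_iff.2 hne
  -- `log ‖g‖` is continuous near `x`
  have hev : ∀ᶠ z in 𝓝 x, AnalyticAt ℂ g z ∧ g z ≠ 0 ∧ q z = (z - x) ^ n • g z :=
    hg.eventually_analyticAt.and ((hg.continuousAt.eventually_ne hg0).and hgq)
  obtain ⟨δ, hδ, hball⟩ := Metric.eventually_nhds_iff_ball.1 hev
  have hcomp : IntegrableOn (fun z => Real.log ‖g z‖) (closedBall x (δ / 2)) := by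
    refine ContinuousOn.integrableOn_compact (isCompact_closedBall x (δ / 2)) ?_
    intro z hz
    have hz' : z ∈ ball x δ := closedBall_subset_ball (by linarith) hz
    obtain ⟨h1, h2, -⟩ := hball z hz'
    exact (h1.continuousAt.norm.log (norm_ne_zero_iff.2 h2)).continuousWithinAt
  have hint : IntegrableOn (fun z => (n : ℝ) * Real.log ‖z - x‖ + Real.log ‖g z‖) (ball x (δ / 2)) := by
    have h1 : IntegrableOn (fun z : ℂ => (n : ℝ) * Real.log ‖z - x‖) (ball x (δ / 2)) := (log_sub_int x (δ / 2)).const_mul _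
    exact h1.add (hcomp.mono_set ball_subset_closedBall)
  have hint2 : IntegrableOn (fun z => Real.log ‖q z‖) (ball x (δ / 2)) := by
    refine hint.congr_fun_ae ?_
    have hx0 : ∀ᵐ z ∂(volume.restrict (ball x (δ / 2))), z ≠ x := by
      refine ae_restrict_of_ae ?_
      rw [ae_iff]
      simp
    filter_upwards [ae_restrict_mem measurableSet_ball, hx0] with z hz hzx
    obtain ⟨-, h2, h3⟩ := hball z (ball_subset_ball (by linarith) hz)
    rw [h3, norm_smul, norm_pow, Real.log_mul (pow_ne_zero _ (norm_ne_zero_iff.2 (sub_ne_zero.2 hzx))) (norm_ne_zero_iff.2 h2), Real.log_pow]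
  exact ⟨ball x (δ / 2), mem_nhdsWithin_of_mem_nhds (ball_mem_nhds x (by linarith)), hint2⟩

theorem circ_log {q : ℂ → ℂ} {U : Set ℂ} (hU : IsOpen U) (_hc : IsPreconnected U) (hq : DifferentiableOn ℂ q U)
    (_h0 : ∃ w ∈ U, q w ≠ 0) {c : ℂ} {r : ℝ} (hr : 0 ≤ r) (hcr : closedBall c r ⊆ U) : CircleIntegrable (fun w => Real.log ‖q w‖) c r := by
  have h1 : MeromorphicOn q (sphere c r) := fun z hz => (hq.analyticAt (hU.mem_nhds (hcr (sphere_subset_closedBall hz)))).meromorphicAt
  exact MeromorphicOn.circleIntegrable_log_norm_of_nonneg h1 hr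

theorem zeros_ae {q : ℂ → ℂ} {U : Set ℂ} (hU : IsOpen U) (hc : IsPreconnected U) (hq : DifferentiableOn ℂ q U)
    (h0 : ∃ w ∈ U, q w ≠ 0) {c : ℂ} {r : ℝ} (hr : 0 < r) (hcr : closedBall c r ⊆ U) :
    (∀ᵐ θ : ℝ, q (circleMap c r θ) ≠ 0) ∧ ∀ᵐ w ∂(volume.restrict U), q w ≠ 0 := by
  have hcount := zeros_countable hU hc hq h0
  constructor
  · have h1 : (circleMap c r ⁻¹' {w ∈ U | q w = 0}).Countable := hcount.preimage_circleMap c hr.ne'
    rw [ae_iff]
    refine measure_mono_null ?_ (h1.measure_zero volume)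
    intro θ hθ
    have hθ' : q (circleMap c r θ) = 0 := by
      simpa using hθ
    exact ⟨hcr (sphere_subset_closedBall (circleMap_mem_sphere c hr.le θ)), hθ'⟩
  · rw [ae_restrict_iff' hU.measurableSet, ae_iff]
    refine measure_mono_null ?_ (hcount.measure_zero volume)
    intro w hw
    simp only [mem_ofPred_eq, Classical.not_imp, not_not] at hw
    exact hw

end Pool.Agent.H56.G3
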