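import Pool.Agent.G3.CvA
import Pool.Agent.H56.G3.LogInt
import Pool.Agent.H56.G3.Poi

/-!
# G3 Pc0: the three theorems used in the extension across punctures

`RootLog`: the logarithmic estimate of the derivative; `Ahl`: Ahlfors' lemma for `p`; `LCT`: the limit theorem.
-/

set_option autoImplicit false

open Topology Filter Metric

namespace Pool.Agent.H56.G3

open Pool.Agent.H36.BP (EN fs wd Sub)
open Pool.Agent.H14.PP (IsCone CurveAt Tan)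
open Pool.Agent.AD (Vd)
open Pool.Agent.TG (TMap Lat Gd)
open Pool.Agent.G3 (Cv PS QD Ok Lam Lq Np pf TT)

variable {N k : ℕ}

/-- the logarithmic estimate of the derivative -/
def RootLog (X : Set (EN N)) (Λ : AddSubgroup (Vd (k + 1))) (u : EN N → Vd (k + 1)) (Q : EN N → ℂ) (d : ℕ) (p : EN N → EN N → ℝ) (m : ℕ) (C : ℝ) : Prop :=
  ∀ (w : ℂ) (r : ℝ) (F : ℂ → EN N) (h : ℂ → Vd (k + 1)), 0 < r → Cv X Λ u (ball w r) F h → Ok Q p F w →
    r ^ 2 * ‖deriv h w‖ ^ 2 ≤ C * (1 + Lam Q d p m F h w) ∧ r ^ 2 * (pf p F w) ^ (2 / (m : ℝ)) ≤ C * (1 + Lam Q d p m F h w)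

/-- Ahlfors' lemma for `p` -/
def Ahl (X : Set (EN N)) (Λ : AddSubgroup (Vd (k + 1))) (u : EN N → Vd (k + 1)) (p : EN N → EN N → ℝ) (m : ℕ) (C : ℝ) : Prop :=
  ∀ (F : ℂ → EN N) (h : ℂ → Vd (k + 1)) (z : ℂ) (r H : ℝ), 0 < r → 0 ≤ H →
    Cv X Λ u (ball z r) F h → (∀ w ∈ ball z r, ‖deriv h w‖ ≤ H) → pf p F z ≤ (C * (1 / r + H)) ^ m

/-- the limit theorem -/
def LCT (X : Set (EN N)) (Λ : AddSubgroup (Vd (k + 1))) (u : EN N → Vd (k + 1)) (Q : EN N → ℂ) (d : ℕ) (p : EN N → EN N → ℝ) (m : ℕ) : Prop :=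
  ∀ (a : Vd (k + 1)) (F : ℕ → ℂ → EN N) (h : ℕ → ℂ → Vd (k + 1)) (E : ℕ → ℂ → ℂ), a ≠ 0 →
    (∀ r : ℝ, ∀ᶠ n in atTop, Cv X Λ u (ball 0 r) (F n) (h n)) → (∀ n, Ok Q p (F n) 0) →
    (∀ r ε : ℝ, 0 < ε → ∀ᶠ n in atTop, ∀ z ∈ ball (0 : ℂ) r, ‖deriv (h n) z - a‖ ≤ ε) →
    (∀ r : ℝ, ∀ᶠ n in atTop, DifferentiableOn ℂ (E n) (ball 0 r) ∧ (∀ z ∈ ball (0 : ℂ) r, E n z ≠ 0) ∧ E n 0 = 1) →
    (∀ r ε : ℝ, 0 < ε → ∀ᶠ n in atTop, ∀ z ∈ ball (0 : ℂ) r, Ok Q p (F n) z →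
      Lam Q d p m (F n) (h n) 0 + Real.log ‖E n z‖ ≤ Lam Q d p m (F n) (h n) z + ε) → False

variable {X : Set (EN N)} {Λ : AddSubgroup (Vd (k + 1))} {u : EN N → Vd (k + 1)} {D : Set (Vd (k + 1))} {Q : EN N → ℂ} {d : ℕ}
  {p : EN N → EN N → ℝ} {m : ℕ} {C : ℝ} {F : ℂ → EN N} {h : ℂ → Vd (k + 1)}

theorem pf_comp {U : Set ℂ} (hU : IsOpen U) (hc : Cv X Λ u U F h) (hps : PS X Λ u D p m C) {φ : ℂ → ℂ} {z : ℂ} (hφ : DifferentiableAt ℂ φ z) (hz : φ z ∈ U) :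
    pf p (fun z => F (φ z)) z = ‖deriv φ z‖ ^ m * pf p F (φ z) := by
  have hF : DifferentiableAt ℂ F (φ z) := hc.F_diff.differentiableAt (hU.mem_nhds hz)
  have h1 : deriv (fun z => F (φ z)) z = deriv φ z • deriv F (φ z) := (hF.hasDerivAt.scomp z hφ.hasDerivAt).deriv
  unfold pf
  rw [h1]
  exact hps.hom _ (hc.mem _ hz) _ (hc.tan hU hz) _

theorem deriv_cv_comp {U : Set ℂ} (hU : IsOpen U) (hc : Cv X Λ u U F h) {φ : ℂ → ℂ} {z : ℂ} (hφ : DifferentiableAt ℂ φ z) (hz : φ z ∈ U) :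
    deriv (fun z => h (φ z)) z = deriv φ z • deriv h (φ z) := by
  have hh : DifferentiableAt ℂ h (φ z) := hc.h_diff.differentiableAt (hU.mem_nhds hz)
  exact (hh.hasDerivAt.scomp z hφ.hasDerivAt).deriv

/-- `Lq` is nonnegative -/
theorem Lq_nonneg (hX : IsCone X) (hqd : QD X Λ u D Q d) {x : EN N} (hx : x ∈ X) (hQ : Q x ≠ 0) : 0 ≤ Lq Q d x := by
  have h1 := hqd.bound x hx
  have h2 : 0 < ‖Q x‖ := norm_pos_iff.2 hQ
  have h3 := Real.log_le_log h2 h1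
  rw [Real.log_pow] at h3
  unfold Lq
  linarith

theorem Np_nonneg (z : ℂ) : 0 ≤ Np p m F h z := le_max_left _ _

theorem one_le_E (hX : IsCone X) (hqd : QD X Λ u D Q d) {z : ℂ} (hx : F z ∈ X) (hQ : Q (F z) ≠ 0) : 0 ≤ Lam Q d p m F h z := by
  unfold Lam
  have h1 := Lq_nonneg hX hqd hx hQ
  have h2 := Np_nonneg (p := p) (m := m) (F := F) (h := h) z
  positivity

/-- `Np ≤ m log⁺ |h'| + log⁻ p` -/
theorem Np_le {z : ℂ} (hp : 0 < pf p F z) : Np p m F h z ≤ m * ‖deriv h z‖ + max (-Real.log (pf p F z)) 0 := by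
  unfold Np
  have h0 : (0 : ℝ) ≤ m * ‖deriv h z‖ := by positivity
  refine max_le (by positivity) ?_
  rcases (norm_nonneg (deriv h z)).eq_or_lt with h1 | h1
  · rcases Nat.eq_zero_or_pos m with hm | hm
    · subst hm
      simp only [pow_zero, div_one]
      exact (le_max_left _ _).trans (by linarith)
    · rw [← h1, zero_pow hm.ne', div_zero, Real.log_zero, neg_zero, mul_zero, zero_add]
      exact le_max_right _ _
  · rw [Real.log_div hp.ne' (by positivity), Real.log_pow]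
    have h2 : Real.log ‖deriv h z‖ ≤ ‖deriv h z‖ := (Real.log_le_sub_one_of_pos h1).trans (by linarith)
    have h3 : (m : ℝ) * Real.log ‖deriv h z‖ ≤ m * ‖deriv h z‖ := mul_le_mul_of_nonneg_left h2 (Nat.cast_nonneg m)
    have h4 := le_max_left (-Real.log (pf p F z)) 0
    linarith

/-- the degenerate points are isolated -/
theorem ok_isol (hX : IsCone X) (hps : PS X Λ u D p m C) (hqd : QD X Λ u D Q d) {U : Set ℂ} (hU : IsOpen U) (hc : Cv X Λ u U F h) (hpre : IsPreconnected U)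
    (hok : ∃ z ∈ U, Ok Q p F z) : ∀ z ∈ U, ∀ᶠ w in 𝓝[≠] z, Ok Q p F w := by
  obtain ⟨z₁, hz₁, hok1, hok2⟩ := hok
  intro z hz
  have h1 := hps.isol U F h hU hc hpre ⟨z₁, hz₁, hok2⟩ z hz
  have hq : DifferentiableOn ℂ (fun z => Q (F z)) U := hqd.diff.comp_differentiableOn hc.F_diff
  have ha : AnalyticOnNhd ℂ (fun z => Q (F z)) U := hq.analyticOnNhd hU
  have h2 : ∀ᶠ w in 𝓝[≠] z, Q (F w) ≠ 0 := by
    rcases (ha z hz).eventually_eq_zero_or_eventually_ne_zero with h3 | h3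
    · exact absurd (ha.eqOn_zero_of_preconnected_of_eventuallyEq_zero hpre hz h3 hz₁) hok1
    · exact h3
  filter_upwards [h1, h2] with w h3 h4
  exact ⟨h4, h3⟩

end Pool.Agent.H56.G3
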