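import Pool.Agent.H56.G3.Pc1a
import Pool.Agent.H56.G3.HL

/-!
# G3 Pc1: a Harnack type inequality for curves
-/

set_option autoImplicit false

open Topology Filter Metric MeasureTheory

namespace Pool.Agent.H56.G3

open Pool.Agent.H36.BP (EN fs wd Sub)
open Pool.Agent.H14.PP (IsCone CurveAt Tan)
open Pool.Agent.AD (Vd)
open Pool.Agent.TG (TMap Lat Gd)
open Pool.Agent.G3 (Cv PS QD Ok Lam Lq Np pf TT)

variable {N k : ℕ} {X : Set (EN N)} {Λ : AddSubgroup (Vd (k + 1))} {u : EN N → Vd (k + 1)} {D : Set (Vd (k + 1))} {Q : EN N → ℂ} {d : ℕ}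
  {p : EN N → EN N → ℝ} {m : ℕ} {C C₁ : ℝ}

private theorem alg {C₁ d m y L P : ℝ} (hC : 0 ≤ C₁) (hd : 1 ≤ d) (hL : 0 ≤ L) (hP : 0 ≤ P)
    (h : (1 / 2 : ℝ) ^ 2 * y ^ 2 ≤ C₁ * (1 + (L + d * (m * y + P)))) :
    y ^ 2 ≤ (8 * C₁ * d + 16 * C₁ ^ 2 * d ^ 2 * m ^ 2) * (1 + L + P) := by
  have h1 : 0 ≤ (y - 4 * C₁ * d * m) ^ 2 := sq_nonneg _
  have h2 : y ^ 2 ≤ 4 * C₁ * (1 + L + d * P) + 4 * C₁ * d * m * y := by nlinarith
  have h3 : y ^ 2 ≤ 8 * C₁ * (1 + L + d * P) + 16 * C₁ ^ 2 * d ^ 2 * m ^ 2 := by nlinarith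
  have h4 : 1 + L + d * P ≤ d * (1 + L + P) := by nlinarith
  have h5 : 8 * C₁ * (1 + L + d * P) ≤ 8 * C₁ * (d * (1 + L + P)) := mul_le_mul_of_nonneg_left h4 (by positivity)
  have h6 : 16 * C₁ ^ 2 * d ^ 2 * m ^ 2 * 1 ≤ 16 * C₁ ^ 2 * d ^ 2 * m ^ 2 * (1 + L + P) := mul_le_mul_of_nonneg_left (by linarith) (by positivity)
  nlinarith

private theorem alg2 {d m y K₁ L P : ℝ} (hd : 1 ≤ d) (hm : 1 ≤ m) (hL : 0 ≤ L) (hP : 0 ≤ P) (h : y ≤ 1 + K₁ * (1 + L + P)) :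
    1 + (L + d * (m * y + P)) ≤ d * (1 + m + m * K₁) * (1 + L + P) := by
  obtain ⟨S, hS⟩ : ∃ S : ℝ, S = 1 + L + P := ⟨_, rfl⟩
  have h0 : 1 ≤ S := by linarith
  rw [← hS] at h ⊢
  have h1 : 1 + L + d * P ≤ d * S := by
    rw [hS]
    nlinarith
  have h2 : y ≤ S + K₁ * S := by linarith
  have h3 : m * y ≤ m * (S + K₁ * S) := mul_le_mul_of_nonneg_left h2 (by linarith)
  have h4 : d * (m * y) ≤ d * (m * (S + K₁ * S)) := mul_le_mul_of_nonneg_left h3 (by linarith)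
  have h5 : d * (1 + m + m * K₁) * S = d * S + d * (m * (S + K₁ * S)) := by ring
  have h6 : 1 + (L + d * (m * y + P)) = (1 + L + d * P) + d * (m * y) := by ring
  rw [h5, h6]
  linarith

theorem hl_unit (hX : IsCone X) (hps : PS X Λ u D p m C) (hqd : QD X Λ u D Q d) (hC₁ : 0 ≤ C₁) (hroot : RootLog X Λ u Q d p m C₁) :
    ∃ C' : ℝ, 0 < C' ∧ ∀ (F : ℂ → EN N) (h : ℂ → Vd (k + 1)), Cv X Λ u (ball 0 1) F h → Ok Q p F 0 → ∀ ρ : ℝ, 0 < ρ → ρ ≤ 1 / 2 →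
      Real.circleAverage (fun z => ‖deriv h z‖ ^ 2) 0 ρ ≤ C' * (1 + Lq Q d (F 0) + max (-Real.log (pf p F 0)) 0) ∧
      Real.circleAverage (fun z => max (Lq Q d (F z)) 0) 0 ρ ≤ C' * (1 + Lq Q d (F 0) + max (-Real.log (pf p F 0)) 0) ∧
      Real.circleAverage (fun z => max (-Real.log (pf p F z)) 0) 0 ρ ≤ C' * (1 + Lq Q d (F 0) + max (-Real.log (pf p F 0)) 0) := by
  have hm1 : (1 : ℝ) ≤ m := by exact_mod_cast hps.m_pos
  have hd1 : (1 : ℝ) ≤ d := by exact_mod_cast hqd.d_pos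
  have hC1 := hps.C_ge
  obtain ⟨K₁, hK₁⟩ : ∃ K₁ : ℝ, K₁ = 8 * C₁ * d + 16 * C₁ ^ 2 * d ^ 2 * m ^ 2 := ⟨_, rfl⟩
  have hK₁0 : 0 ≤ K₁ := by rw [hK₁]; positivity
  obtain ⟨K₂, hK₂⟩ : ∃ K₂ : ℝ, K₂ = 4 * C₁ * d * (1 + m + m * K₁) := ⟨_, rfl⟩
  have hK₂0 : 0 ≤ K₂ := by rw [hK₂]; positivity
  obtain ⟨K, hK⟩ : ∃ K : ℝ, K = K₁ + K₂ + d + C := ⟨_, rfl⟩
  have hK0 : 0 < K := by rw [hK]; linarith
  obtain ⟨C', hC'0, hC'⟩ := harnack (m : ℝ) 1 K (by linarith) one_pos hK0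
  refine ⟨C', hC'0, ?_⟩
  intro F h hc hok ρ hρ hρ2
  have hU : IsOpen (ball (0 : ℂ) 1) := isOpen_ball
  have hsubc : ∀ r : ℝ, 0 < r → r ≤ 1 / 2 → closedBall (0 : ℂ) r ⊆ ball 0 1 := fun r _ hr => closedBall_subset_ball (by linarith)
  have hisol := ok_isol hX hps hqd hU hc (convex_ball _ _).isPreconnected ⟨0, mem_ball_self one_pos, hok⟩
  have hae : ∀ r : ℝ, 0 < r → r ≤ 1 / 2 → ∀ᵐ θ : ℝ, Ok Q p F (circleMap 0 r θ) := fun r hr hr2 =>
    ae_circle hisol hr (sphere_subset_closedBall.trans (hsubc r hr hr2))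
  have h0mem : F 0 ∈ X := hc.mem 0 (mem_ball_self one_pos)
  have hL0 : max (Lq Q d (F 0)) 0 = Lq Q d (F 0) := max_eq_left (Lq_nonneg hX hqd h0mem hok.1)
  have hcmem : ∀ r : ℝ, 0 < r → r ≤ 1 / 2 → ∀ θ : ℝ, circleMap 0 r θ ∈ ball (0 : ℂ) 1 := fun r hr hr2 θ =>
    hsubc r hr hr2 (sphere_subset_closedBall (circleMap_mem_sphere 0 hr.le θ))
  have hLae : ∀ r : ℝ, 0 < r → r ≤ 1 / 2 → ∀ᵐ θ : ℝ, Lq Q d (F (circleMap 0 r θ)) = max (Lq Q d (F (circleMap 0 r θ))) 0 := by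
    intro r hr hr2
    filter_upwards [hae r hr hr2] with θ hθ
    exact (max_eq_left (Lq_nonneg hX hqd (hc.mem _ (hcmem r hr hr2 θ)) hθ.1)).symm
  have key := hC' (Vd (k + 1)) h (fun z => max (Lq Q d (F z)) 0) (fun z => Real.log (pf p F z)) (fun r => TT F 0 r) hc.h_diff
    (fun z => le_max_right _ _) ?_ ?_ ?_ ?_ ?_ ?_ ρ hρ hρ2
  · simp only [hL0] at key
    exact key
  · intro r hr hr2
    exact ci_congr_ae (Lq_jensen hX hqd hU hc hr (hsubc r hr hr2) hok.1).1 (hLae r hr hr2)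
  · intro r hr hr2
    exact (hps.jensen _ F h hU hc 0 r hr (hsubc r hr hr2) hok.2).1
  · intro r hr hr2
    exact TT_nonneg hX hc hr (hsubc r hr hr2)
  · intro r hr hr2
    filter_upwards [hae r hr hr2] with θ hθ
    have hz := hcmem r hr hr2 θ
    have hn : ‖circleMap 0 r θ‖ = r := by rw [norm_circleMap_zero, abs_of_pos hr]
    obtain ⟨z, hz'⟩ : ∃ z : ℂ, z = circleMap 0 r θ := ⟨_, rfl⟩
    rw [← hz'] at hθ hz hn ⊢
    have hb : ball z (1 / 2) ⊆ ball (0 : ℂ) 1 := by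
      intro w hw
      rw [mem_ball_iff_norm] at hw
      rw [mem_ball_zero_iff]
      calc ‖w‖ = ‖(w - z) + z‖ := by rw [sub_add_cancel]
        _ ≤ ‖w - z‖ + ‖z‖ := norm_add_le _ _
        _ < 1 := by linarith
    obtain ⟨r1, r2⟩ := hroot z (1 / 2) F h (by norm_num) (hc.mono hb) hθ
    have hLn := Lq_nonneg hX hqd (hc.mem z hz) hθ.1
    have hNp := Np_le (h := h) (m := m) hθ.2
    have hPn : 0 ≤ max (-Real.log (pf p F z)) 0 := le_max_right _ _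
    obtain ⟨L, hL⟩ : ∃ L : ℝ, L = Lq Q d (F z) := ⟨_, rfl⟩
    obtain ⟨P, hP⟩ : ∃ P : ℝ, P = max (-Real.log (pf p F z)) 0 := ⟨_, rfl⟩
    obtain ⟨y, hy⟩ : ∃ y : ℝ, y = ‖deriv h z‖ := ⟨_, rfl⟩
    have hy0 : 0 ≤ y := by rw [hy]; exact norm_nonneg _
    have hLam : Lam Q d p m F h z ≤ L + d * (m * y + P) := by
      unfold Lam
      rw [← hL]
      rw [← hy, ← hP] at hNp
      have : (d : ℝ) * Np p m F h z ≤ d * (m * y + P) := mul_le_mul_of_nonneg_left hNp (by linarith)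
      linarith
    rw [← hL] at hLn
    rw [← hP] at hPn
    have hr1 : (1 / 2 : ℝ) ^ 2 * y ^ 2 ≤ C₁ * (1 + (L + d * (m * y + P))) := by
      rw [← hy] at r1
      exact r1.trans (mul_le_mul_of_nonneg_left (by linarith) hC₁)
    have hr2' : (1 / 2 : ℝ) ^ 2 * pf p F z ^ (2 / (m : ℝ)) ≤ C₁ * (1 + (L + d * (m * y + P))) :=
      r2.trans (mul_le_mul_of_nonneg_left (by linarith) hC₁)
    have hyK : y ^ 2 ≤ K₁ * (1 + L + P) := by
      rw [hK₁]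
      exact alg hC₁ hd1 hLn hPn hr1
    have hS : 1 ≤ 1 + L + P := by linarith
    have hmax : max (Lq Q d (F z)) 0 = L := by
      rw [hL]
      exact max_eq_left (by rw [← hL]; exact hLn)
    have hpK : pf p F z ^ (2 / (m : ℝ)) ≤ K₂ * (1 + L + P) := by
      have hy1 : y ≤ 1 + y ^ 2 := by nlinarith [sq_nonneg (y - 1)]
      have h3 : pf p F z ^ (2 / (m : ℝ)) ≤ 4 * (C₁ * (1 + (L + d * (m * y + P)))) := by linarith
      have h4 : 1 + (L + d * (m * y + P)) ≤ d * (1 + m + m * K₁) * (1 + L + P) := alg2 hd1 hm1 hLn hPn (by linarith)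
      calc pf p F z ^ (2 / (m : ℝ)) ≤ 4 * (C₁ * (1 + (L + d * (m * y + P)))) := h3
        _ ≤ 4 * (C₁ * (d * (1 + m + m * K₁) * (1 + L + P))) := by
          apply mul_le_mul_of_nonneg_left _ (by norm_num)
          exact mul_le_mul_of_nonneg_left h4 hC₁
        _ = K₂ * (1 + L + P) := by rw [hK₂]; ring
    refine ⟨?_, ?_⟩
    · simp only [← hy, hmax, ← hP]
      refine hyK.trans (mul_le_mul_of_nonneg_right ?_ (by linarith))
      rw [hK]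
      linarith
    · simp only [hmax, ← hP]
      have h9 : Real.exp (2 * Real.log (pf p F z) / m) = pf p F z ^ (2 / (m : ℝ)) := by
        rw [Real.rpow_def_of_pos hθ.2]
        congr 1
        ring
      rw [h9]
      refine hpK.trans (mul_le_mul_of_nonneg_right ?_ (by linarith))
      rw [hK]
      linarith
  · intro r hr hr2
    have h1 := (Lq_jensen hX hqd hU hc hr (hsubc r hr hr2) hok.1).2
    have h2 := avg_congr_ae (f := fun z => Lq Q d (F z)) (g := fun z => max (Lq Q d (F z)) 0) (hLae r hr hr2)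
    have h3 := TT_nonneg hX hc hr (hsubc r hr hr2)
    simp only [hL0]
    rw [← h2]
    refine h1.trans ?_
    have h4 : (d : ℝ) * TT F 0 r ≤ K * TT F 0 r := mul_le_mul_of_nonneg_right (by rw [hK]; linarith) h3
    linarith
  · intro r hr hr2
    have h1 := (hps.jensen _ F h hU hc 0 r hr (hsubc r hr hr2) hok.2).2
    have h2 : 0 ≤ Real.circleAverage (fun z => ‖h z - h 0‖ ^ 2) 0 r := Real.circleAverage_nonneg_of_nonneg fun z _ => by positivity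
    have h3 : C * Real.circleAverage (fun z => ‖h z - h 0‖ ^ 2) 0 r ≤ K * Real.circleAverage (fun z => ‖h z - h 0‖ ^ 2) 0 r :=
      mul_le_mul_of_nonneg_right (by rw [hK]; linarith) h2
    linarith

end Pool.Agent.H56.G3
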