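import Pool.Agent.H56.G3.Pc0

/-!
# G3 Pc1a: almost all points of circles are not degenerate, averages
-/

set_option autoImplicit false

open Topology Filter Metric MeasureTheory

namespace Pool.Agent.H56.G3

open Pool.Agent.H36.BP (EN fs wd Sub)
open Pool.Agent.H14.PP (IsCone CurveAt Tan)
open Pool.Agent.AD (Vd)
open Pool.Agent.TG (TMap Lat Gd)
open Pool.Agent.G3 (Cv PS QD Ok Lam Lq Np pf TT)

theorem countable_bad {U : Set ℂ} {P : ℂ → Prop} (h : ∀ z ∈ U, ∀ᶠ w in 𝓝[≠] z, P w) : {z | z ∈ U ∧ ¬ P z}.Countable := by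
  have hs : {z | P z} ∈ codiscreteWithin U := by
    rw [mem_codiscreteWithin]
    intro x hx
    rw [disjoint_principal_right]
    filter_upwards [h x hx] with w hw hw2
    exact hw2.2 hw
  have : DiscreteTopology ↑(({z | P z})ᶜ ∩ U) := isDiscrete_iff_discreteTopology.mp
    <| isDiscrete_of_codiscreteWithin ((compl_compl {z | P z}).symm ▸ hs)
  have h1 : (({z | P z})ᶜ ∩ U).Countable := TopologicalSpace.separableSpace_iff_countable.1 inferInstance
  refine h1.mono ?_
  rintro z ⟨h2, h3⟩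
  exact ⟨h3, h2⟩

theorem ae_circle {U : Set ℂ} {P : ℂ → Prop} (h : ∀ z ∈ U, ∀ᶠ w in 𝓝[≠] z, P w) {c : ℂ} {r : ℝ} (hr : 0 < r) (hs : sphere c r ⊆ U) :
    ∀ᵐ θ : ℝ, P (circleMap c r θ) := by
  have h1 : (circleMap c r ⁻¹' {z | z ∈ U ∧ ¬ P z}).Countable := (countable_bad h).preimage_circleMap c hr.ne'
  rw [ae_iff]
  refine measure_mono_null ?_ (h1.measure_zero volume)
  intro θ hθ
  exact ⟨hs (circleMap_mem_sphere c hr.le θ), hθ⟩

theorem avg_congr_ae {f g : ℂ → ℝ} {c : ℂ} {r : ℝ} (h : ∀ᵐ θ : ℝ, f (circleMap c r θ) = g (circleMap c r θ)) :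
    Real.circleAverage f c r = Real.circleAverage g c r := by
  unfold Real.circleAverage
  congr 1
  refine intervalIntegral.integral_congr_ae ?_
  filter_upwards [h] with θ hθ _
  exact hθ

theorem ci_congr_ae {f g : ℂ → ℝ} {c : ℂ} {r : ℝ} (hf : CircleIntegrable f c r) (h : ∀ᵐ θ : ℝ, f (circleMap c r θ) = g (circleMap c r θ)) :
    CircleIntegrable g c r := by
  unfold CircleIntegrable at hf ⊢
  refine hf.congr_ae ?_
  exact ae_restrict_of_ae h

theorem avg_mono_ae {f g : ℂ → ℝ} {c : ℂ} {r : ℝ} (hf : CircleIntegrable f c r) (hg : CircleIntegrable g c r)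
    (h : ∀ᵐ θ : ℝ, f (circleMap c r θ) ≤ g (circleMap c r θ)) : Real.circleAverage f c r ≤ Real.circleAverage g c r := by
  unfold Real.circleAverage
  rw [smul_eq_mul, smul_eq_mul]
  refine mul_le_mul_of_nonneg_left ?_ (by positivity)
  refine intervalIntegral.integral_mono_ae (by positivity) hf hg ?_
  exact ae_of_ae_restrict_of_ae_restrict_compl (Set.univ) (by simpa using h) (by simp)

/-- change of variables -/
theorem avg_scale (f : ℂ → ℝ) (w : ℂ) (r ρ : ℝ) : Real.circleAverage (fun z => f (w + r * z)) 0 ρ = Real.circleAverage f w (r * ρ) := by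
  unfold Real.circleAverage
  congr 1
  refine intervalIntegral.integral_congr fun θ _ => ?_
  simp only [circleMap]
  congr 1
  push_cast
  ring

theorem ci_scale {f : ℂ → ℝ} {w : ℂ} {r ρ : ℝ} : CircleIntegrable (fun z => f (w + r * z)) 0 ρ ↔ CircleIntegrable f w (r * ρ) := by
  unfold CircleIntegrable
  have h1 : (fun θ => (fun z => f (w + r * z)) (circleMap 0 ρ θ)) = fun θ => f (circleMap w (r * ρ) θ) := by
    funext θ
    simp only [circleMap]
    congr 1
    push_cast
    ring
  rw [h1]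

/-- the mean value inequality for `log ‖F‖` -/
theorem log_norm_le_avg {E : Type*} [NormedAddCommGroup E] [NormedSpace ℂ E] {F : ℂ → E} {c : ℂ} {R : ℝ} (hR : 0 < R) (hF : DiffContOnCl ℂ F (ball c R))
    (h0 : ∀ z ∈ sphere c R, F z ≠ 0) (hFc : F c ≠ 0) : Real.log ‖F c‖ ≤ Real.circleAverage (fun z => Real.log ‖F z‖) c R := by
  have h1 := poisson_jensen hR hF h0 (mem_ball_self hR) hFc
  refine h1.trans_eq ?_
  refine Real.circleAverage_congr_sphere ?_
  intro w hw
  have hw' : w ≠ c := by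
    rintro rfl
    rw [abs_of_pos hR, mem_sphere_iff_norm, sub_self, norm_zero] at hw
    exact hR.ne hw
  have h2 : w - c ≠ 0 := sub_ne_zero.2 hw'
  simp only [pk]
  rw [sub_self, add_zero, sub_zero, div_self h2, Complex.one_re, one_mul]

/-- Jensen's inequality -/
theorem log_norm_le_avg' {P : ℂ → ℂ} {c : ℂ} {r : ℝ} (hr : 0 < r) (hP : AnalyticOnNhd ℂ P (closedBall c r)) (hc : P c ≠ 0) :
    Real.log ‖P c‖ ≤ Real.circleAverage (fun z => Real.log ‖P z‖) c r := by
  have har : |r| = r := abs_of_pos hr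
  have hana : AnalyticOnNhd ℂ P (closedBall c |r|) := by rwa [har]
  rw [AnalyticOnNhd.circleAverage_log_norm hr.ne' hana hc]
  have h1 : 0 ≤ ∑ᶠ u, (MeromorphicOn.divisor P (closedBall c |r|) u : ℝ) * Real.log (r * ‖c - u‖⁻¹) := by
    apply finsum_nonneg
    intro u
    by_cases hu : u ∈ closedBall c |r|
    · apply mul_nonneg
      · have := MeromorphicOn.AnalyticOnNhd.divisor_nonneg hana u
        exact_mod_cast this
      · by_cases huc : u = c
        · simp [huc]
        · apply Real.log_nonneg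
          have h2 : 0 < ‖c - u‖ := by
            rw [norm_pos_iff, sub_ne_zero]
            exact fun h => huc h.symm
          have h3 : ‖c - u‖ ≤ r := by
            rw [mem_closedBall, dist_eq_norm, abs_of_pos hr, norm_sub_rev] at hu
            exact hu
          rw [← div_eq_mul_inv, le_div_iff₀ h2]
          linarith
    · have : MeromorphicOn.divisor P (closedBall c |r|) u = 0 := Function.locallyFinsuppWithin.apply_eq_zero_of_notMem _ hu
      simp [this]
  linarith

variable {N k : ℕ} {X : Set (EN N)} {Λ : AddSubgroup (Vd (k + 1))} {u : EN N → Vd (k + 1)} {D : Set (Vd (k + 1))} {Q : EN N → ℂ} {d : ℕ}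
  {p : EN N → EN N → ℝ} {m : ℕ} {C : ℝ} {F : ℂ → EN N} {h : ℂ → Vd (k + 1)}

/-- **Jensen's inequality for `Lq`.** -/
theorem Lq_jensen (hX : IsCone X) (hqd : QD X Λ u D Q d) {U : Set ℂ} (hU : IsOpen U) (hc : Cv X Λ u U F h) {z : ℂ} {r : ℝ} (hr : 0 < r)
    (hcb : closedBall z r ⊆ U) (hQ : Q (F z) ≠ 0) :
    CircleIntegrable (fun w => Lq Q d (F w)) z r ∧ Real.circleAverage (fun w => Lq Q d (F w)) z r ≤ Lq Q d (F z) + d * TT F z r := by
  have hq : DifferentiableOn ℂ (fun z => Q (F z)) U := hqd.diff.comp_differentiableOn hc.F_diff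
  have ha : AnalyticOnNhd ℂ (fun z => Q (F z)) U := hq.analyticOnNhd hU
  have hne : ∀ w ∈ U, F w ≠ 0 := fun w hw h0 => hX.zero_notMem (h0 ▸ hc.mem w hw)
  have i1 : CircleIntegrable (fun w => Real.log ‖F w‖) z r := by
    refine ContinuousOn.circleIntegrable hr.le ?_
    refine ContinuousOn.log (hc.F_diff.continuousOn.norm.mono (sphere_subset_closedBall.trans hcb)) fun w hw => ?_
    exact norm_ne_zero_iff.2 (hne w (hcb (sphere_subset_closedBall hw)))
  have i2 : CircleIntegrable (fun w => Real.log ‖Q (F w)‖) z r := by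
    have h1 : MeromorphicOn (fun z => Q (F z)) (sphere z r) := fun w hw => (ha w (hcb (sphere_subset_closedBall hw))).meromorphicAt
    exact MeromorphicOn.circleIntegrable_log_norm_of_nonneg h1 hr.le
  have i3 : CircleIntegrable (fun w => (d : ℝ) * Real.log ‖F w‖) z r := i1.const_smul (a := (d : ℝ))
  refine ⟨i3.sub i2, ?_⟩
  have h1 : Real.circleAverage (fun w => Lq Q d (F w)) z r =
      Real.circleAverage (fun w => (d : ℝ) * Real.log ‖F w‖) z r - Real.circleAverage (fun w => Real.log ‖Q (F w)‖) z r :=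
    Real.circleAverage_fun_sub i3 i2
  have h2 : Real.circleAverage (fun w => (d : ℝ) * Real.log ‖F w‖) z r = d * Real.circleAverage (fun w => Real.log ‖F w‖) z r :=
    Real.circleAverage_fun_smul (a := (d : ℝ))
  have h3 := log_norm_le_avg' hr (ha.mono hcb) hQ
  rw [h1, h2]
  unfold Lq TT
  have h4 : (d : ℝ) * (Real.circleAverage (fun w => Real.log ‖F w‖) z r - Real.log ‖F z‖) =
      d * Real.circleAverage (fun w => Real.log ‖F w‖) z r - d * Real.log ‖F z‖ := by ring
  linarith

theorem TT_nonneg (hX : IsCone X) {U : Set ℂ} (hc : Cv X Λ u U F h) {z : ℂ} {r : ℝ} (hr : 0 < r)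
    (hcb : closedBall z r ⊆ U) : 0 ≤ TT F z r := by
  have hne : ∀ w ∈ U, F w ≠ 0 := fun w hw h0 => hX.zero_notMem (h0 ▸ hc.mem w hw)
  have h1 := log_norm_le_avg hr (hc.F_diff.mono (by rw [closure_ball z hr.ne']; exact hcb)).diffContOnCl
    (fun w hw => hne w (hcb (sphere_subset_closedBall hw))) (hne z (hcb (mem_closedBall_self hr.le)))
  unfold TT
  linarith

end Pool.Agent.H56.G3
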