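import Pool.Agent.H56.G3.Pc1

/-!
# G3 Pc2: the Harnack type inequality on discs of arbitrary radius; good points near a given point
-/

set_option autoImplicit false

open Topology Filter Metric MeasureTheory Real

namespace Pool.Agent.H56.G3

open Pool.Agent.H36.BP (EN fs wd Sub)
open Pool.Agent.H14.PP (IsCone CurveAt Tan)
open Pool.Agent.AD (Vd)
open Pool.Agent.TG (TMap Lat Gd)
open Pool.Agent.G3 (Cv PS QD Ok Lam Lq Np pf TT)

variable {N k : ℕ} {X : Set (EN N)} {Λ : AddSubgroup (Vd (k + 1))} {u : EN N → Vd (k + 1)} {D : Set (Vd (k + 1))} {Q : EN N → ℂ} {d : ℕ}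
  {p : EN N → EN N → ℝ} {m : ℕ} {C C₁ : ℝ}

theorem hl_disc (hX : IsCone X) (hps : PS X Λ u D p m C) (hqd : QD X Λ u D Q d) (hC₁ : 0 ≤ C₁) (hroot : RootLog X Λ u Q d p m C₁) :
    ∃ C' : ℝ, 0 < C' ∧ ∀ (w : ℂ) (r : ℝ) (F : ℂ → EN N) (h : ℂ → Vd (k + 1)), 0 < r → Cv X Λ u (ball w r) F h → Ok Q p F w → ∀ ρ : ℝ, 0 < ρ → ρ ≤ r / 2 →
      r ^ 2 * Real.circleAverage (fun z => ‖deriv h z‖ ^ 2) w ρ ≤ C' * (1 + Lq Q d (F w) + max (-Real.log (r ^ m * pf p F w)) 0) ∧
      Real.circleAverage (fun z => max (Lq Q d (F z)) 0) w ρ ≤ C' * (1 + Lq Q d (F w) + max (-Real.log (r ^ m * pf p F w)) 0) ∧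
      Real.circleAverage (fun z => max (-Real.log (r ^ m * pf p F z)) 0) w ρ ≤ C' * (1 + Lq Q d (F w) + max (-Real.log (r ^ m * pf p F w)) 0) := by
  obtain ⟨C', hC'0, hC'⟩ := hl_unit hX hps hqd hC₁ hroot
  refine ⟨C', hC'0, ?_⟩
  intro w r F h hr hc hok ρ hρ hρ2
  have hm : ∀ z ∈ ball (0 : ℂ) 1, w + r * z ∈ ball w r := by
    intro z hz
    rw [mem_ball_zero_iff] at hz
    rw [mem_ball_iff_norm, add_sub_cancel_left, norm_mul, Complex.norm_real, Real.norm_eq_abs, abs_of_pos hr]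
    nlinarith
  have hφ : ∀ z : ℂ, HasDerivAt (fun z : ℂ => w + r * z) (r : ℂ) z := by
    intro z
    have h1 := ((hasDerivAt_id z).const_mul (r : ℂ)).const_add w
    rwa [mul_one] at h1
  have hc1 : Cv X Λ u (ball 0 1) (fun z => F (w + r * z)) fun z => h (w + r * z) :=
    hc.comp (fun z _ => (hφ z).differentiableAt.differentiableWithinAt) hm
  have hpf : ∀ z ∈ ball (0 : ℂ) 1, pf p (fun z => F (w + r * z)) z = r ^ m * pf p F (w + r * z) := by
    intro z hz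
    rw [pf_comp isOpen_ball hc hps (hφ z).differentiableAt (hm z hz), (hφ z).deriv, Complex.norm_real, Real.norm_eq_abs, abs_of_pos hr]
  have hdh : ∀ z ∈ ball (0 : ℂ) 1, ‖deriv (fun z => h (w + r * z)) z‖ ^ 2 = r ^ 2 * ‖deriv h (w + r * z)‖ ^ 2 := by
    intro z hz
    rw [deriv_cv_comp isOpen_ball hc (hφ z).differentiableAt (hm z hz), (hφ z).deriv, norm_smul, Complex.norm_real, Real.norm_eq_abs, abs_of_pos hr]
    ring
  have h0 : w + r * (0 : ℂ) = w := by simp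
  have h0b : (0 : ℂ) ∈ ball (0 : ℂ) 1 := mem_ball_self one_pos
  have hok1 : Ok Q p (fun z => F (w + r * z)) 0 := by
    refine ⟨by simp only [h0]; exact hok.1, ?_⟩
    rw [hpf 0 h0b, h0]
    exact mul_pos (pow_pos hr _) hok.2
  have hρ1 : 0 < ρ / r := div_pos hρ hr
  have hρ3 : ρ / r ≤ 1 / 2 := by
    rw [div_le_iff₀ hr]
    linarith
  have hsb : sphere (0 : ℂ) |ρ / r| ⊆ ball 0 1 := by
    intro z hz
    rw [abs_of_pos hρ1, mem_sphere_iff_norm, sub_zero] at hz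
    rw [mem_ball_zero_iff]
    linarith
  obtain ⟨a1, a2, a3⟩ := hC' _ _ hc1 hok1 (ρ / r) hρ1 hρ3
  have hrr : r * (ρ / r) = ρ := mul_div_cancel₀ ρ hr.ne'
  rw [hpf 0 h0b, h0] at a1 a2 a3
  refine ⟨?_, ?_, ?_⟩
  · refine le_trans (le_of_eq ?_) a1
    have e1 : Real.circleAverage (fun z => ‖deriv (fun z => h (w + r * z)) z‖ ^ 2) 0 (ρ / r) =
        Real.circleAverage (fun z => r ^ 2 * ‖deriv h (w + r * z)‖ ^ 2) 0 (ρ / r) :=
      Real.circleAverage_congr_sphere fun z hz => hdh z (hsb hz)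
    have e2 : Real.circleAverage (fun z => r ^ 2 * ‖deriv h (w + r * z)‖ ^ 2) 0 (ρ / r) = Real.circleAverage (fun z => r ^ 2 * ‖deriv h z‖ ^ 2) w ρ := by
      have e3 := avg_scale (fun z => r ^ 2 * ‖deriv h z‖ ^ 2) w r (ρ / r)
      rw [hrr] at e3
      exact e3
    rw [e1, e2]
    exact (Real.circleAverage_fun_smul (a := r ^ 2) (f := fun z => ‖deriv h z‖ ^ 2)).symm
  · refine le_trans (le_of_eq ?_) a2
    have e3 := avg_scale (fun z => max (Lq Q d (F z)) 0) w r (ρ / r)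
    rw [hrr] at e3
    exact e3.symm
  · refine le_trans (le_of_eq ?_) a3
    have e1 : Real.circleAverage (fun z => max (-Real.log (pf p (fun z => F (w + r * z)) z)) 0) 0 (ρ / r) =
        Real.circleAverage (fun z => max (-Real.log (r ^ m * pf p F (w + r * z))) 0) 0 (ρ / r) :=
      Real.circleAverage_congr_sphere fun z hz => by simp only [hpf z (hsb hz)]
    have e3 := avg_scale (fun z => max (-Real.log (r ^ m * pf p F z)) 0) w r (ρ / r)
    rw [hrr] at e3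
    rw [e1]
    exact e3.symm

/-- a point of an arc where a function is not much greater than its mean -/
theorem arc_point {f : ℂ → ℝ} {P : ℂ → Prop} {c : ℂ} {r : ℝ} (hf : CircleIntegrable f c r) (h0 : ∀ z, 0 ≤ f z) (hP : ∀ᵐ θ : ℝ, P (circleMap c r θ)) (θ₀ : ℝ) :
    ∃ θ : ℝ, |θ - θ₀| ≤ 1 / 8 ∧ P (circleMap c r θ) ∧ f (circleMap c r θ) ≤ 8 * π * Real.circleAverage f c r := by
  obtain ⟨g, hg⟩ : ∃ g : ℝ → ℝ, g = fun θ => f (circleMap c r θ) := ⟨_, rfl⟩
  have hgp : Function.Periodic g (2 * π) := by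
    intro x
    rw [hg]
    simp [periodic_circleMap c r x]
  have hgi : ∀ a b : ℝ, IntervalIntegrable g volume a b := by
    intro a b
    have h1 : IntervalIntegrable g volume 0 (2 * π) := by
      rw [hg]
      exact hf
    exact hgp.intervalIntegrable₀ (by positivity) h1 a b
  have hπ : (1 / 4 : ℝ) ≤ 2 * π := by
    have := Real.pi_gt_three
    linarith
  -- the mean over the arc
  obtain ⟨μ, hμ⟩ : ∃ μ : Measure ℝ, μ = volume.restrict (Set.Ioc (θ₀ - 1 / 8) (θ₀ + 1 / 8)) := ⟨_, rfl⟩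
  have hfin : IsFiniteMeasure μ := by
    rw [hμ]
    infer_instance
  have hvol : volume (Set.Ioc (θ₀ - 1 / 8) (θ₀ + 1 / 8)) = ENNReal.ofReal (1 / 4) := by
    rw [Real.volume_Ioc]
    congr 1
    ring
  have hμ0 : μ ≠ 0 := by
    intro h
    have h1 : μ Set.univ = ENNReal.ofReal (1 / 4) := by rw [hμ, Measure.restrict_apply_univ, hvol]
    rw [h, Measure.coe_zero, Pi.zero_apply] at h1
    have h2 : (0 : ENNReal) < ENNReal.ofReal (1 / 4) := ENNReal.ofReal_pos.2 (by norm_num)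
    exact h2.ne h1
  have hint : Integrable g μ := by
    rw [hμ]
    exact (intervalIntegrable_iff_integrableOn_Ioc_of_le (by linarith)).1 (hgi _ _)
  obtain ⟨Nn, hNn⟩ : ∃ Nn : Set ℝ, Nn = {θ | ¬ P (circleMap c r θ)} ∪ (Set.Ioc (θ₀ - 1 / 8) (θ₀ + 1 / 8))ᶜ := ⟨_, rfl⟩
  have hN0 : μ Nn = 0 := by
    rw [hNn]
    refine measure_union_null ?_ ?_
    · rw [hμ]
      exact Measure.absolutelyContinuous_of_le Measure.restrict_le_self (ae_iff.1 hP)
    · rw [hμ, Measure.restrict_apply measurableSet_Ioc.compl, Set.compl_inter_self, measure_empty]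
  obtain ⟨θ, hθN, hθ⟩ := exists_notMem_null_le_average hμ0 hint hN0
  have hθ1 : P (circleMap c r θ) ∧ θ ∈ Set.Ioc (θ₀ - 1 / 8) (θ₀ + 1 / 8) := by
    rw [hNn] at hθN
    simp only [Set.mem_union, Set.mem_ofPred_eq, Set.mem_compl_iff, not_or, not_not] at hθN
    exact hθN
  refine ⟨θ, ?_, hθ1.1, ?_⟩
  · rw [abs_le]
    constructor
    · linarith [hθ1.2.1]
    · linarith [hθ1.2.2]
  · have h1 : (⨍ a, g a ∂μ) = 4 * ∫ a in (θ₀ - 1 / 8)..(θ₀ + 1 / 8), g a := by
      rw [average_eq, hμ, Measure.real, Measure.restrict_apply_univ, hvol, ENNReal.toReal_ofReal (by norm_num), smul_eq_mul,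
        intervalIntegral.integral_of_le (by linarith)]
      norm_num
    have h2 : ∫ a in (θ₀ - 1 / 8)..(θ₀ + 1 / 8), g a ≤ ∫ a in (θ₀ - 1 / 8)..(θ₀ - 1 / 8 + 2 * π), g a := by
      refine intervalIntegral.integral_mono_interval le_rfl (by linarith) (by linarith) ?_ (hgi _ _)
      exact Eventually.of_forall fun x => by rw [hg]; exact h0 _
    have h3 : ∫ a in (θ₀ - 1 / 8)..(θ₀ - 1 / 8 + 2 * π), g a = 2 * π * Real.circleAverage f c r := by
      rw [hgp.intervalIntegral_add_eq (θ₀ - 1 / 8) 0, zero_add, hg, Real.circleAverage_def, smul_eq_mul]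
      field_simp
    have h4 : g θ = f (circleMap c r θ) := by rw [hg]
    rw [h1, h4] at hθ
    rw [h3] at h2
    linarith

/-- a good point near a given point -/
theorem ball_point {f : ℝ → ℂ → ℝ} {P : ℂ → Prop} {w w' : ℂ} {t : ℝ} (ht : 0 < t) (hw : ‖w' - w‖ ≤ t / 8) (hf : ∀ ρ, 0 < ρ → ρ ≤ t / 8 → CircleIntegrable (f t) w ρ)
    (h0 : ∀ z, 0 ≤ f t z) (hP : ∀ ρ, 0 < ρ → ρ ≤ t / 8 → ∀ᵐ θ : ℝ, P (circleMap w ρ θ)) :
    ∃ ρ, 0 < ρ ∧ ρ ≤ t / 8 ∧ ∃ z ∈ ball w' (t / 32), ‖z - w‖ = ρ ∧ P z ∧ f t z ≤ 8 * π * Real.circleAverage (f t) w ρ := by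
  obtain ⟨ρ, hρ⟩ : ∃ ρ : ℝ, ρ = max ‖w' - w‖ (t / 64) := ⟨_, rfl⟩
  have hρ0 : 0 < ρ := by
    rw [hρ]
    exact lt_max_of_lt_right (by positivity)
  have hρ8 : ρ ≤ t / 8 := by
    rw [hρ]
    exact max_le hw (by linarith)
  obtain ⟨θ, hθ, hPθ, hfθ⟩ := arc_point (hf ρ hρ0 hρ8) h0 (hP ρ hρ0 hρ8) (Complex.arg (w' - w))
  have hzw : circleMap w ρ θ - w = ρ * Complex.exp (θ * Complex.I) := by simp [circleMap]
  refine ⟨ρ, hρ0, hρ8, circleMap w ρ θ, ?_, ?_, hPθ, hfθ⟩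
  · rw [mem_ball_iff_norm]
    have h1 : circleMap w ρ θ - w' = ρ * (Complex.exp (θ * Complex.I) - Complex.exp (Complex.arg (w' - w) * Complex.I)) +
        ((ρ - ‖w' - w‖ : ℝ) : ℂ) * Complex.exp (Complex.arg (w' - w) * Complex.I) := by
      have h2 := Complex.norm_mul_exp_arg_mul_I (w' - w)
      have h3 : circleMap w ρ θ - w' = (circleMap w ρ θ - w) - (w' - w) := by ring
      rw [h3, hzw]
      nth_rewrite 1 [← h2]
      push_cast
      ring
    have h4 : ‖Complex.exp (θ * Complex.I) - Complex.exp (Complex.arg (w' - w) * Complex.I)‖ ≤ 1 / 8 := by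
      have h5 : Complex.exp (θ * Complex.I) - Complex.exp (Complex.arg (w' - w) * Complex.I) =
          Complex.exp (Complex.arg (w' - w) * Complex.I) * (Complex.exp (Complex.I * ((θ - Complex.arg (w' - w) : ℝ) : ℂ)) - 1) := by
        rw [mul_sub, ← Complex.exp_add, mul_one]
        congr 2
        push_cast
        ring
      rw [h5, norm_mul, Complex.norm_exp_ofReal_mul_I, one_mul]
      exact (Real.norm_exp_I_mul_ofReal_sub_one_le).trans (by rw [Real.norm_eq_abs]; exact hθ)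
    have h6 : ‖circleMap w ρ θ - w'‖ ≤ ρ * (1 / 8) + |ρ - ‖w' - w‖| := by
      rw [h1]
      refine (norm_add_le _ _).trans ?_
      rw [norm_mul, norm_mul, Complex.norm_exp_ofReal_mul_I, mul_one, Complex.norm_real, Complex.norm_real, Real.norm_eq_abs, Real.norm_eq_abs, abs_of_pos hρ0]
      gcongr
    refine h6.trans_lt ?_
    rcases le_total (t / 64) ‖w' - w‖ with h7 | h7
    · rw [max_eq_left h7] at hρ
      rw [← hρ, sub_self, abs_zero]
      linarith
    · rw [max_eq_right h7] at hρ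
      have h8 := norm_nonneg (w' - w)
      rw [abs_of_nonneg (by linarith)]
      linarith
  · rw [hzw, norm_mul, Complex.norm_exp_ofReal_mul_I, mul_one, Complex.norm_real, Real.norm_eq_abs, abs_of_pos hρ0]

end Pool.Agent.H56.G3
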