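import Pool.Agent.H56.G3.Pc2
import Pool.Agent.H56.G3.Chain

/-!
# G3 Pc3: polynomial growth of the derivative of the lift on the half plane
-/

set_option autoImplicit false

open Topology Filter Metric MeasureTheory Real

namespace Pool.Agent.H56.G3

open Pool.Agent.H36.BP (EN fs wd Sub)
open Pool.Agent.H14.PP (IsCone CurveAt Tan)
open Pool.Agent.AD (Vd)
open Pool.Agent.TG (TMap Lat Gd)
open Pool.Agent.G3 (Cv PS QD Ok Lam Lq Np pf TT)

theorem ci_max {f : ℂ → ℝ} {c : ℂ} {r : ℝ} (hf : CircleIntegrable f c r) : CircleIntegrable (fun z => max (f z) 0) c r := by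
  unfold CircleIntegrable at hf ⊢
  rw [intervalIntegrable_iff] at hf ⊢
  exact hf.pos_part

/-- a bound of the value of a holomorphic function by its mean on a circle -/
theorem pois_norm {V : Type*} [NormedAddCommGroup V] [NormedSpace ℂ V] [CompleteSpace V] {f : ℂ → V} {c w : ℂ} {R : ℝ} (hR : 0 < R)
    (hf : DiffContOnCl ℂ f (ball c R)) (hw : ‖w - c‖ ≤ R / 2) : ‖f w‖ ≤ 3 * Real.circleAverage (fun z => ‖f z‖) c R := by
  have hwb : w ∈ ball c R := by
    rw [mem_ball_iff_norm]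
    linarith
  have hRabs : |R| = R := abs_of_pos hR
  have h1 := hf.circleAverage_re_herglotzRieszKernel_smul' (c := c) (R := R) hwb
  have hfc : ContinuousOn f (sphere c R) := hf.continuousOn.mono (by rw [closure_ball c hR.ne']; exact sphere_subset_closedBall)
  have hpk := pk_cont hwb
  have h2 : ‖f w‖ ≤ Real.circleAverage (fun z => ‖pk c w z • f z‖) c R := by
    rw [← h1]
    unfold Real.circleAverage
    rw [norm_smul, Real.norm_of_nonneg (by positivity), smul_eq_mul]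
    refine mul_le_mul_of_nonneg_left ?_ (by positivity)
    exact intervalIntegral.norm_integral_le_integral_norm (by positivity)
  refine h2.trans ?_
  have h3 : Real.circleAverage (fun z => ‖pk c w z • f z‖) c R ≤ Real.circleAverage (fun z => (3 : ℝ) • ‖f z‖) c R := by
    refine Real.circleAverage_mono ?_ ?_ ?_
    · refine ContinuousOn.circleIntegrable' ?_
      rw [hRabs]
      exact (hpk.smul hfc).norm
    · refine ContinuousOn.circleIntegrable' ?_
      rw [hRabs]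
      exact hfc.norm.const_smul (3 : ℝ)
    · intro z hz
      rw [hRabs] at hz
      have h4 := re_herglotzRieszKernel_le hz hwb
      have h5 : pk c w z ≤ 3 := by
        refine le_trans h4 ?_
        rw [div_le_iff₀ (by linarith)]
        linarith
      rw [norm_smul, Real.norm_of_nonneg (pk_pos hwb hz).le, smul_eq_mul]
      exact mul_le_mul_of_nonneg_right h5 (norm_nonneg _)
  refine h3.trans_eq ?_
  exact Real.circleAverage_fun_smul (a := (3 : ℝ)) (f := fun z => ‖f z‖)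

variable {N k : ℕ} {X : Set (EN N)} {Λ : AddSubgroup (Vd (k + 1))} {u : EN N → Vd (k + 1)} {D : Set (Vd (k + 1))} {Q : EN N → ℂ} {d : ℕ}
  {p : EN N → EN N → ℝ} {m : ℕ} {C C₁ : ℝ}

theorem isOpen_half (T : ℝ) : IsOpen {w : ℂ | w.re < T} := isOpen_lt Complex.continuous_re continuous_const

theorem convex_half (T : ℝ) : Convex ℝ {w : ℂ | w.re < T} := by
  have := (convex_Iio T).linear_preimage Complex.reLm
  exact this

theorem ball_sub_half {w : ℂ} {t : ℝ} (ht : t ≤ -w.re) : ball w t ⊆ {w : ℂ | w.re < 0} := by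
  intro z hz
  have h1 : |(z - w).re| ≤ ‖z - w‖ := Complex.abs_re_le_norm _
  rw [mem_ball_iff_norm] at hz
  rw [Complex.sub_re] at h1
  have h2 := (abs_le.1 h1).2
  show z.re < 0
  linarith

theorem per_int' {α : Type*} {F : ℂ → α} (hper : ∀ w, F (w + 2 * π * Complex.I) = F w) (k : ℤ) (w : ℂ) : F (w + k * (2 * π * Complex.I)) = F w := by
  have hn : ∀ (n : ℕ) (w : ℂ), F (w + n * (2 * π * Complex.I)) = F w := by
    intro n
    induction n with
    | zero => intro w; simp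
    | succ n ih =>
      intro w
      have h1 : w + ((n + 1 : ℕ) : ℂ) * (2 * π * Complex.I) = (w + n * (2 * π * Complex.I)) + 2 * π * Complex.I := by push_cast; ring
      rw [h1, hper, ih]
  rcases Int.eq_nat_or_neg k with ⟨n, hk | hk⟩
  · rw [hk]
    push_cast
    exact hn n w
  · have h1 := hn n (w + k * (2 * π * Complex.I))
    rw [hk] at h1 ⊢
    have h2 : w + ((-(n : ℤ) : ℤ) : ℂ) * (2 * π * Complex.I) + (n : ℂ) * (2 * π * Complex.I) = w := by push_cast; ring
    rw [h2] at h1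
    exact h1.symm

theorem per_deriv {V : Type*} [NormedAddCommGroup V] [NormedSpace ℂ V] {F : ℂ → V} (hper : ∀ w, F (w + 2 * π * Complex.I) = F w) (w : ℂ) :
    deriv F (w + 2 * π * Complex.I) = deriv F w := by
  have h1 : (fun z => F (z + 2 * π * Complex.I)) = F := funext hper
  have h2 := deriv_comp_add_const F (2 * π * Complex.I) w
  rw [h1] at h2
  exact h2.symm

theorem growth (hX : IsCone X) (hps : PS X Λ u D p m C) (hqd : QD X Λ u D Q d) (hC₁ : 0 ≤ C₁) (hroot : RootLog X Λ u Q d p m C₁)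
    {F : ℂ → EN N} {h : ℂ → Vd (k + 1)} (hc : Cv X Λ u {w | w.re < 0} F h) (hper : ∀ w, F (w + 2 * π * Complex.I) = F w)
    (hok : ∃ w ∈ {w : ℂ | w.re < 0}, Ok Q p F w) :
    ∃ (T K : ℝ) (q : ℕ), T < 0 ∧ 0 ≤ K ∧ ∀ w : ℂ, w.re < T → ‖deriv h w‖ ≤ K * (1 + |w.re|) ^ q := by
  obtain ⟨C', hC'0, hC'⟩ := hl_disc hX hps hqd hC₁ hroot
  have hU := isOpen_half 0
  have hisol := ok_isol hX hps hqd hU hc (convex_half 0).isPreconnected hok
  obtain ⟨E, hE⟩ : ∃ E : ℂ → ℝ, E = fun w => 1 + Lq Q d (F w) + max (-Real.log (pf p F w)) 0 := ⟨_, rfl⟩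
  obtain ⟨G, hG⟩ : ∃ G : ℂ → Prop, G = fun w => w.re < 0 ∧ Ok Q p F w := ⟨_, rfl⟩
  obtain ⟨A, hA⟩ : ∃ A : ℝ, A = 1 + 16 * π * C' + m := ⟨_, rfl⟩
  have hA1 : 1 ≤ A := by
    rw [hA]
    have h1 : 0 ≤ 16 * π * C' := by positivity
    have h2 : (0 : ℝ) ≤ m := Nat.cast_nonneg m
    linarith
  have hGE : ∀ w, G w → 1 ≤ E w := by
    intro w hw
    rw [hG] at hw
    rw [hE]
    have h1 := Lq_nonneg hX hqd (hc.mem w hw.1) hw.2.1
    have h2 := le_max_right (-Real.log (pf p F w)) 0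
    simp only
    linarith
  have hperG : ∀ (w : ℂ) (k : ℤ), G w → G (w + k * (2 * π * Complex.I)) ∧ E (w + k * (2 * π * Complex.I)) = E w := by
    intro w k hw
    have e1 : F (w + k * (2 * π * Complex.I)) = F w := per_int' hper k w
    have e2 : deriv F (w + k * (2 * π * Complex.I)) = deriv F w := per_int' (per_deriv hper) k w
    have e3 : pf p F (w + k * (2 * π * Complex.I)) = pf p F w := by
      unfold pf
      rw [e1, e2]
    rw [hG] at hw ⊢
    rw [hE]
    refine ⟨⟨?_, ?_, ?_⟩, ?_⟩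
    · have : (w + k * (2 * π * Complex.I)).re = w.re := by simp
      rw [this]
      exact hw.1
    · rw [e1]
      exact hw.2.1
    · rw [e3]
      exact hw.2.2
    · simp only
      rw [e1, e3]
  have hstep : ∀ w, G w → 1 ≤ -w.re → ∀ w' : ℂ, ‖w' - w‖ ≤ -w.re / 8 →
      ∃ w₁ ∈ ball w' (-w.re / 32), G w₁ ∧ E w₁ ≤ A * (E w + Real.log (-w.re)) := by
    intro w hGw ht w' hw'
    have hGw' := hGw
    rw [hG] at hGw'
    obtain ⟨hre, hokw⟩ := hGw'
    obtain ⟨t, htd⟩ : ∃ t : ℝ, t = -w.re := ⟨_, rfl⟩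
    rw [← htd] at ht hw' ⊢
    have ht0 : 0 < t := by linarith
    have hsub : ball w t ⊆ {w : ℂ | w.re < 0} := ball_sub_half htd.le
    have hcw : Cv X Λ u (ball w t) F h := hc.mono hsub
    have hcb : ∀ ρ : ℝ, 0 < ρ → ρ ≤ t / 8 → closedBall w ρ ⊆ ball w t := fun ρ _ hρ => closedBall_subset_ball (by linarith)
    have hae : ∀ ρ : ℝ, 0 < ρ → ρ ≤ t / 8 → ∀ᵐ θ : ℝ, Ok Q p F (circleMap w ρ θ) := fun ρ hρ hρ8 =>
      ae_circle hisol hρ (sphere_subset_closedBall.trans ((hcb ρ hρ hρ8).trans hsub))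
    have i1 : ∀ ρ : ℝ, 0 < ρ → ρ ≤ t / 8 → CircleIntegrable (fun z => max (Lq Q d (F z)) 0) w ρ := fun ρ hρ hρ8 =>
      ci_max (Lq_jensen hX hqd isOpen_ball hcw hρ (hcb ρ hρ hρ8) hokw.1).1
    have i2 : ∀ ρ : ℝ, 0 < ρ → ρ ≤ t / 8 → CircleIntegrable (fun z => max (-Real.log (t ^ m * pf p F z)) 0) w ρ := by
      intro ρ hρ hρ8
      refine ci_max ?_
      have h1 := (hps.jensen _ F h isOpen_ball hcw w ρ hρ (hcb ρ hρ hρ8) hokw.2).1
      have h2 : CircleIntegrable (fun z => -(Real.log (t ^ m) + Real.log (pf p F z))) w ρ := ((circleIntegrable_const _ _ _).add h1).neg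
      refine ci_congr_ae h2 ?_
      filter_upwards [hae ρ hρ hρ8] with θ hθ
      rw [Real.log_mul (by positivity) hθ.2.ne']
    obtain ⟨ρ, hρ, hρ8, z, hz, hzρ, hokz, hfz⟩ := ball_point
      (f := fun _ z => max (Lq Q d (F z)) 0 + max (-Real.log (t ^ m * pf p F z)) 0) (P := Ok Q p F) ht0 hw'
      (fun ρ hρ hρ8 => (i1 ρ hρ hρ8).add (i2 ρ hρ hρ8)) (fun z => add_nonneg (le_max_right _ _) (le_max_right _ _)) hae
    have hzre : z.re < 0 := by
      apply hsub
      rw [mem_ball_iff_norm, hzρ]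
      linarith
    refine ⟨z, hz, ?_, ?_⟩
    · rw [hG]
      exact ⟨hzre, hokz⟩
    · obtain ⟨-, a2, a3⟩ := hC' w t F h ht0 hcw hokw ρ hρ (by linarith)
      have hsum := Real.circleAverage_fun_add (i1 ρ hρ hρ8) (i2 ρ hρ hρ8)
      have hlogt : 0 ≤ Real.log t := Real.log_nonneg ht
      have hm0 : (0 : ℝ) ≤ m := Nat.cast_nonneg m
      have hlm : 0 ≤ m * Real.log t := by positivity
      have e1 : ∀ z, Ok Q p F z → -Real.log (t ^ m * pf p F z) = -Real.log (pf p F z) - m * Real.log t := by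
        intro z hz
        rw [Real.log_mul (by positivity) hz.2.ne', Real.log_pow]
        ring
      have e2 : max (-Real.log (t ^ m * pf p F w)) 0 ≤ max (-Real.log (pf p F w)) 0 := by
        rw [e1 w hokw]
        exact max_le_max (by linarith) le_rfl
      have e3 : max (-Real.log (pf p F z)) 0 ≤ max (-Real.log (t ^ m * pf p F z)) 0 + m * Real.log t := by
        rw [e1 z hokz]
        refine max_le ?_ ?_
        · have := le_max_left (-Real.log (pf p F z) - m * Real.log t) 0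
          linarith
        · have := le_max_right (-Real.log (pf p F z) - m * Real.log t) 0
          linarith
      have e4 : C' * (1 + Lq Q d (F w) + max (-Real.log (t ^ m * pf p F w)) 0) ≤ C' * E w := by
        apply mul_le_mul_of_nonneg_left _ hC'0.le
        rw [hE]
        simp only
        linarith
      rw [hsum] at hfz
      have hEw := hGE w hGw
      have e5 : max (Lq Q d (F z)) 0 + max (-Real.log (t ^ m * pf p F z)) 0 ≤ 8 * π * (2 * (C' * E w)) := by
        refine hfz.trans (mul_le_mul_of_nonneg_left ?_ (by positivity))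
        linarith
      have e6 := le_max_left (Lq Q d (F z)) 0
      have e7 : E z ≤ 1 + 16 * π * C' * E w + m * Real.log t := by
        rw [hE] at e5 ⊢
        simp only at e5 ⊢
        linarith
      have e8 : 0 ≤ 16 * π * C' := by positivity
      rw [hA]
      nlinarith [mul_nonneg e8 hlogt, mul_nonneg hm0 (by linarith : (0 : ℝ) ≤ E w)]
  -- a starting point
  obtain ⟨w₀, hw₀G, hw₀⟩ : ∃ w₀, G w₀ ∧ 116 ≤ -w₀.re := by
    have h1 : ((-200 : ℝ) : ℂ) ∈ {w : ℂ | w.re < 0} := by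
      show ((-200 : ℝ) : ℂ).re < 0
      rw [Complex.ofReal_re]
      norm_num
    have h2 := hisol _ h1
    have h3 : ∀ᶠ w in 𝓝[≠] ((-200 : ℝ) : ℂ), w ∈ ball ((-200 : ℝ) : ℂ) 1 := mem_nhdsWithin_of_mem_nhds (ball_mem_nhds _ one_pos)
    obtain ⟨w₀, h4, h5⟩ := (h2.and h3).exists
    rw [mem_ball_iff_norm] at h5
    have h6 : |(w₀ - ((-200 : ℝ) : ℂ)).re| ≤ ‖w₀ - ((-200 : ℝ) : ℂ)‖ := Complex.abs_re_le_norm _
    rw [Complex.sub_re, Complex.ofReal_re] at h6
    have h7 := (abs_le.1 h6).2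
    refine ⟨w₀, ?_, by linarith⟩
    rw [hG]
    exact ⟨by linarith, h4⟩
  obtain ⟨q, K, hK0, hK⟩ := chain (t₀ := 1) hA1 hGE hperG hstep hw₀G (by linarith) hw₀
  refine ⟨w₀.re, 3 * (1 + C' * K), q, by linarith, by positivity, ?_⟩
  intro w hw
  obtain ⟨w₁, hG₁, hd, ht₁, -, hE₁⟩ := hK w (by linarith)
  rw [hG] at hG₁
  obtain ⟨t₁, ht₁d⟩ : ∃ t₁ : ℝ, t₁ = -w₁.re := ⟨_, rfl⟩
  rw [← ht₁d] at hd ht₁
  have ht₁0 : 0 < t₁ := by linarith
  have hc₁ : Cv X Λ u (ball w₁ t₁) F h := hc.mono (ball_sub_half ht₁d.le)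
  obtain ⟨a1, -, -⟩ := hC' w₁ t₁ F h ht₁0 hc₁ hG₁.2 (t₁ / 4) (by positivity) (by linarith)
  have hlogt : 0 ≤ Real.log t₁ := Real.log_nonneg ht₁
  have hm0 : (0 : ℝ) ≤ m := Nat.cast_nonneg m
  have hlm : 0 ≤ m * Real.log t₁ := by positivity
  have e2 : max (-Real.log (t₁ ^ m * pf p F w₁)) 0 ≤ max (-Real.log (pf p F w₁)) 0 := by
    rw [Real.log_mul (by positivity) hG₁.2.2.ne', Real.log_pow]
    exact max_le_max (by linarith) le_rfl
  obtain ⟨av, hav⟩ : ∃ av : ℝ, av = Real.circleAverage (fun z => ‖deriv h z‖ ^ 2) w₁ (t₁ / 4) := ⟨_, rfl⟩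
  have hav0 : 0 ≤ av := by
    rw [hav]
    exact Real.circleAverage_nonneg_of_nonneg fun z _ => by positivity
  have e3 : av ≤ C' * (K * (-w.re) ^ q) := by
    rw [← hav] at a1
    have h1 : av ≤ t₁ ^ 2 * av := le_mul_of_one_le_left hav0 (one_le_pow₀ ht₁)
    refine h1.trans (a1.trans (mul_le_mul_of_nonneg_left ?_ hC'0.le))
    refine le_trans ?_ hE₁
    rw [hE]
    simp only
    linarith
  have hdiff : DifferentiableOn ℂ (deriv h) (ball w₁ t₁) := hc₁.h_diff.deriv isOpen_ball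
  have hcl : closedBall w₁ (t₁ / 4) ⊆ ball w₁ t₁ := closedBall_subset_ball (by linarith)
  have hdc : DiffContOnCl ℂ (deriv h) (ball w₁ (t₁ / 4)) := by
    refine (hdiff.mono ?_).diffContOnCl
    rw [closure_ball w₁ (by positivity)]
    exact hcl
  have e4 := pois_norm (by positivity : (0 : ℝ) < t₁ / 4) hdc (w := w) (by linarith)
  have hcont : ContinuousOn (deriv h) (sphere w₁ |t₁ / 4|) := by
    rw [abs_of_pos (by positivity : (0 : ℝ) < t₁ / 4)]
    exact hdiff.continuousOn.mono (sphere_subset_closedBall.trans hcl)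
  have j1 : CircleIntegrable (fun z => ‖deriv h z‖) w₁ (t₁ / 4) := ContinuousOn.circleIntegrable' hcont.norm
  have j2 : CircleIntegrable (fun z => ‖deriv h z‖ ^ 2) w₁ (t₁ / 4) := ContinuousOn.circleIntegrable' (hcont.norm.pow 2)
  have e5 : Real.circleAverage (fun z => ‖deriv h z‖) w₁ (t₁ / 4) ≤ 1 + av := by
    have h1 : Real.circleAverage (fun z => ‖deriv h z‖) w₁ (t₁ / 4) ≤ Real.circleAverage (fun z => (1 : ℝ) + ‖deriv h z‖ ^ 2) w₁ (t₁ / 4) := by
      refine Real.circleAverage_mono j1 ((circleIntegrable_const _ _ _).add j2) ?_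
      intro z _
      nlinarith [sq_nonneg (‖deriv h z‖ - 1)]
    have h2 := Real.circleAverage_fun_add (circleIntegrable_const (1 : ℝ) w₁ (t₁ / 4)) j2
    rw [Real.circleAverage_const, ← hav] at h2
    linarith
  have habs : |w.re| = -w.re := abs_of_neg (by linarith)
  have h1 : (1 : ℝ) ≤ (1 + |w.re|) ^ q := one_le_pow₀ (by have := abs_nonneg w.re; linarith)
  have h2 : (-w.re) ^ q ≤ (1 + |w.re|) ^ q := by
    rw [habs]
    exact pow_le_pow_left₀ (by linarith) (by linarith) q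
  have h3 : C' * (K * (-w.re) ^ q) ≤ C' * K * (1 + |w.re|) ^ q := by
    rw [← mul_assoc]
    exact mul_le_mul_of_nonneg_left h2 (by positivity)
  linarith

end Pool.Agent.H56.G3
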