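import Mathlib

/-!
# G3 PerExt: holomorphic functions with period `2 π i` and polynomial growth on a half plane extend to the puncture
-/

set_option autoImplicit false

open Set Metric Filter Topology Real

namespace Pool.Agent.H56.G3

variable {E : Type*} [NormedAddCommGroup E] [NormedSpace ℂ E] [CompleteSpace E]

private lemma tend_log (K : ℝ) (p : ℕ) : Tendsto (fun z : ℂ => ‖z‖ * (K * (1 + |Real.log ‖z‖|) ^ p)) (𝓝[≠] 0) (𝓝 0) := by
  have hs : Tendsto (fun z : ℂ => - Real.log ‖z‖) (𝓝[≠] 0) atTop := by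
    have h1 : Tendsto (fun z : ℂ => ‖z‖) (𝓝[≠] 0) (𝓝[>] 0) := by
      apply tendsto_nhdsWithin_of_tendsto_nhds_of_eventually_within
      · have : Tendsto (fun z : ℂ => ‖z‖) (𝓝 0) (𝓝 ‖(0 : ℂ)‖) := continuous_norm.tendsto 0
        rw [norm_zero] at this
        exact this.mono_left nhdsWithin_le_nhds
      · filter_upwards [self_mem_nhdsWithin] with z hz
        exact norm_pos_iff.2 hz
    exact tendsto_neg_atBot_atTop.comp (Real.tendsto_log_nhdsGT_zero.comp h1)
  have hb : Tendsto (fun s : ℝ => (|K| * 2 ^ p) * (s ^ p * Real.exp (-s))) atTop (𝓝 0) := by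
    have := (tendsto_pow_mul_exp_neg_atTop_nhds_zero p).const_mul (|K| * 2 ^ p)
    rwa [mul_zero] at this
  have hc := hb.comp hs
  refine squeeze_zero_norm' ?_ hc
  filter_upwards [hs.eventually_ge_atTop 1, self_mem_nhdsWithin] with z hz hz0
  have hz0' : 0 < ‖z‖ := norm_pos_iff.2 hz0
  have hexp : Real.exp (-(-Real.log ‖z‖)) = ‖z‖ := by rw [neg_neg, Real.exp_log hz0']
  simp only [Function.comp]
  rw [hexp, norm_mul, norm_mul, norm_norm, Real.norm_eq_abs, norm_pow, Real.norm_eq_abs]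
  have habs : |Real.log ‖z‖| = -Real.log ‖z‖ := abs_of_nonpos (by linarith)
  rw [habs]
  have h1 : |1 + -Real.log ‖z‖| ≤ 2 * (-Real.log ‖z‖) := by
    rw [abs_of_nonneg (by linarith)]; linarith
  have h2 : |1 + -Real.log ‖z‖| ^ p ≤ (2 * (-Real.log ‖z‖)) ^ p := pow_le_pow_left₀ (abs_nonneg _) h1 p
  rw [mul_pow] at h2
  calc ‖z‖ * (|K| * |1 + -Real.log ‖z‖| ^ p) ≤ ‖z‖ * (|K| * (2 ^ p * (-Real.log ‖z‖) ^ p)) := by
        gcongr
    _ = |K| * 2 ^ p * ((-Real.log ‖z‖) ^ p * ‖z‖) := by ring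

/-- A holomorphic function on a half plane with period `2 π i` and polynomial growth is a holomorphic function of `exp w`. -/
theorem per_ext {g : ℂ → E} {T K : ℝ} {p : ℕ} (hg : DifferentiableOn ℂ g {w | w.re < T}) (hper : ∀ w : ℂ, w.re < T → g (w + 2 * π * Complex.I) = g w)
    (hb : ∀ w : ℂ, w.re < T → ‖g w‖ ≤ K * (1 + |w.re|) ^ p) :
    ∃ G : ℂ → E, DifferentiableOn ℂ G (ball 0 (Real.exp T)) ∧ ∀ w : ℂ, w.re < T → g w = G (Complex.exp w) := by
  have hre : ∀ (n : ℤ) (w : ℂ), (w + n * (2 * π * Complex.I)).re = w.re := by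
    intro n w; simp
  have hpn : ∀ (n : ℕ) (w : ℂ), w.re < T → g (w + n * (2 * π * Complex.I)) = g w := by
    intro n
    induction n with
    | zero => intro w _; simp
    | succ n ih =>
      intro w hw
      have h1 : w + ((n + 1 : ℕ) : ℂ) * (2 * π * Complex.I) = (w + n * (2 * π * Complex.I)) + 2 * π * Complex.I := by
        push_cast; ring
      have h2 : (w + n * (2 * π * Complex.I)).re < T := by
        have := hre n w
        push_cast at this
        rw [this]; exact hw
      rw [h1, hper _ h2, ih w hw]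
  have hpz : ∀ (n : ℤ) (w : ℂ), w.re < T → g (w + n * (2 * π * Complex.I)) = g w := by
    intro n w hw
    rcases Int.eq_nat_or_neg n with ⟨k, hk | hk⟩
    · rw [hk]; push_cast; exact hpn k w hw
    · have hw' : (w + n * (2 * π * Complex.I)).re < T := by rw [hre]; exact hw
      have h1 := hpn k _ hw'
      rw [hk] at h1 ⊢
      have h2 : w + ((-(k : ℤ) : ℤ) : ℂ) * (2 * π * Complex.I) + (k : ℂ) * (2 * π * Complex.I) = w := by
        push_cast; ring
      rw [h2] at h1
      exact h1.symm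
  have heq : ∀ w w' : ℂ, w'.re < T → Complex.exp w = Complex.exp w' → g w = g w' := by
    intro w w' hw h
    obtain ⟨n, hn⟩ := Complex.exp_eq_exp_iff_exists_int.1 h
    rw [hn]
    exact hpz n w' hw
  have hmem : ∀ z : ℂ, z ∈ ball (0 : ℂ) (Real.exp T) \ {0} → (Complex.log z).re < T := by
    intro z hz
    have hz0 : z ≠ 0 := hz.2
    rw [Complex.log_re, Real.log_lt_iff_lt_exp (norm_pos_iff.2 hz0)]
    simpa using hz.1
  have hd : DifferentiableOn ℂ (fun z => g (Complex.log z)) (ball 0 (Real.exp T) \ {0}) := by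
    intro z₀ hz₀
    have hz0 : z₀ ≠ 0 := hz₀.2
    have hopen : IsOpen {w : ℂ | w.re < T} := isOpen_lt Complex.continuous_re continuous_const
    have hat : DifferentiableAt ℂ (fun z => g (Complex.log z₀ + Complex.log (z / z₀))) z₀ := by
      have h1 : DifferentiableAt ℂ g (Complex.log z₀ + Complex.log (z₀ / z₀)) := by
        rw [div_self hz0, Complex.log_one, add_zero]
        exact (hg _ (hmem z₀ hz₀)).differentiableAt (hopen.mem_nhds (hmem z₀ hz₀))
      have h2 : DifferentiableAt ℂ (fun z : ℂ => Complex.log z₀ + Complex.log (z / z₀)) z₀ := by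
        apply DifferentiableAt.const_add
        apply DifferentiableAt.clog (by fun_prop)
        rw [div_self hz0]
        exact Complex.one_mem_slitPlane
      exact h1.comp z₀ h2
    have hev : (fun z => g (Complex.log z)) =ᶠ[𝓝 z₀] (fun z => g (Complex.log z₀ + Complex.log (z / z₀))) := by
      have ho : IsOpen (ball (0 : ℂ) (Real.exp T) \ {0}) := isOpen_ball.sdiff isClosed_singleton
      filter_upwards [ho.mem_nhds hz₀] with z hz
      refine (heq _ _ (hmem z hz) ?_).symm
      have hzz : z ≠ 0 := hz.2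
      rw [Complex.exp_add, Complex.exp_log hz0, Complex.exp_log (div_ne_zero hzz hz0), Complex.exp_log hzz]
      field_simp
    exact (hev.differentiableAt_iff.2 hat).differentiableWithinAt
  have hbd : ∀ z : ℂ, z ∈ ball (0 : ℂ) (Real.exp T) \ {0} → ‖g (Complex.log z)‖ ≤ K * (1 + |Real.log ‖z‖|) ^ p := by
    intro z hz
    have := hb _ (hmem z hz)
    rwa [Complex.log_re] at this
  have hnb : ball (0 : ℂ) (Real.exp T) ∈ 𝓝 (0 : ℂ) := ball_mem_nhds _ (Real.exp_pos T)
  have ho : (fun z : ℂ => g (Complex.log z) - g (Complex.log 0)) =o[𝓝[≠] 0] fun z => (z - 0)⁻¹ := by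
    have hn : ball (0 : ℂ) (Real.exp T) \ {0} ∈ 𝓝[≠] (0 : ℂ) := by
      rw [sdiff_eq, inter_comm]
      exact inter_mem self_mem_nhdsWithin (mem_nhdsWithin_of_mem_nhds hnb)
    have h1 : (fun z : ℂ => g (Complex.log z)) =o[𝓝[≠] 0] fun z => (z - 0)⁻¹ := by
      rw [Asymptotics.isLittleO_iff]
      intro c hc
      have ht := (tend_log K p).eventually (gt_mem_nhds hc)
      filter_upwards [ht, hn] with z hz hzn
      have hz0 : 0 < ‖z‖ := norm_pos_iff.2 hzn.2
      rw [sub_zero, norm_inv, ← div_eq_mul_inv, le_div_iff₀ hz0, mul_comm]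
      exact (mul_le_mul_of_nonneg_left (hbd z hzn) hz0.le).trans hz.le
    have h2 : (fun _ : ℂ => g (Complex.log 0)) =o[𝓝[≠] 0] fun z : ℂ => (z - 0)⁻¹ := by
      rw [Asymptotics.isLittleO_iff]
      intro c hc
      have ht : Tendsto (fun z : ℂ => ‖z‖ * ‖g (Complex.log 0)‖) (𝓝[≠] 0) (𝓝 0) := by
        have : Tendsto (fun z : ℂ => ‖z‖ * ‖g (Complex.log 0)‖) (𝓝 0) (𝓝 (‖(0 : ℂ)‖ * ‖g (Complex.log 0)‖)) := by
          exact (Continuous.tendsto (by fun_prop) 0)
        rw [norm_zero, zero_mul] at this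
        exact this.mono_left nhdsWithin_le_nhds
      filter_upwards [ht.eventually (gt_mem_nhds hc), hn] with z hz hzn
      have hz0 : 0 < ‖z‖ := norm_pos_iff.2 hzn.2
      rw [sub_zero, norm_inv, ← div_eq_mul_inv, le_div_iff₀ hz0, mul_comm]
      exact hz.le
    exact h1.sub h2
  have hG := Complex.differentiableOn_update_limUnder_of_isLittleO hnb hd ho
  refine ⟨_, hG, ?_⟩
  intro w hw
  rw [Function.update_of_ne (Complex.exp_ne_zero w)]
  refine (heq _ _ hw ?_).symm
  rw [Complex.exp_log (Complex.exp_ne_zero w)]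

end Pool.Agent.H56.G3
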