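import Pool.Agent.H56.G3.Pc3
import Pool.Agent.H56.G3.PerExt

/-!
# G3 Pc4: the derivative of the lift tends to `0` (supporting functions and the limit theorem)
-/

set_option autoImplicit false

open Topology Filter Metric MeasureTheory Real

namespace Pool.Agent.H56.G3

open Pool.Agent.H36.BP (EN fs wd Sub)
open Pool.Agent.H14.PP (IsCone CurveAt Tan)
open Pool.Agent.AD (Vd)
open Pool.Agent.TG (TMap Lat Gd)
open Pool.Agent.G3 (Cv PS QD Ok Lam Lq Np pf TT)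

variable {N k : ℕ} {X : Set (EN N)} {Λ : AddSubgroup (Vd (k + 1))} {u : EN N → Vd (k + 1)} {D : Set (Vd (k + 1))} {Q : EN N → ℂ} {d : ℕ}
  {p : EN N → EN N → ℝ} {m : ℕ} {C C₁ : ℝ}

theorem pf_add (F : ℂ → EN N) (a z : ℂ) : pf p (fun x => F (a + x)) z = pf p F (a + z) := by
  unfold pf
  rw [deriv_comp_const_add]

theorem Lam_add (F : ℂ → EN N) (h : ℂ → Vd (k + 1)) (a z : ℂ) : Lam Q d p m (fun x => F (a + x)) (fun x => h (a + x)) z = Lam Q d p m F h (a + z) := by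
  unfold Lam Np
  rw [pf_add, deriv_comp_const_add]

theorem Ok_add (F : ℂ → EN N) (a z : ℂ) : Ok Q p (fun x => F (a + x)) z ↔ Ok Q p F (a + z) := by
  unfold Ok
  rw [pf_add]

/-- good points far to the left -/
theorem exists_ok {F : ℂ → EN N} (hisol : ∀ z ∈ {w : ℂ | w.re < 0}, ∀ᶠ w in 𝓝[≠] z, Ok Q p F w) (M : ℝ) : ∃ w : ℂ, M ≤ -w.re ∧ w.re < 0 ∧ Ok Q p F w := by
  have h1 : ((-(|M| + 2) : ℝ) : ℂ) ∈ {w : ℂ | w.re < 0} := by
    show ((-(|M| + 2) : ℝ) : ℂ).re < 0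
    rw [Complex.ofReal_re]
    have := abs_nonneg M
    linarith
  have h2 := hisol _ h1
  have h3 : ∀ᶠ w in 𝓝[≠] ((-(|M| + 2) : ℝ) : ℂ), w ∈ ball ((-(|M| + 2) : ℝ) : ℂ) 1 := mem_nhdsWithin_of_mem_nhds (ball_mem_nhds _ one_pos)
  obtain ⟨w₀, h4, h5⟩ := (h2.and h3).exists
  rw [mem_ball_iff_norm] at h5
  have h6 : |(w₀ - ((-(|M| + 2) : ℝ) : ℂ)).re| ≤ ‖w₀ - ((-(|M| + 2) : ℝ) : ℂ)‖ := Complex.abs_re_le_norm _
  rw [Complex.sub_re, Complex.ofReal_re] at h6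
  have h7 := (abs_le.1 h6).2
  have h8 := le_abs_self M
  have h9 := abs_nonneg M
  exact ⟨w₀, by linarith, by linarith, h4⟩

theorem limit_zero (hX : IsCone X) (hps : PS X Λ u D p m C) (hqd : QD X Λ u D Q d) (hC₁ : 0 ≤ C₁) (hroot : RootLog X Λ u Q d p m C₁)
    (hlct : LCT X Λ u Q d p m) {F : ℂ → EN N} {h : ℂ → Vd (k + 1)} (hc : Cv X Λ u {w | w.re < 0} F h) (hok : ∃ w ∈ {w : ℂ | w.re < 0}, Ok Q p F w)
    {T : ℝ} {G : ℂ → Vd (k + 1)} (hG : ContinuousAt G 0) (hhG : ∀ w : ℂ, w.re < T → deriv h w = G (Complex.exp w)) : G 0 = 0 := by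
  by_contra ha
  have hU := isOpen_half 0
  have hisol := ok_isol hX hps hqd hU hc (convex_half 0).isPreconnected hok
  have ha0 : 0 < ‖G 0‖ := norm_pos_iff.2 ha
  -- the derivative is close to `G 0`
  have hnear : ∀ ε : ℝ, 0 < ε → ∃ M : ℝ, ∀ w : ℂ, M < -w.re → ‖deriv h w - G 0‖ ≤ ε := by
    intro ε hε
    obtain ⟨δ, hδ, hδ'⟩ := Metric.continuousAt_iff.1 hG ε hε
    refine ⟨max (-T) (-Real.log δ), fun w hw => ?_⟩
    have h1 : -T < -w.re := (le_max_left _ _).trans_lt hw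
    have h2 : -Real.log δ < -w.re := (le_max_right _ _).trans_lt hw
    rw [hhG w (by linarith)]
    have h3 : dist (Complex.exp w) 0 < δ := by
      rw [dist_zero_right, Complex.norm_exp, ← Real.lt_log_iff_exp_lt hδ]
      linarith
    rw [← dist_eq_norm]
    exact (hδ' h3).le
  obtain ⟨M₀, hM₀⟩ := hnear (‖G 0‖ / 2) (by positivity)
  obtain ⟨M₁, hM₁⟩ : ∃ M₁ : ℝ, M₁ = max M₀ 1 := ⟨_, rfl⟩
  have hM₁1 : 1 ≤ M₁ := by rw [hM₁]; exact le_max_right _ _
  have hlow : ∀ w : ℂ, M₁ < -w.re → ‖G 0‖ / 2 ≤ ‖deriv h w‖ := by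
    intro w hw
    have h1 := hM₀ w ((by rw [hM₁]; exact le_max_left _ _ : M₀ ≤ M₁).trans_lt hw)
    have h2 : ‖G 0‖ ≤ ‖deriv h w‖ + ‖deriv h w - G 0‖ := by
      calc ‖G 0‖ = ‖deriv h w - (deriv h w - G 0)‖ := by rw [sub_sub_cancel]
        _ ≤ ‖deriv h w‖ + ‖deriv h w - G 0‖ := norm_sub_le _ _
    linarith
  -- the lower bound of the functional
  obtain ⟨S, hS⟩ : ∃ S : Set ℂ, S = {w | M₁ < -w.re ∧ Ok Q p F w} := ⟨_, rfl⟩
  have hS' : ∀ w, w ∈ S ↔ M₁ < -w.re ∧ Ok Q p F w := fun w => by rw [hS]; rfl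
  have hSX : ∀ w ∈ S, 0 ≤ Lam Q d p m F h w := fun w hw => by
    have h1 := (hS' w).1 hw
    exact one_le_E hX hqd (hc.mem w (by show w.re < 0; linarith)) h1.2.1
  obtain ⟨c, hc0⟩ : ∃ c : ℝ, 0 < c ∧ ∀ w ∈ S, c * (-w.re) ^ 2 ≤ 1 + Lam Q d p m F h w := by
    refine ⟨‖G 0‖ ^ 2 / 4 / (C₁ + 1), by positivity, fun w hw => ?_⟩
    have h1 := (hS' w).1 hw
    have ht0 : 0 < -w.re := by linarith
    have h2 := (hroot w (-w.re) F h ht0 (hc.mono (ball_sub_half le_rfl)) h1.2).1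
    have h3 : (‖G 0‖ / 2) ^ 2 ≤ ‖deriv h w‖ ^ 2 := pow_le_pow_left₀ (by positivity) (hlow w h1.1) 2
    have h4 := hSX w hw
    rw [div_mul_eq_mul_div, div_le_iff₀ (by linarith)]
    have h5 : ‖G 0‖ ^ 2 / 4 * (-w.re) ^ 2 ≤ (-w.re) ^ 2 * ‖deriv h w‖ ^ 2 := by
      have h6 := mul_le_mul_of_nonneg_left h3 (sq_nonneg (-w.re))
      calc ‖G 0‖ ^ 2 / 4 * (-w.re) ^ 2 = (-w.re) ^ 2 * (‖G 0‖ / 2) ^ 2 := by ring
        _ ≤ _ := h6
    nlinarith
  obtain ⟨hc0, hclow⟩ := hc0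
  have hSne : ∀ M : ℝ, ∃ w ∈ S, M ≤ -w.re := by
    intro M
    obtain ⟨w, h1, -, h3⟩ := exists_ok hisol (max M (M₁ + 1))
    refine ⟨w, (hS' w).2 ⟨?_, h3⟩, (le_max_left _ _).trans h1⟩
    have := (le_max_right M (M₁ + 1)).trans h1
    linarith
  -- points of support
  have hsup : ∀ n : ℕ, ∃ w ∈ S, ∀ z ∈ S, Lam Q d p m F h w - n * -w.re ≤ Lam Q d p m F h z - n * -z.re + 1 / ((n : ℝ) + 1) := by
    intro n
    obtain ⟨I, hI⟩ : ∃ I : Set ℝ, I = (fun w => Lam Q d p m F h w - n * -w.re) '' S := ⟨_, rfl⟩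
    have hIne : I.Nonempty := by
      obtain ⟨w, hw, -⟩ := hSne 0
      rw [hI]
      exact ⟨_, w, hw, rfl⟩
    have hIb : BddBelow I := by
      refine ⟨-1 - n ^ 2 / (4 * c), ?_⟩
      rw [hI]
      rintro _ ⟨w, hw, rfl⟩
      have h1 := hclow w hw
      simp only
      have h2 : (n : ℝ) * -w.re ≤ c * (-w.re) ^ 2 + n ^ 2 / (4 * c) := by
        have h3 : 0 ≤ c * (-w.re - n / (2 * c)) ^ 2 := by positivity
        have h4 : c * (-w.re - n / (2 * c)) ^ 2 = c * (-w.re) ^ 2 - n * -w.re + n ^ 2 / (4 * c) := by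
          field_simp
          ring
        linarith
      linarith
    obtain ⟨x, hx, hx2⟩ := Real.lt_sInf_add_pos hIne (by positivity : (0 : ℝ) < 1 / ((n : ℝ) + 1))
    rw [hI] at hx
    obtain ⟨w, hw, rfl⟩ := hx
    refine ⟨w, hw, fun z hz => ?_⟩
    have h1 : sInf I ≤ Lam Q d p m F h z - n * -z.re := csInf_le hIb (by rw [hI]; exact ⟨z, hz, rfl⟩)
    simp only at hx2
    linarith
  choose w hwS hw using hsup
  have hn1 : ∀ n : ℕ, 1 / ((n : ℝ) + 1) ≤ 1 := by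
    intro n
    rw [div_le_one (by positivity)]
    have : (0 : ℝ) ≤ n := Nat.cast_nonneg n
    linarith
  have htend : Tendsto (fun n => -(w n).re) atTop atTop := by
    rw [Filter.tendsto_atTop]
    intro M
    obtain ⟨z, hz, hzM⟩ := hSne (M + 1)
    obtain ⟨n₀, hn₀⟩ := exists_nat_ge (Lam Q d p m F h z + 1)
    filter_upwards [eventually_ge_atTop (n₀ + 1)] with n hn
    have h1 := hw n z hz
    have h2 := hSX _ (hwS n)
    have h3 := hn1 n
    have hnr : (n₀ : ℝ) + 1 ≤ n := by exact_mod_cast hn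
    by_contra hcon
    push Not at hcon
    have h4 : (n : ℝ) * 1 ≤ n * (-z.re - -(w n).re) := mul_le_mul_of_nonneg_left (by linarith) (Nat.cast_nonneg n)
    have h5 : (n : ℝ) * (-z.re - -(w n).re) = n * -z.re - n * -(w n).re := by ring
    linarith
  -- the limit theorem
  refine hlct (G 0) (fun n x => F (w n + x)) (fun n x => h (w n + x)) (fun n x => Complex.exp (-(n : ℂ) * x)) ha ?_ ?_ ?_ ?_ ?_
  · intro r
    filter_upwards [htend.eventually_ge_atTop r] with n hn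
    refine hc.comp (φ := fun x => w n + x) (by fun_prop) ?_
    intro z hz
    apply ball_sub_half hn
    rw [mem_ball_zero_iff] at hz
    rw [mem_ball_iff_norm, add_sub_cancel_left]
    exact hz
  · intro n
    rw [Ok_add, add_zero]
    exact ((hS' _).1 (hwS n)).2
  · intro r ε hε
    obtain ⟨M, hM⟩ := hnear ε hε
    filter_upwards [htend.eventually_gt_atTop (M + r)] with n hn z hz
    rw [deriv_comp_const_add]
    apply hM
    rw [mem_ball_zero_iff] at hz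
    have h1 := (abs_le.1 ((Complex.abs_re_le_norm z).trans hz.le)).2
    rw [Complex.add_re]
    linarith
  · intro r
    filter_upwards with n
    refine ⟨by fun_prop, fun z _ => Complex.exp_ne_zero _, by simp⟩
  · intro r ε hε
    have h1 : ∀ᶠ n : ℕ in atTop, 1 / ((n : ℝ) + 1) < ε := (tendsto_one_div_add_atTop_nhds_zero_nat (𝕜 := ℝ)).eventually (gt_mem_nhds hε)
    filter_upwards [htend.eventually_gt_atTop (M₁ + r), h1] with n hn hn2 z hz hokz
    rw [Ok_add] at hokz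
    rw [Lam_add, Lam_add, add_zero]
    rw [mem_ball_zero_iff] at hz
    have h2 := (abs_le.1 ((Complex.abs_re_le_norm z).trans hz.le)).2
    have h3 := hw n (w n + z) ((hS' _).2 ⟨by rw [Complex.add_re]; linarith, hokz⟩)
    rw [Complex.norm_exp, Real.log_exp]
    have h4 : (-(n : ℂ) * z).re = -(n * z.re) := by simp
    rw [h4]
    rw [Complex.add_re] at h3
    have h5 : (n : ℝ) * -((w n).re + z.re) = n * -(w n).re - n * z.re := by ring
    linarith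

end Pool.Agent.H56.G3
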