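import Pool.Agent.H56.G3.Pc4
import Pool.Agent.AD.F.Rem
import Pool.Agent.G4.M.Rem
import Pool.Agent.H36.BP.SubB

/-!
# G3 Pc5: the extension if the derivative of the lift tends to `0`
-/

set_option autoImplicit false

open Topology Filter Metric MeasureTheory Real

namespace Pool.Agent.H56.G3

open Pool.Agent.H36.BP (EN fs wd Sub Curve)
open Pool.Agent.H14.PP (IsCone CurveAt Tan)
open Pool.Agent.AD (Vd)
open Pool.Agent.TG (TMap Lat Gd)
open Pool.Agent.G3 (Cv PS QD Ok Lam Lq Np pf TT)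

variable {N k : ℕ} {X : Set (EN N)} {Λ : AddSubgroup (Vd (k + 1))} {u : EN N → Vd (k + 1)} {D : Set (Vd (k + 1))} {Q : EN N → ℂ} {d : ℕ}
  {p : EN N → EN N → ℝ} {m : ℕ} {C C₁ : ℝ}

/-- local lifts on the punctured disc -/
theorem local_cv {F₀ : ℂ → EN N} (hF₀ : Curve X (ball 0 1 \ {0}) F₀) {h : ℂ → Vd (k + 1)} (hc : Cv X Λ u {w | w.re < 0} (fun w => F₀ (Complex.exp w)) h)
    {z₁ : ℂ} (hz₁ : z₁ ∈ ball (0 : ℂ) 1 \ {0}) :
    ∃ (U : Set ℂ) (h₁ : ℂ → Vd (k + 1)), IsOpen U ∧ z₁ ∈ U ∧ U ⊆ ball 0 1 \ {0} ∧ Cv X Λ u U F₀ h₁ ∧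
      ∀ z ∈ U, ∃ w : ℂ, w.re = Real.log ‖z‖ ∧ Complex.exp w = z ∧ deriv h₁ z = (1 / z) • deriv h w := by
  have hz₁0 : z₁ ≠ 0 := hz₁.2
  obtain ⟨φ, hφ⟩ : ∃ φ : ℂ → ℂ, φ = fun z => Complex.log z₁ + Complex.log (z / z₁) := ⟨_, rfl⟩
  obtain ⟨U, hU⟩ : ∃ U : Set ℂ, U = ball 0 1 ∩ (fun z : ℂ => z / z₁) ⁻¹' Complex.slitPlane := ⟨_, rfl⟩
  have hUo : IsOpen U := by
    rw [hU]
    exact isOpen_ball.inter (Complex.isOpen_slitPlane.preimage (by fun_prop))
  have hsl : ∀ z ∈ U, z / z₁ ∈ Complex.slitPlane := fun z hz => by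
    rw [hU] at hz
    exact hz.2
  have hU0 : ∀ z ∈ U, z ≠ 0 := by
    rintro z hz rfl
    have h1 := hsl 0 hz
    rw [zero_div] at h1
    exact Complex.zero_notMem_slitPlane h1
  have hU1 : ∀ z ∈ U, ‖z‖ < 1 := by
    intro z hz
    rw [hU] at hz
    simpa using hz.1
  have hexp : ∀ z ∈ U, Complex.exp (φ z) = z := by
    intro z hz
    rw [hφ]
    simp only
    rw [Complex.exp_add, Complex.exp_log hz₁0, Complex.exp_log (div_ne_zero (hU0 z hz) hz₁0)]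
    field_simp
  have hre : ∀ z ∈ U, (φ z).re = Real.log ‖z‖ := by
    intro z hz
    have h1 : ‖Complex.exp (φ z)‖ = ‖z‖ := by rw [hexp z hz]
    rw [Complex.norm_exp] at h1
    rw [← h1, Real.log_exp]
  have hneg : ∀ z ∈ U, (φ z).re < 0 := by
    intro z hz
    rw [hre z hz]
    exact Real.log_neg (norm_pos_iff.2 (hU0 z hz)) (hU1 z hz)
  have hder : ∀ z ∈ U, HasDerivAt φ (1 / z) z := by
    intro z hz
    rw [hφ]
    have h1 : HasDerivAt (fun z : ℂ => z / z₁) (1 / z₁) z := (hasDerivAt_id z).div_const z₁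
    have h2 := (h1.clog (hsl z hz)).const_add (Complex.log z₁)
    have h3 : 1 / z₁ / (z / z₁) = 1 / z := by
      have := hU0 z hz
      field_simp
    rwa [h3] at h2
  have hsub : U ⊆ ball 0 1 \ {0} := fun z hz => ⟨by simpa using hU1 z hz, hU0 z hz⟩
  refine ⟨U, fun z => h (φ z), hUo, ?_, hsub, ?_, ?_⟩
  · rw [hU]
    refine ⟨hz₁.1, ?_⟩
    simp only [Set.mem_preimage]
    rw [div_self hz₁0]
    exact Complex.one_mem_slitPlane
  · refine ⟨hF₀.1.mono hsub, ?_, fun z hz => hF₀.2 z (hsub hz), ?_⟩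
    · refine hc.h_diff.comp (fun z hz => (hder z hz).differentiableAt.differentiableWithinAt) hneg
    · intro z hz
      have h1 := hc.lift (φ z) (hneg z hz)
      rw [hexp z hz] at h1
      exact h1
  · intro z hz
    refine ⟨φ z, hre z hz, hexp z hz, ?_⟩
    have h1 : DifferentiableAt ℂ h (φ z) := hc.h_diff.differentiableAt ((isOpen_half 0).mem_nhds (hneg z hz))
    exact (h1.hasDerivAt.scomp z (hder z hz)).deriv

/-- circles without degenerate points -/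
theorem good_circle {P : ℂ → Prop} (h : ∀ z ∈ {w : ℂ | w.re < 0}, ∀ᶠ w in 𝓝[≠] z, P w) {a b : ℝ} (hab : a < b) (hb : b ≤ 0) :
    ∃ x : ℝ, a < x ∧ x < b ∧ ∀ w : ℂ, w.re = x → P w := by
  have h1 := (countable_bad h).image Complex.re
  have h2 := h1.dense_compl ℝ
  obtain ⟨x, hx1, hx2⟩ := h2.exists_between hab
  refine ⟨x, hx2.1, hx2.2, fun w hw => ?_⟩
  by_contra hcon
  apply hx1
  refine ⟨w, ⟨?_, hcon⟩, hw⟩
  show w.re < 0
  rw [hw]
  linarith [hx2.2]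

theorem ext_of_zero (hX : IsCone X) (hps : PS X Λ u D p m C) (hqd : QD X Λ u D Q d) {C₂ : ℝ} (hC₂ : 0 < C₂) (hahl : Ahl X Λ u p m C₂)
    {F₀ : ℂ → EN N} (hF₀ : Curve X (ball 0 1 \ {0}) F₀) {h : ℂ → Vd (k + 1)} (hc : Cv X Λ u {w | w.re < 0} (fun w => F₀ (Complex.exp w)) h)
    (hok : ∃ w ∈ {w : ℂ | w.re < 0}, Ok Q p (fun w => F₀ (Complex.exp w)) w)
    {T : ℝ} {G : ℂ → Vd (k + 1)} (hG : DifferentiableAt ℂ G 0) (hhG : ∀ w : ℂ, w.re < T → deriv h w = G (Complex.exp w)) (hG0 : G 0 = 0) :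
    ∃ A : ℂ → EN N, AnalyticAt ℂ A 0 ∧ A 0 ≠ 0 ∧ ∀ᶠ z in 𝓝[≠] (0 : ℂ), ∃ k : ℂ, k ≠ 0 ∧ A z = k • F₀ z := by
  have hUo := isOpen_half 0
  have hisol := ok_isol hX hps hqd hUo hc (convex_half 0).isPreconnected hok
  have hC := hps.C_ge
  -- the bound of the derivative of the lift
  obtain ⟨H, hH0, s, hs0, hHs⟩ : ∃ H : ℝ, 0 ≤ H ∧ ∃ s : ℝ, 0 < s ∧ ∀ z : ℂ, ‖z‖ < s → ‖G z‖ ≤ H * ‖z‖ := by
    have h1 := hG.isBigO_sub
    obtain ⟨c, hc0, hc1⟩ := h1.exists_nonneg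
    rw [Asymptotics.isBigOWith_iff] at hc1
    obtain ⟨s, hs, hs1⟩ := Metric.eventually_nhds_iff.1 hc1
    refine ⟨c, hc0, s, hs, fun z hz => ?_⟩
    have h2 := hs1 (y := z) (by rwa [dist_zero_right])
    rwa [hG0, sub_zero, sub_zero] at h2
  obtain ⟨T₁, hT₁⟩ : ∃ T₁ : ℝ, T₁ = min (min T (Real.log s)) 0 := ⟨_, rfl⟩
  have hT₁T : T₁ ≤ T := by rw [hT₁]; exact (min_le_left _ _).trans (min_le_left _ _)
  have hT₁s : T₁ ≤ Real.log s := by rw [hT₁]; exact (min_le_left _ _).trans (min_le_right _ _)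
  have hT₁0 : T₁ ≤ 0 := by rw [hT₁]; exact min_le_right _ _
  have hder : ∀ w : ℂ, w.re < T₁ → ‖deriv h w‖ ≤ H * ‖Complex.exp w‖ := by
    intro w hw
    rw [hhG w (by linarith)]
    apply hHs
    rw [Complex.norm_exp, ← Real.lt_log_iff_exp_lt hs0]
    linarith
  -- the bound of `p`
  obtain ⟨B, hB⟩ : ∃ B : ℝ, B = (C₂ * (1 / 1 + H)) ^ m := ⟨_, rfl⟩
  have hB0 : 0 < B := by
    rw [hB]
    exact pow_pos (mul_pos hC₂ (by positivity)) m
  have hpB : ∀ w : ℂ, w.re < T₁ - 1 → pf p (fun w => F₀ (Complex.exp w)) w ≤ B := by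
    intro w hw
    rw [hB]
    have hre : ∀ z ∈ ball w 1, z.re < T₁ := by
      intro z hz
      rw [mem_ball_iff_norm] at hz
      have h6 : |(z - w).re| ≤ ‖z - w‖ := Complex.abs_re_le_norm _
      rw [Complex.sub_re] at h6
      have h7 := (abs_le.1 h6).2
      linarith
    refine hahl _ h w 1 H one_pos hH0 (hc.mono fun z hz => ?_) ?_
    · show z.re < 0
      linarith [hre z hz]
    · intro z hz
      refine (hder z (hre z hz)).trans ?_
      have h1 : ‖Complex.exp z‖ ≤ 1 := by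
        rw [Complex.norm_exp, Real.exp_le_one_iff]
        linarith [hre z hz]
      calc H * ‖Complex.exp z‖ ≤ H * 1 := mul_le_mul_of_nonneg_left h1 hH0
        _ = H := mul_one H
  -- `p` on the punctured disc
  have hpf : ∀ z ∈ ball (0 : ℂ) 1 \ {0}, pf p (fun w => F₀ (Complex.exp w)) (Complex.log z) = ‖z‖ ^ m * pf p F₀ z := by
    intro z hz
    have hz0 : z ≠ 0 := hz.2
    obtain ⟨U, h₁, hU1, hU2, hU3, hU4, -⟩ := local_cv hF₀ hc hz
    have h2 := pf_comp hU1 hU4 hps (φ := Complex.exp) (z := Complex.log z) Complex.differentiableAt_exp (by rw [Complex.exp_log hz0]; exact hU2)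
    rw [h2, Complex.deriv_exp, Complex.exp_log hz0]
  obtain ⟨r₁, hr₁⟩ : ∃ r₁ : ℝ, r₁ = Real.exp (T₁ - 1) := ⟨_, rfl⟩
  have hr₁0 : 0 < r₁ := by rw [hr₁]; exact Real.exp_pos _
  have hr₁1 : r₁ ≤ 1 := by
    rw [hr₁, Real.exp_le_one_iff]
    linarith
  have hmem : ∀ z ∈ ball (0 : ℂ) r₁ \ {0}, z ∈ ball (0 : ℂ) 1 \ {0} := fun z hz => ⟨ball_subset_ball hr₁1 hz.1, hz.2⟩
  have hlogre : ∀ z ∈ ball (0 : ℂ) r₁ \ {0}, Real.log ‖z‖ < T₁ - 1 := by
    intro z hz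
    have hz0 : 0 < ‖z‖ := norm_pos_iff.2 hz.2
    rw [Real.log_lt_iff_lt_exp hz0, ← hr₁]
    simpa using hz.1
  obtain ⟨a, ha⟩ : ∃ a : ℝ, a = C * H ^ 2 := ⟨_, rfl⟩
  have ha0 : 0 ≤ a := by rw [ha]; positivity
  obtain ⟨c₀, hc₀⟩ : ∃ c₀ : ℝ, c₀ = (B * Real.exp a)⁻¹ := ⟨_, rfl⟩
  have hc₀0 : 0 < c₀ := by rw [hc₀]; positivity
  obtain ⟨R, hR⟩ : ∃ R : ℂ → ℝ, R = fun z => c₀ * (‖z ^ m‖ * pf p F₀ z * Real.exp (a * ‖z‖ ^ 2)) := ⟨_, rfl⟩
  have hpn : ∀ z, 0 ≤ pf p F₀ z := fun z => hps.nonneg _ _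
  have hRc : ContinuousOn R (ball 0 r₁ \ {0}) := by
    intro z hz
    obtain ⟨U, h₁, hU1, hU2, hU3, hU4, -⟩ := local_cv hF₀ hc (hmem z hz)
    have h1 := ((hps.cont U F₀ h₁ hU1 hU4).continuousAt (hU1.mem_nhds hU2))
    rw [hR]
    refine ContinuousAt.continuousWithinAt ?_
    refine continuousAt_const.mul ((ContinuousAt.mul ?_ h1).mul ?_)
    · fun_prop
    · fun_prop
  have hR0 : ∀ z ∈ ball (0 : ℂ) r₁ \ {0}, 0 ≤ R z := by
    intro z _
    rw [hR]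
    have := hpn z
    positivity
  have hR1 : ∀ z ∈ ball (0 : ℂ) r₁ \ {0}, R z ≤ 1 := by
    intro z hz
    have h1 := hpf z (hmem z hz)
    have h2 := hpB (Complex.log z) (by rw [Complex.log_re]; exact hlogre z hz)
    rw [h1] at h2
    have h3 : Real.exp (a * ‖z‖ ^ 2) ≤ Real.exp a := by
      apply Real.exp_le_exp.2
      have h4 : ‖z‖ ≤ 1 := by
        have := hz.1
        rw [mem_ball_zero_iff] at this
        linarith
      have h5 : ‖z‖ ^ 2 ≤ 1 := pow_le_one₀ (norm_nonneg z) h4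
      nlinarith
    rw [hR, hc₀]
    simp only
    rw [norm_pow, inv_mul_le_one₀ (by positivity)]
    exact mul_le_mul h2 h3 (Real.exp_pos _).le hB0.le
  have hRs : ∀ z ∈ ball (0 : ℂ) r₁ \ {0}, 0 < R z → ∀ᶠ s in 𝓝[>] (0 : ℝ), Real.log (R z) + 1 * TT F₀ z s ≤ Real.circleAverage (fun w => Real.log (R w)) z s := by
    intro z hz hpos
    have hz0 : z ≠ 0 := hz.2
    have hp0 : 0 < pf p F₀ z := by
      rcases (hpn z).eq_or_lt with h1 | h1
      · rw [hR] at hpos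
        simp only at hpos
        rw [← h1, mul_zero, zero_mul, mul_zero] at hpos
        exact absurd hpos (lt_irrefl _)
      · exact h1
    obtain ⟨U, h₁, hU1, hU2, hU3, hU4, hU5⟩ := local_cv hF₀ hc (hmem z hz)
    have hcont := hps.cont U F₀ h₁ hU1 hU4
    have e1 : ∀ᶠ w in 𝓝 z, w ∈ U := hU1.mem_nhds hU2
    have e2 : ∀ᶠ w in 𝓝 z, w ∈ ball (0 : ℂ) r₁ \ {0} := (isOpen_ball.sdiff isClosed_singleton).mem_nhds hz
    have e3 : ∀ᶠ w in 𝓝 z, 0 < pf p F₀ w := (hcont.continuousAt (hU1.mem_nhds hU2)).eventually_const_lt hp0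
    have hev := e1.and (e2.and e3)
    obtain ⟨ρ, hρ, hball⟩ := Metric.eventually_nhds_iff_ball.1 hev
    have hder₁ : ∀ w ∈ ball z ρ, ‖deriv h₁ w‖ ≤ H := by
      intro w hw
      obtain ⟨hwU, hwr, -⟩ := hball w hw
      obtain ⟨w', hw1, hw2, hw3⟩ := hU5 w hwU
      have hwn : 0 < ‖w‖ := norm_pos_iff.2 hwr.2
      rw [hw3, norm_smul, norm_div, norm_one]
      have h4 := hder w' (by rw [hw1]; linarith [hlogre w hwr])
      rw [hw2] at h4
      calc 1 / ‖w‖ * ‖deriv h w'‖ ≤ 1 / ‖w‖ * (H * ‖w‖) := mul_le_mul_of_nonneg_left h4 (by positivity)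
        _ = H := by field_simp
    have hsm : ∀ᶠ s in 𝓝[>] (0 : ℝ), s < ρ := nhdsWithin_le_nhds (Iio_mem_nhds hρ)
    filter_upwards [hsm, self_mem_nhdsWithin] with s hs hs0
    have hs0 : 0 < s := hs0
    have hcb : closedBall z s ⊆ ball z ρ := closedBall_subset_ball hs
    have hcU : closedBall z s ⊆ U := fun w hw => (hball w (hcb hw)).1
    have hsph : ∀ w ∈ sphere z s, w ∈ ball z ρ := fun w hw => hcb (sphere_subset_closedBall hw)
    obtain ⟨hJ1, hJ2⟩ := hps.jensen U F₀ h₁ hU1 hU4 z s hs0 hcU hp0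
    have hh : ∀ w ∈ sphere z s, ‖h₁ w - h₁ z‖ ^ 2 ≤ H ^ 2 * s ^ 2 := by
      intro w hw
      have h1 := (convex_ball z ρ).norm_image_sub_le_of_norm_deriv_le (f := h₁) (C := H)
        (fun w hw => hU4.h_diff.differentiableAt (hU1.mem_nhds (hball w hw).1)) hder₁ (mem_ball_self hρ) (hsph w hw)
      rw [mem_sphere_iff_norm.1 hw] at h1
      rw [← mul_pow]
      exact pow_le_pow_left₀ (norm_nonneg _) h1 2
    have hhc : ContinuousOn h₁ (sphere z s) := hU4.h_diff.continuousOn.mono fun w hw => (hball w (hsph w hw)).1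
    have havh : Real.circleAverage (fun w => ‖h₁ w - h₁ z‖ ^ 2) z s ≤ H ^ 2 * s ^ 2 := by
      refine Real.circleAverage_mono_on_of_le_circle (((hhc.sub continuousOn_const).norm.pow 2).circleIntegrable hs0.le) fun w hw => ?_
      rw [abs_of_pos hs0] at hw
      exact hh w hw
    have hav1 : Real.log ‖z ^ m‖ ≤ Real.circleAverage (fun w : ℂ => Real.log ‖w ^ m‖) z s :=
      Pool.Agent.G4.M.log_norm_le_cA (a := fun w : ℂ => w ^ m) hs0 (fun w _ => analyticAt_id.pow m) (pow_ne_zero m hz0)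
    have hav2 := Pool.Agent.G4.M.avg_norm_sq z hs0
    have hlogR : ∀ w ∈ ball z ρ, Real.log (R w) = Real.log ‖w ^ m‖ + Real.log (pf p F₀ w) + a • ‖w‖ ^ 2 + Real.log c₀ := by
      intro w hw
      obtain ⟨-, h2, h3⟩ := hball w hw
      have h4 : 0 < ‖w ^ m‖ := norm_pos_iff.2 (pow_ne_zero m h2.2)
      rw [hR]
      simp only
      rw [Real.log_mul hc₀0.ne' (mul_pos (mul_pos h4 h3) (Real.exp_pos _)).ne', Real.log_mul (mul_pos h4 h3).ne' (Real.exp_pos _).ne', Real.log_mul h4.ne' h3.ne', Real.log_exp,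
        smul_eq_mul]
      ring
    have hI1 : CircleIntegrable (fun w : ℂ => Real.log ‖w ^ m‖) z s := by
      refine ContinuousOn.circleIntegrable hs0.le (ContinuousOn.log (Continuous.continuousOn (by fun_prop)) fun w hw => ?_)
      exact (norm_pos_iff.2 (pow_ne_zero m (hball w (hsph w hw)).2.1.2)).ne'
    have hI2 : CircleIntegrable (fun w : ℂ => ‖w‖ ^ 2) z s := ContinuousOn.circleIntegrable hs0.le (Continuous.continuousOn (by fun_prop))
    have havR : Real.circleAverage (fun w => Real.log (R w)) z s = Real.circleAverage (fun w : ℂ => Real.log ‖w ^ m‖) z s +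
        Real.circleAverage (fun w => Real.log (pf p F₀ w)) z s + a * (‖z‖ ^ 2 + s ^ 2) + Real.log c₀ := by
      have h1 : Real.circleAverage (fun w => Real.log (R w)) z s =
          Real.circleAverage (fun w => Real.log ‖w ^ m‖ + Real.log (pf p F₀ w) + a • ‖w‖ ^ 2 + Real.log c₀) z s := by
        refine Real.circleAverage_congr_sphere fun w hw => ?_
        rw [abs_of_pos hs0] at hw
        exact hlogR w (hsph w hw)
      rw [h1, Real.circleAverage_fun_add ((hI1.fun_add hJ1).fun_add hI2.const_fun_smul) (circleIntegrable_const _ _ _), Real.circleAverage_const,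
        Real.circleAverage_fun_add (hI1.fun_add hJ1) hI2.const_fun_smul, Real.circleAverage_fun_add hI1 hJ1, Real.circleAverage_fun_smul, hav2, smul_eq_mul]
    rw [havR, hlogR z (mem_ball_self hρ), smul_eq_mul]
    have h5 : C * Real.circleAverage (fun w => ‖h₁ w - h₁ z‖ ^ 2) z s ≤ C * (H ^ 2 * s ^ 2) := mul_le_mul_of_nonneg_left havh (by linarith)
    have h6 : a * s ^ 2 = C * (H ^ 2 * s ^ 2) := by
      rw [ha]
      ring
    linarith
  -- the circles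
  obtain ⟨x₂, hx₂a, hx₂b, hx₂⟩ := good_circle hisol (a := T₁ - 2) (b := T₁ - 1) (by linarith) (by linarith)
  obtain ⟨x₁, hx₁a, hx₁b, hx₁⟩ := good_circle hisol (a := T₁ - 3) (b := T₁ - 2) (by linarith) (by linarith)
  have hposx : ∀ x : ℝ, x < T₁ - 1 → (∀ w : ℂ, w.re = x → Ok Q p (fun w => F₀ (Complex.exp w)) w) → ∀ z : ℂ, ‖z‖ = Real.exp x → 0 < R z := by
    intro x hx hxo z hz
    have hz0 : z ≠ 0 := by
      rw [← norm_pos_iff, hz]
      exact Real.exp_pos _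
    have hzm : z ∈ ball (0 : ℂ) 1 \ {0} := by
      refine ⟨?_, hz0⟩
      rw [mem_ball_zero_iff, hz, Real.exp_lt_one_iff]
      linarith
    have h1 := (hxo (Complex.log z) (by rw [Complex.log_re, hz, Real.log_exp])).2
    rw [hpf z hzm] at h1
    rw [hR]
    simp only
    rw [norm_pow]
    positivity
  refine Pool.Agent.G4.M.removable (κ := 1) (s₁ := Real.exp x₁) (s₂ := Real.exp x₂) (r₁ := r₁) (by norm_num) (Real.exp_pos _)
    (Real.exp_lt_exp.2 (by linarith)) ?_ hr₁1 hF₀.1 (fun z hz h0 => hX.zero_notMem (h0 ▸ hF₀.2 z hz)) hRc hR0 hR1 hRs ?_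
  · rw [hr₁]
    exact Real.exp_lt_exp.2 (by linarith)
  · rintro z (hz | hz)
    · exact hposx x₁ (by linarith) hx₁ z hz
    · exact hposx x₂ (by linarith) hx₂ z hz

end Pool.Agent.H56.G3
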