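import Pool.Agent.H56.G3.Pc5
import Pool.Agent.AD.T.Ell

/-!
# G3 Pc6: lifts of maps of the half plane to the torus
-/

set_option autoImplicit false

open Topology Filter Metric

namespace Pool.Agent.H56.G3

open Pool.Agent.H36.BP (EN fs wd)
open Pool.Agent.H14.PP (IsCone CurveAt Tan)
open Pool.Agent.H22.W (tan_curve)
open Pool.Agent.AD (Vd Charts TorusMapV DiscreteSub deriv_comp_lift eventually_const_of_mem)

/-- primitives on the half plane -/
theorem half_primitive {E : Type*} [NormedAddCommGroup E] [NormedSpace ℂ E] [CompleteSpace E] {ψ : ℂ → E} (hψ : DifferentiableOn ℂ ψ {w | w.re < 0}) :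
    ∃ g : ℂ → E, ∀ z ∈ {w : ℂ | w.re < 0}, HasDerivAt g (ψ z) z := by
  -- the map `ζ ↦ (ζ + 1) / (ζ - 1)` of the disc onto the half plane is an involution
  obtain ⟨c, hc⟩ : ∃ c : ℂ → ℂ, c = fun ζ => (ζ + 1) / (ζ - 1) := ⟨_, rfl⟩
  have hcd : ∀ ζ : ℂ, ζ ≠ 1 → HasDerivAt c (-2 / (ζ - 1) ^ 2) ζ := by
    intro ζ hζ
    have h1 : ζ - 1 ≠ 0 := sub_ne_zero.2 hζ
    have h2 := ((hasDerivAt_id ζ).add_const (1 : ℂ)).div ((hasDerivAt_id ζ).sub_const (1 : ℂ)) h1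
    rw [hc]
    convert! h2 using 1
    simp only [id]
    congr 1
    ring
  have hcc : ∀ z : ℂ, z ≠ 1 → c (c z) = z := by
    intro z hz
    have h1 : z - 1 ≠ 0 := sub_ne_zero.2 hz
    have h2 : (z + 1) / (z - 1) - 1 = 2 / (z - 1) := by
      field_simp
      ring
    rw [hc]
    simp only
    rw [h2]
    field_simp
    ring
  have hne : ∀ z ∈ {w : ℂ | w.re < 0}, z ≠ 1 := by
    rintro z hz rfl
    have : (1 : ℂ).re < 0 := hz
    rw [Complex.one_re] at this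
    linarith
  have hcne : ∀ z : ℂ, z ≠ 1 → c z ≠ 1 := by
    intro z hz h
    have h1 : z - 1 ≠ 0 := sub_ne_zero.2 hz
    rw [hc] at h
    simp only at h
    rw [div_eq_one_iff_eq h1] at h
    have h2 : (2 : ℂ) = 0 := by linear_combination h
    exact two_ne_zero h2
  have hball : ∀ z ∈ {w : ℂ | w.re < 0}, c z ∈ ball (0 : ℂ) 1 := by
    intro z hz
    have hz' : z.re < 0 := hz
    have h1 : z - 1 ≠ 0 := sub_ne_zero.2 (hne z hz)
    rw [mem_ball_zero_iff, hc]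
    simp only
    rw [norm_div, div_lt_one (norm_pos_iff.2 h1)]
    have h2 : ‖z + 1‖ ^ 2 < ‖z - 1‖ ^ 2 := by
      rw [← Complex.normSq_eq_norm_sq, ← Complex.normSq_eq_norm_sq, Complex.normSq_apply, Complex.normSq_apply]
      simp only [Complex.add_re, Complex.one_re, Complex.add_im, Complex.one_im, Complex.sub_re, Complex.sub_im]
      nlinarith
    exact lt_of_pow_lt_pow_left₀ 2 (norm_nonneg _) h2
  have hhalf : ∀ ζ ∈ ball (0 : ℂ) 1, ζ ≠ 1 ∧ (c ζ).re < 0 := by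
    intro ζ hζ
    rw [mem_ball_zero_iff] at hζ
    have hζ1 : ζ ≠ 1 := by
      rintro rfl
      rw [norm_one] at hζ
      exact lt_irrefl _ hζ
    have h1 : ζ - 1 ≠ 0 := sub_ne_zero.2 hζ1
    refine ⟨hζ1, ?_⟩
    rw [hc]
    simp only
    rw [Complex.div_re]
    have h3 : 0 < Complex.normSq (ζ - 1) := Complex.normSq_pos.2 h1
    have h4 : ‖ζ‖ ^ 2 < 1 := by
      have := norm_nonneg ζ
      nlinarith
    rw [← Complex.normSq_eq_norm_sq, Complex.normSq_apply] at h4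
    simp only [Complex.add_re, Complex.one_re, Complex.add_im, Complex.one_im, Complex.sub_re, Complex.sub_im, add_zero, sub_zero]
    rw [← add_div]
    apply div_neg_of_neg_of_pos _ h3
    nlinarith
  have hψc : DifferentiableOn ℂ (fun ζ => (-2 / (ζ - 1) ^ 2) • ψ (c ζ)) (ball 0 1) := by
    intro ζ hζ
    obtain ⟨h1, h2⟩ := hhalf ζ hζ
    have h3 : ζ - 1 ≠ 0 := sub_ne_zero.2 h1
    have h4 : DifferentiableAt ℂ ψ (c ζ) := hψ.differentiableAt ((isOpen_half 0).mem_nhds h2)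
    have h5 : DifferentiableAt ℂ (fun ζ => ψ (c ζ)) ζ := h4.comp ζ (hcd ζ h1).differentiableAt
    have h6 : DifferentiableAt ℂ (fun ζ : ℂ => -2 / (ζ - 1) ^ 2) ζ := by
      refine DifferentiableAt.div (by fun_prop) (by fun_prop) (pow_ne_zero 2 h3)
    exact (h6.smul h5).differentiableWithinAt
  obtain ⟨g, hg⟩ := hψc.isExactOn_ball
  refine ⟨fun z => g (c z), fun z hz => ?_⟩
  have h1 := hne z hz
  have h2 := hg (c z) (hball z hz)
  simp only [hcc z h1] at h2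
  have h3 := h2.scomp z (hcd z h1)
  convert! h3 using 1
  rw [smul_smul]
  have h4 : z - 1 ≠ 0 := sub_ne_zero.2 h1
  have h5 : c z - 1 = 2 / (z - 1) := by
    rw [hc]
    field_simp
    ring
  have h6 : -2 / (z - 1) ^ 2 * (-2 / (c z - 1) ^ 2) = 1 := by
    rw [h5]
    field_simp
  rw [h6, one_smul]

variable {N n : ℕ} {X : Set (EN N)} {Λ : AddSubgroup (Vd n)} {u : EN N → Vd n}

/-- the composition of a curve and the map to the torus lifts to `ℂ^n` -/
theorem lift_conn (hX : IsCone X) (hu : TorusMapV X Λ u) (hΛ : DiscreteSub Λ) {U : Set ℂ} (hU : IsOpen U) (hpre : IsPreconnected U)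
    (hprim : ∀ ψ : ℂ → Vd n, DifferentiableOn ℂ ψ U → ∃ g : ℂ → Vd n, ∀ z ∈ U, HasDerivAt g (ψ z) z)
    {F : ℂ → EN N} (hF : DifferentiableOn ℂ F U) (hFX : ∀ z ∈ U, F z ∈ X) {ζ₀ : ℂ} (hζ₀ : ζ₀ ∈ U) :
    ∃ φ : ℂ → Vd n, DifferentiableOn ℂ φ U ∧ ∀ z ∈ U, u (F z) - φ z ∈ Λ := by
  have hcv : ∀ z ∈ U, CurveAt X F z := by
    intro z hz
    refine ⟨hF.analyticAt (hU.mem_nhds hz), ?_⟩
    filter_upwards [hU.mem_nhds hz] with w hw
    exact hFX w hw
  obtain ⟨ψ, hψ⟩ : ∃ ψ : ℂ → Vd n, ψ = fun z => hu.du (F z) (deriv F z) := ⟨_, rfl⟩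
  have hψd : DifferentiableOn ℂ ψ U := by
    rw [differentiableOn_pi]
    intro j z hz
    have h1 := ((hu.symDiff hΛ hX j).curve_an (F := F) (z₀ := z) (hcv z hz)).differentiableAt
    rw [hψ]
    exact h1.differentiableWithinAt
  obtain ⟨g, hg⟩ := hprim ψ hψd
  obtain ⟨φ, hφ⟩ : ∃ φ : ℂ → Vd n, φ = fun z => u (F ζ₀) + (g z - g ζ₀) := ⟨_, rfl⟩
  have hφd : ∀ z ∈ U, HasDerivAt φ (ψ z) z := by
    intro z hz
    rw [hφ]
    exact ((hg z hz).sub_const (g ζ₀)).const_add (u (F ζ₀))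
  refine ⟨φ, fun z hz => (hφd z hz).differentiableAt.differentiableWithinAt, ?_⟩
  obtain ⟨c, hc⟩ : ∃ c : ℂ → Vd n ⧸ Λ, c = fun z => (QuotientAddGroup.mk (u (F z) - φ z) : Vd n ⧸ Λ) := ⟨_, rfl⟩
  have hlc : ∀ z₀ ∈ U, ∀ᶠ z in 𝓝 z₀, c z = c z₀ := by
    intro z₀ hz₀
    have hx := hFX z₀ hz₀
    have hl := hu.lift_an hx
    have hcont : Tendsto F (𝓝 z₀) (𝓝 (F z₀)) := (hcv z₀ hz₀).1.continuousAt.tendsto
    obtain ⟨h, hh⟩ : ∃ h : ℂ → Vd n, h = fun z => hu.lift (F z₀) (F z) - φ z := ⟨_, rfl⟩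
    have hder : ∀ᶠ z in 𝓝 z₀, deriv h z = 0 ∧ DifferentiableAt ℂ h z := by
      filter_upwards [hcont.eventually hl.eventually_analyticAt, hcont.eventually (hu.lift_mem hx).eventually_nhds, hU.mem_nhds hz₀] with z h1 h2 hzU
      have h3 : AnalyticAt ℂ (fun z => hu.lift (F z₀) (F z)) z :=
        AnalyticAt.comp (g := hu.lift (F z₀)) (f := F) h1 (hcv z hzU).1
      have h5 : HasDerivAt h (deriv (fun z => hu.lift (F z₀) (F z)) z - ψ z) z := by
        rw [hh]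
        exact h3.differentiableAt.hasDerivAt.sub (hφd z hzU)
      refine ⟨?_, h5.differentiableAt⟩
      rw [h5.deriv, deriv_comp_lift (hcv z hzU).1 h1, ← hu.du_eq hΛ (tan_curve (hcv z hzU)) h1 h2, hψ, sub_self]
    obtain ⟨r, hr, hball⟩ := Metric.eventually_nhds_iff_ball.1 hder
    have hconst : ∀ z ∈ ball z₀ r, h z = h z₀ := by
      intro z hz
      exact (convex_ball z₀ r).is_const_of_fderivWithin_eq_zero (𝕜 := ℂ) (fun y hy => (hball y hy).2.differentiableWithinAt)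
        (fun y hy => by
          rw [fderivWithin_of_isOpen isOpen_ball hy]
          ext1
          exact (hball y hy).1) hz (mem_ball_self hr)
    filter_upwards [hcont.eventually (hu.lift_mem hx), isOpen_ball.mem_nhds (mem_ball_self hr), hU.mem_nhds hz₀] with z h1 h2 hzU
    have h3 := h1 (hFX z hzU)
    have h4 := (hu.lift_mem hx).self_of_nhds hx
    have h5 := hconst z h2
    rw [hh] at h5
    simp only at h5
    rw [hc]
    simp only
    rw [QuotientAddGroup.eq]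
    have h6 := Λ.sub_mem h4 h3
    have h7 : -(u (F z) - φ z) + (u (F z₀) - φ z₀) = (u (F z₀) - hu.lift (F z₀) (F z₀)) - (u (F z) - hu.lift (F z₀) (F z)) +
        ((hu.lift (F z₀) (F z₀) - φ z₀) - (hu.lift (F z₀) (F z) - φ z)) := by abel
    rw [h7, h5, sub_self, add_zero]
    exact h6
  obtain ⟨A, hA⟩ : ∃ A : Set ℂ, A = {z | z ∈ U ∧ c z = c ζ₀} := ⟨_, rfl⟩
  have hAo : IsOpen A := by
    rw [hA, isOpen_iff_mem_nhds]
    rintro z ⟨hz, hz2⟩
    filter_upwards [hlc z hz, hU.mem_nhds hz] with w hw hwU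
    exact ⟨hwU, hw.trans hz2⟩
  have hAcl : closure A ∩ U ⊆ A := by
    rintro z ⟨hz1, hz2⟩
    have h1 : ∃ᶠ w in 𝓝 z, w ∈ A := mem_closure_iff_frequently.1 hz1
    obtain ⟨w, hw1, hw2⟩ := (h1.and_eventually (hlc z hz2)).exists
    rw [hA] at hw1 ⊢
    exact ⟨hz2, hw2.symm.trans hw1.2⟩
  have hsub : U ⊆ A := hpre.subset_of_closure_inter_subset hAo ⟨ζ₀, hζ₀, by rw [hA]; exact ⟨hζ₀, rfl⟩⟩ hAcl
  intro z hz
  have h1 := hsub hz
  rw [hA, hc] at h1
  have h3 := h1.2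
  simp only at h3
  rw [eq_comm, QuotientAddGroup.eq] at h3
  have h2 : u (F ζ₀) - φ ζ₀ = 0 := by
    rw [hφ]
    simp
  rwa [h2, neg_zero, zero_add] at h3

end Pool.Agent.H56.G3
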