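import Mathlib

/-!
# G3 Rad: the mean of `‖h - h 0‖ ^ 2` over a circle and the means of `‖h'‖ ^ 2`
-/

set_option autoImplicit false

open Set MeasureTheory Metric Real

namespace Pool.Agent.H56.G3

/-- Cauchy-Schwarz -/
theorem sq_integral_le {f : ℝ → ℝ} {r : ℝ} (hr : 0 ≤ r) (hf : ContinuousOn f (Icc 0 r)) :
    (∫ x in (0 : ℝ)..r, f x) ^ 2 ≤ r * ∫ x in (0 : ℝ)..r, f x ^ 2 := by
  rcases hr.eq_or_lt with rfl | hr0
  · simp
  obtain ⟨m, hm⟩ : ∃ m : ℝ, m = (∫ x in (0 : ℝ)..r, f x) / r := ⟨_, rfl⟩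
  have hu : uIcc 0 r = Icc 0 r := uIcc_of_le hr
  have hfi : IntervalIntegrable f volume 0 r := ContinuousOn.intervalIntegrable (by rwa [hu])
  have hf2 : IntervalIntegrable (fun x => f x ^ 2) volume 0 r := ContinuousOn.intervalIntegrable (by rw [hu]; exact hf.pow 2)
  have h1 : 0 ≤ ∫ x in (0 : ℝ)..r, (f x - m) ^ 2 := intervalIntegral.integral_nonneg hr fun x _ => sq_nonneg _
  have h2 : (fun x => (f x - m) ^ 2) = fun x => f x ^ 2 - 2 * m * f x + m ^ 2 := by
    funext x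
    ring
  rw [h2, intervalIntegral.integral_add (hf2.sub (hfi.const_mul _)) intervalIntegrable_const,
    intervalIntegral.integral_sub hf2 (hfi.const_mul _), intervalIntegral.integral_const_mul, intervalIntegral.integral_const,
    smul_eq_mul, sub_zero] at h1
  have h3 : ∫ x in (0 : ℝ)..r, f x = m * r := by
    rw [hm]
    field_simp
  rw [h3] at h1 ⊢
  have h4 : m ^ 2 * r ≤ ∫ x in (0 : ℝ)..r, f x ^ 2 := by nlinarith
  nlinarith

variable {E : Type*} [NormedAddCommGroup E] [NormedSpace ℂ E] [CompleteSpace E]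

private lemma norm_cm (ρ θ : ℝ) : ‖circleMap 0 ρ θ‖ = |ρ| := by simp [circleMap]

private lemma cm_mem {R r ρ θ : ℝ} (hrR : r < R) (hρ : ρ ∈ Icc 0 r) : circleMap 0 ρ θ ∈ ball (0 : ℂ) R := by
  rw [mem_ball_zero_iff, norm_cm, abs_of_nonneg hρ.1]
  exact hρ.2.trans_lt hrR

private lemma rad_point {h : ℂ → E} {R : ℝ} (hh : DifferentiableOn ℂ h (ball 0 R)) {r : ℝ} (hr : 0 ≤ r) (hrR : r < R) (θ : ℝ) :
    ‖h (circleMap 0 r θ) - h 0‖ ^ 2 ≤ r * ∫ ρ in (0 : ℝ)..r, ‖deriv h (circleMap 0 ρ θ)‖ ^ 2 := by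
  have hdc : ContinuousOn (deriv h) (ball 0 R) := (hh.deriv isOpen_ball).continuousOn
  have hcm : Continuous fun ρ : ℝ => circleMap 0 ρ θ := by
    unfold circleMap
    fun_prop
  have hc1 : ContinuousOn (fun ρ : ℝ => deriv h (circleMap 0 ρ θ)) (Icc 0 r) :=
    hdc.comp hcm.continuousOn fun ρ hρ => cm_mem hrR hρ
  have hder : ∀ ρ ∈ uIcc 0 r, HasDerivAt (fun ρ : ℝ => h (circleMap 0 ρ θ)) (Complex.exp (θ * Complex.I) • deriv h (circleMap 0 ρ θ)) ρ := by
    intro ρ hρ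
    rw [uIcc_of_le hr] at hρ
    have h1 : HasDerivAt h (deriv h (circleMap 0 ρ θ)) (circleMap 0 ρ θ) :=
      (hh.differentiableAt (isOpen_ball.mem_nhds (cm_mem hrR hρ))).hasDerivAt
    have h2 : HasDerivAt (fun ρ : ℝ => circleMap 0 ρ θ) (Complex.exp (θ * Complex.I)) ρ := by
      have h3 : HasDerivAt (fun ρ : ℝ => (ρ : ℂ) * Complex.exp (θ * Complex.I)) (1 * Complex.exp (θ * Complex.I)) ρ :=
        (Complex.ofRealCLM.hasDerivAt (x := ρ)).mul_const _
      rw [one_mul] at h3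
      refine h3.congr_of_eventuallyEq (Filter.Eventually.of_forall fun x => ?_)
      simp [circleMap]
    exact h1.scomp ρ h2
  have hint : IntervalIntegrable (fun ρ : ℝ => Complex.exp (θ * Complex.I) • deriv h (circleMap 0 ρ θ)) volume 0 r := by
    apply ContinuousOn.intervalIntegrable
    rw [uIcc_of_le hr]
    exact hc1.const_smul _
  have h1 := intervalIntegral.integral_eq_sub_of_hasDerivAt hder hint
  have h0 : circleMap 0 0 θ = 0 := by simp
  rw [h0] at h1
  rw [← h1]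
  have h2 : ‖∫ ρ in (0 : ℝ)..r, Complex.exp (θ * Complex.I) • deriv h (circleMap 0 ρ θ)‖ ≤
      ∫ ρ in (0 : ℝ)..r, ‖deriv h (circleMap 0 ρ θ)‖ := by
    refine (intervalIntegral.norm_integral_le_integral_norm hr).trans (le_of_eq ?_)
    refine intervalIntegral.integral_congr fun ρ _ => ?_
    rw [norm_smul, Complex.norm_exp_ofReal_mul_I, one_mul]
  exact (pow_le_pow_left₀ (norm_nonneg _) h2 2).trans (sq_integral_le hr hc1.norm)

/-- The mean of `‖h - h 0‖ ^ 2` over the circle of radius `r` is at most `r` times the integral over `[0, r]` of the means of `‖h'‖ ^ 2`. -/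
theorem mean_sq_le {h : ℂ → E} {R : ℝ} (hh : DifferentiableOn ℂ h (ball 0 R)) {r : ℝ} (hr : 0 ≤ r) (hrR : r < R) :
    circleAverage (fun z => ‖h z - h 0‖ ^ 2) 0 r ≤ r * ∫ ρ in (0 : ℝ)..r, circleAverage (fun z => ‖deriv h z‖ ^ 2) 0 ρ := by
  have hdc : ContinuousOn (deriv h) (ball 0 R) := (hh.deriv isOpen_ball).continuousOn
  have hcm : Continuous fun p : ℝ × ℝ => circleMap 0 p.1 p.2 := by
    unfold circleMap
    fun_prop
  have hF : ContinuousOn (Function.uncurry fun ρ θ : ℝ => ‖deriv h (circleMap 0 ρ θ)‖ ^ 2) (Icc 0 r ×ˢ Icc 0 (2 * π)) := by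
    refine (ContinuousOn.norm ?_).pow 2
    exact hdc.comp hcm.continuousOn fun p hp => cm_mem hrR hp.1
  have hpi : (0 : ℝ) ≤ 2 * π := by positivity
  have hFi : IntegrableOn (Function.uncurry fun ρ θ : ℝ => ‖deriv h (circleMap 0 ρ θ)‖ ^ 2) (uIoc 0 r ×ˢ uIoc 0 (2 * π)) := by
    refine (hF.integrableOn_compact (isCompact_Icc.prod isCompact_Icc)).mono_set ?_
    rw [uIoc_of_le hr, uIoc_of_le hpi]
    exact prod_mono Ioc_subset_Icc_self Ioc_subset_Icc_self
  have hswap := intervalIntegral_intervalIntegral_swap hFi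
  have hR : r * ∫ ρ in (0 : ℝ)..r, circleAverage (fun z => ‖deriv h z‖ ^ 2) 0 ρ =
      (2 * π)⁻¹ * ∫ θ in (0 : ℝ)..2 * π, r * ∫ ρ in (0 : ℝ)..r, ‖deriv h (circleMap 0 ρ θ)‖ ^ 2 := by
    rw [intervalIntegral.integral_const_mul, ← hswap]
    simp only [circleAverage_def, smul_eq_mul, intervalIntegral.integral_const_mul]
    ring
  rw [hR, circleAverage_def, smul_eq_mul]
  refine mul_le_mul_of_nonneg_left ?_ (by positivity)
  have hsph : ContinuousOn (fun θ : ℝ => ‖h (circleMap 0 r θ) - h 0‖ ^ 2) (uIcc 0 (2 * π)) := by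
    refine ((ContinuousOn.sub ?_ continuousOn_const).norm).pow 2
    refine hh.continuousOn.comp (by fun_prop) fun θ _ => cm_mem hrR ⟨hr, le_rfl⟩
  refine intervalIntegral.integral_mono_on hpi hsph.intervalIntegrable ?_ fun θ _ => rad_point hh hr hrR θ
  -- the right side is integrable
  have h1 : IntegrableOn (Function.uncurry fun θ ρ : ℝ => ‖deriv h (circleMap 0 ρ θ)‖ ^ 2) (Ioc 0 (2 * π) ×ˢ Ioc 0 r) := by
    have h2 := hFi
    rw [uIoc_of_le hr, uIoc_of_le hpi] at h2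
    have h3 := h2.swap
    exact h3
  rw [intervalIntegrable_iff_integrableOn_Ioc_of_le hpi]
  have h4 : IntegrableOn (fun θ : ℝ => ∫ ρ in Ioc 0 r, ‖deriv h (circleMap 0 ρ θ)‖ ^ 2) (Ioc 0 (2 * π)) := by
    have h5 : Integrable (Function.uncurry fun θ ρ : ℝ => ‖deriv h (circleMap 0 ρ θ)‖ ^ 2)
        ((volume.restrict (Ioc 0 (2 * π))).prod (volume.restrict (Ioc 0 r))) := by
      rw [Measure.prod_restrict, ← Measure.volume_eq_prod]
      exact h1
    exact h5.integral_prod_left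
  refine (h4.const_mul r).congr (Filter.Eventually.of_forall fun θ => ?_)
  simp only
  rw [intervalIntegral.integral_of_le hr]

end Pool.Agent.H56.G3
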