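import Mathlib

/-!
# G3 Tower: an integral inequality with an advanced logarithmic term
-/

set_option autoImplicit false

open Set MeasureTheory

namespace Pool.Agent.H56.G3

private lemma pl (x : ℝ) : Real.posLog x = max 0 (Real.log x) := rfl

private lemma tower_exp {C x : ℝ} (hC : 1 ≤ C) (hx : 32 * C ^ 2 ≤ x) :
    2 * x ≤ Real.exp (x / (2 * C)) ∧ Real.exp (-(x / (4 * C))) ≤ 4 * C / x := by
  have hC0 : 0 < C := by linarith
  have hx0 : 0 < x := by nlinarith
  refine ⟨?_, ?_⟩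
  · have h1 : 0 ≤ x / (2 * C) := by positivity
    have h2 := Real.quadratic_le_exp_of_nonneg h1
    have h3 : 2 * x ≤ (x / (2 * C)) ^ 2 / 2 := by
      rw [div_pow, div_div, le_div_iff₀ (by positivity)]
      nlinarith
    linarith
  · rw [Real.exp_neg, inv_le_comm₀ (Real.exp_pos _) (by positivity), inv_div]
    have h2 := Real.add_one_le_exp (x / (4 * C))
    linarith

private lemma integ {y : ℝ → ℝ} (hm : MonotoneOn y (Ico 0 1)) {a b : ℝ} (ha : 0 ≤ a) (hab : a ≤ b) (hb : b < 1) :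
    IntervalIntegrable y volume a b := by
  apply MonotoneOn.intervalIntegrable
  rw [uIcc_of_le hab]
  exact hm.mono fun x hx => ⟨ha.trans hx.1, hx.2.trans_lt hb⟩

private lemma integ_le {y : ℝ → ℝ} (hm : MonotoneOn y (Ico 0 1)) {a b : ℝ} (ha : 0 ≤ a) (hab : a ≤ b) (hb : b < 1) :
    ∫ ρ in a..b, y ρ ≤ (b - a) * y b := by
  have h := intervalIntegral.integral_mono_on hab (integ hm ha hab hb) (intervalIntegrable_const (c := y b))
    fun x hx => hm ⟨ha.trans hx.1, hx.2.trans_lt hb⟩ ⟨ha.trans hab, hb⟩ hx.2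
  rwa [intervalIntegral.integral_const, smul_eq_mul] at h

/-- the logarithmic term is harmless -/
private lemma tower_step {C : ℝ} (hC : 1 ≤ C) {y : ℝ → ℝ} {K : ℝ} (hK : 0 ≤ K) (h0 : ∀ r, 0 ≤ r → r < 1 → 0 ≤ y r)
    (hm : MonotoneOn y (Ico 0 1))
    (h : ∀ r r', 0 ≤ r → r < r' → r' < 1 → y r ≤ K + C * (∫ ρ in (0 : ℝ)..r, y ρ) + C * Real.posLog (y r' / (r' - r)))
    {r : ℝ} (hr : 0 ≤ r) (hr1 : r ≤ 1 / 2) : y r ≤ 4 * (K + C * ∫ ρ in (0 : ℝ)..r, y ρ) + 32 * C ^ 2 := by
  by_contra hcon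
  push Not at hcon
  have hC0 : 0 < C := by linarith
  obtain ⟨Z, hZ⟩ : ∃ Z : ℝ → ℝ, Z = fun r => K + C * ∫ ρ in (0 : ℝ)..r, y ρ := ⟨_, rfl⟩
  have hZe : ∀ r, Z r = K + C * ∫ ρ in (0 : ℝ)..r, y ρ := fun r => by rw [hZ]
  have hZr : 4 * Z r + 32 * C ^ 2 < y r := by rw [hZe]; exact hcon
  have hZ0 : ∀ s, 0 ≤ s → s < 1 → 0 ≤ Z s := by
    intro s hs hs1
    rw [hZe]
    have hY0 : 0 ≤ ∫ ρ in (0 : ℝ)..s, y ρ := intervalIntegral.integral_nonneg hs fun x hx => h0 x hx.1 (hx.2.trans_lt hs1)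
    positivity
  -- the sequence of radii
  obtain ⟨q, hq0, hqs⟩ : ∃ q : ℕ → ℝ, q 0 = r ∧ ∀ j, q (j + 1) = q j + Real.exp (-(y (q j) / (4 * C))) :=
    ⟨fun j => Nat.rec r (fun _ s => s + Real.exp (-(y s / (4 * C)))) j, rfl, fun _ => rfl⟩
  have key : ∀ j : ℕ, 0 ≤ q j ∧ q j ≤ r + 1 / 4 * (1 - (1 / 2) ^ j) ∧ 2 ^ j * (32 * C ^ 2) ≤ y (q j) ∧ 4 * Z (q j) ≤ y (q j) := by
    intro j
    induction j with
    | zero =>
      rw [hq0]
      have h1 := hZ0 r hr (by linarith)
      have h2 : 0 ≤ C ^ 2 := sq_nonneg C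
      refine ⟨hr, by simp, ?_, ?_⟩
      · simp only [pow_zero, one_mul]
        linarith
      · linarith
    | succ j ih =>
      obtain ⟨h1, h2, h3, h4⟩ := ih
      obtain ⟨x, hx⟩ : ∃ x : ℝ, x = y (q j) := ⟨_, rfl⟩
      obtain ⟨s, hs⟩ : ∃ s : ℝ, s = Real.exp (-(x / (4 * C))) := ⟨_, rfl⟩
      rw [← hx] at h3 h4
      have hp1 : (1 : ℝ) ≤ 2 ^ j := one_le_pow₀ (by norm_num)
      have hC2 : 0 < 32 * C ^ 2 := by positivity
      have hx32 : 32 * C ^ 2 ≤ x := by nlinarith
      have hx0 : 0 < x := by linarith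
      obtain ⟨he1, he2⟩ := tower_exp hC hx32
      have hs0 : 0 < s := by rw [hs]; exact Real.exp_pos _
      have hsx : s ≤ 4 * C / x := by rw [hs]; exact he2
      have hsj : s ≤ 1 / (8 * C) * (1 / 2) ^ j := by
        refine hsx.trans ?_
        rw [one_div_pow, div_mul_div_comm, one_mul, div_le_div_iff₀ hx0 (by positivity)]
        calc 4 * C * (8 * C * 2 ^ j) = 2 ^ j * (32 * C ^ 2) := by ring
          _ ≤ x := h3
          _ = 1 * x := (one_mul x).symm
      have hs8 : s ≤ 1 / 8 * (1 / 2) ^ j := by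
        refine hsj.trans (mul_le_mul_of_nonneg_right ?_ (by positivity))
        rw [div_le_div_iff₀ (by positivity) (by norm_num)]
        linarith
      have hhalf : (0 : ℝ) < (1 / 2) ^ j := by positivity
      have hhalf1 : ((1 : ℝ) / 2) ^ j ≤ 1 := pow_le_one₀ (by norm_num) (by norm_num)
      have hq1 : q (j + 1) = q j + s := by rw [hqs, hs, hx]
      have hqr : q (j + 1) ≤ r + 1 / 4 * (1 - (1 / 2) ^ (j + 1)) := by
        rw [hq1, pow_succ]
        linarith
      have hqlt : q (j + 1) < 1 := by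
        have : (0 : ℝ) < (1 / 2) ^ (j + 1) := by positivity
        linarith
      obtain ⟨x', hx'⟩ : ∃ x' : ℝ, x' = y (q (j + 1)) := ⟨_, rfl⟩
      have hmain := h (q j) (q (j + 1)) h1 (by rw [hq1]; linarith) hqlt
      rw [← hZe, ← hx, ← hx', hq1, add_sub_cancel_left] at hmain
      have hpl : 3 * x / (4 * C) ≤ Real.posLog (x' / s) := by
        rw [div_le_iff₀ (by positivity)]
        nlinarith
      have hpl0 : 0 < Real.posLog (x' / s) := lt_of_lt_of_le (by positivity) hpl
      have hlog : Real.posLog (x' / s) = Real.log (x' / s) := by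
        rw [pl] at hpl0 ⊢
        exact max_eq_right (by
          rcases le_total (Real.log (x' / s)) 0 with h5 | h5
          · rw [max_eq_left h5] at hpl0
            exact absurd hpl0 (lt_irrefl _)
          · exact h5)
      have hx'0 : 0 ≤ x' := by
        rw [hx']
        exact h0 _ (by rw [hq1]; linarith) hqlt
      have hx's : 0 < x' / s := by
        rcases (div_nonneg hx'0 hs0.le).eq_or_lt with h5 | h5
        · rw [← h5, pl, Real.log_zero, max_self] at hpl0
          exact absurd hpl0 (lt_irrefl _)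
        · exact h5
      rw [hlog, Real.le_log_iff_exp_le hx's, le_div_iff₀ hs0] at hpl
      have hx'big : Real.exp (x / (2 * C)) ≤ x' := by
        refine le_trans (le_of_eq ?_) hpl
        rw [hs, ← Real.exp_add]
        congr 1
        field_simp
        ring
      have h2x : 2 * x ≤ x' := he1.trans hx'big
      refine ⟨by rw [hq1]; linarith, hqr, ?_, ?_⟩
      · rw [pow_succ, ← hx']
        linarith
      · have hint : (∫ ρ in (0 : ℝ)..q (j + 1), y ρ) = (∫ ρ in (0 : ℝ)..q j, y ρ) + ∫ ρ in q j..q (j + 1), y ρ := by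
          rw [intervalIntegral.integral_add_adjacent_intervals (integ hm le_rfl h1 (by rw [hq1] at hqlt; linarith))
            (integ hm h1 (by rw [hq1]; linarith) hqlt)]
        have hle := integ_le hm h1 (by rw [hq1]; linarith) hqlt
        have hqq : q (j + 1) - q j = s := by rw [hq1]; ring
        rw [hqq, ← hx'] at hle
        have hZn : Z (q (j + 1)) ≤ Z (q j) + C * (s * x') := by
          rw [hZe, hZe, hint]
          have := mul_le_mul_of_nonneg_left hle hC0.le
          linarith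
        have hCs : C * s ≤ 1 / 8 := by
          have h6 : s ≤ 1 / (8 * C) := by
            refine hsj.trans ?_
            have : 0 < 1 / (8 * C) := by positivity
            nlinarith
          rw [le_div_iff₀ (by positivity)] at h6
          linarith
        have hCsx : C * (s * x') ≤ 1 / 8 * x' := by
          rw [← mul_assoc]
          exact mul_le_mul_of_nonneg_right hCs hx'0
        rw [← hx']
        linarith
  -- contradiction
  have h34 : ∀ j : ℕ, (2 : ℝ) ^ j * (32 * C ^ 2) ≤ y (3 / 4) := by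
    intro j
    obtain ⟨h1, h2, h3, -⟩ := key j
    have : (0 : ℝ) < (1 / 2) ^ j := by positivity
    have hq : q j ≤ 3 / 4 := by linarith
    exact h3.trans (hm ⟨h1, by linarith⟩ ⟨by norm_num, by norm_num⟩ hq)
  obtain ⟨j, hj⟩ := pow_unbounded_of_one_lt (y (3 / 4)) (show (1 : ℝ) < 2 by norm_num)
  have h5 := h34 j
  have h6 : (1 : ℝ) ≤ 32 * C ^ 2 := by nlinarith
  have h7 : (0 : ℝ) < 2 ^ j := by positivity
  nlinarith

/-- the constants of the discrete Gronwall argument -/
private noncomputable def cc : ℕ → ℝ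
  | 0 => 1
  | k + 1 => 2 + (k + 1) * cc k

private lemma cc_nonneg (k : ℕ) : 1 ≤ cc k := by
  induction k with
  | zero => exact le_rfl
  | succ k ih =>
    show (1 : ℝ) ≤ 2 + (k + 1) * cc k
    have : (0 : ℝ) ≤ (k + 1) * cc k := by positivity
    linarith

/-- **Tower-Gronwall lemma.** -/
theorem tower (C : ℝ) (hC : 1 ≤ C) : ∃ C' : ℝ, 0 < C' ∧ ∀ (y : ℝ → ℝ) (K : ℝ), 0 ≤ K → (∀ r, 0 ≤ r → r < 1 → 0 ≤ y r) →
    MonotoneOn y (Ico 0 1) →
    (∀ r r', 0 ≤ r → r < r' → r' < 1 → y r ≤ K + C * (∫ ρ in (0 : ℝ)..r, y ρ) + C * Real.posLog (y r' / (r' - r))) →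
    ∀ r, 0 ≤ r → r ≤ 1 / 2 → y r ≤ C' * (K + 1) := by
  have hC0 : 0 < C := by linarith
  obtain ⟨n, hn⟩ := exists_nat_ge (4 * C)
  refine ⟨cc n * (32 * C ^ 2), by have := cc_nonneg n; positivity, ?_⟩
  intro y K hK h0 hm h r hr hr1
  obtain ⟨a, ha⟩ : ∃ a : ℝ, a = 4 * K + 32 * C ^ 2 := ⟨_, rfl⟩
  have ha0 : 0 ≤ a := by rw [ha]; positivity
  have hstep : ∀ s, 0 ≤ s → s ≤ 1 / 2 → y s ≤ a + 4 * C * ∫ ρ in (0 : ℝ)..s, y ρ := by
    intro s hs hs1
    have := tower_step hC hK h0 hm h hs hs1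
    rw [ha]
    linarith
  obtain ⟨δ, hδ⟩ : ∃ δ : ℝ, δ = 1 / (8 * C) := ⟨_, rfl⟩
  have hδ0 : 0 < δ := by rw [hδ]; positivity
  have hCδ : 4 * C * δ = 1 / 2 := by
    rw [hδ]
    field_simp
    norm_num
  have key : ∀ k : ℕ, ∀ s, 0 ≤ s → s ≤ 1 / 2 → s ≤ k * δ → y s ≤ cc k * a := by
    intro k
    induction k with
    | zero =>
      intro s hs hs1 hsk
      have hs0 : s = 0 := by
        push_cast at hsk
        linarith
      have := hstep s hs hs1
      rw [hs0, intervalIntegral.integral_same] at this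
      rw [hs0]
      show y 0 ≤ 1 * a
      linarith
    | succ k ih =>
      intro s hs hs1 hsk
      have hcck := cc_nonneg k
      have hcc : cc (k + 1) = 2 + (k + 1) * cc k := rfl
      have hk0 : (0 : ℝ) ≤ k := Nat.cast_nonneg k
      rcases le_total s (k * δ) with hle | hle
      · refine (ih s hs hs1 hle).trans (mul_le_mul_of_nonneg_right ?_ ha0)
        rw [hcc]
        nlinarith
      · have hkδ : 0 ≤ (k : ℝ) * δ := by positivity
        have hint : (∫ ρ in (0 : ℝ)..s, y ρ) = (∫ ρ in (0 : ℝ)..k * δ, y ρ) + ∫ ρ in (k * δ)..s, y ρ := by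
          rw [intervalIntegral.integral_add_adjacent_intervals (integ hm le_rfl hkδ (by linarith))
            (integ hm hkδ hle (by linarith))]
        have h1 := integ_le hm le_rfl hkδ (show (k : ℝ) * δ < 1 by linarith)
        have h2 := integ_le hm hkδ hle (show s < 1 by linarith)
        have h3 := ih (k * δ) hkδ (by linarith) le_rfl
        have h4 := hstep s hs hs1
        have hys : 0 ≤ y s := h0 s hs (by linarith)
        push_cast at hsk
        have h5 : ∫ ρ in (0 : ℝ)..s, y ρ ≤ k * δ * (cc k * a) + δ * y s := by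
          rw [hint]
          have h6 : ((k : ℝ) * δ - 0) * y (k * δ) ≤ k * δ * (cc k * a) := by
            rw [sub_zero]
            exact mul_le_mul_of_nonneg_left h3 hkδ
          have h7 : (s - k * δ) * y s ≤ δ * y s := mul_le_mul_of_nonneg_right (by linarith) hys
          linarith
        have h8 : 4 * C * ∫ ρ in (0 : ℝ)..s, y ρ ≤ 4 * C * (k * δ * (cc k * a) + δ * y s) :=
          mul_le_mul_of_nonneg_left h5 (by positivity)
        have h9 : 4 * C * (k * δ * (cc k * a) + δ * y s) = 1 / 2 * (k * (cc k * a)) + 1 / 2 * y s := by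
          calc 4 * C * (k * δ * (cc k * a) + δ * y s) = (4 * C * δ) * (k * (cc k * a)) + (4 * C * δ) * y s := by ring
            _ = _ := by rw [hCδ]
        rw [hcc]
        have h10 : 0 ≤ cc k * a := mul_nonneg (by linarith) ha0
        nlinarith
  have h1 := key n r hr hr1 (by
    have : 4 * C * δ ≤ n * δ := mul_le_mul_of_nonneg_right hn hδ0.le
    linarith)
  refine h1.trans ?_
  rw [ha, mul_assoc]
  refine mul_le_mul_of_nonneg_left ?_ (by linarith [cc_nonneg n])
  have hC2 : (4 : ℝ) ≤ 32 * C ^ 2 := by nlinarith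
  have := mul_le_mul_of_nonneg_right hC2 hK
  linarith

end Pool.Agent.H56.G3
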